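import Mathlib

set_option autoImplicit false

open Finset

namespace Pool.Agent.CMPP

/-- one array: a pair `(X, Y)` of finite sets of integers -/
abbrev Arr := Finset ℤ × Finset ℤ

/-- valid array with ground level `c`: `X ⊂ (c, ∞)`, `Y ⊂ [-c, ∞)` -/
def VA (c : ℤ) (P : Arr) : Prop := (∀ x ∈ P.1, c < x) ∧ (∀ y ∈ P.2, -c ≤ y)

/-- charge `|X| - |Y|` -/
def ch (P : Arr) : ℤ := (P.1.card : ℤ) - (P.2.card : ℤ)

/-- weight `Σ X + Σ Y` -/
def wa (P : Arr) : ℤ := ∑ x ∈ P.1, x + ∑ y ∈ P.2, y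

/-- a configuration of `k` arrays -/
abbrev Obj (k : ℕ) := Fin k → Arr

def Valid {k : ℕ} (c : Fin k → ℤ) (o : Obj k) : Prop := ∀ t, VA (c t) (o t)

def wt {k : ℕ} (o : Obj k) : ℤ := ∑ t, wa (o t)

/-- shifted charges `E_t = |X^t| - |Y^t| - t` (`t = 1..k`) -/
def EE {k : ℕ} (o : Obj k) : Fin k → ℤ := fun t => ch (o t) - ((t : ℕ) + 1)

/-- the Euler product `(q;q)_∞` -/
noncomputable def Eul (q : ℝ) : ℝ := ∏' j : ℕ, (1 - q ^ (j + 1))

/-- counting function of `X ∪ (-∞, c]`, normalised to be `0` at `c` -/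
def cx (c : ℤ) (X : Finset ℤ) (u : ℤ) : ℤ := ((X.filter (fun x => x ≤ u)).card : ℤ) - max (c - u) 0

/-- counting function of `Y ∪ (-∞, -c-1]`, normalised to be `0` at `-c-1` -/
def cy (c : ℤ) (Y : Finset ℤ) (w : ℤ) : ℤ :=
  ((Y.filter (fun y => y ≤ w)).card : ℤ) - max (-c - 1 - w) 0

/-- height functions: index `0` and index `k+1` are the walls -/
def DD {k : ℕ} (m : ℕ) (c : Fin k → ℤ) (o : Obj k) (s : ℕ) (u w : ℤ) : ℤ :=
  if s = 0 then (if u - w ≤ 1 then 0 else 1)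
  else if h : s - 1 < k then cx (c ⟨s - 1, h⟩) (o ⟨s - 1, h⟩).1 u - cy (c ⟨s - 1, h⟩) (o ⟨s - 1, h⟩).2 w
  else (if (m : ℤ) ≤ u - w ∧ 0 ≤ u then 0 else -1)

/-- bad point of low type -/
def Low (k m : ℕ) (D : ℕ → ℤ → ℤ → ℤ) (t : ℕ) (ξ η : ℤ) : Prop :=
  t < k ∧ D (t + 1) (ξ - 1) η < D (t + 1) ξ η ∧ ξ - m - 1 ≤ η ∧ D t ξ η ≤ 0 ∧ 1 ≤ D (t + 1) ξ η

/-- bad point of high type -/
def High (k m : ℕ) (D : ℕ → ℤ → ℤ → ℤ) (s : ℕ) (η ξ : ℤ) : Prop :=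
  1 ≤ s ∧ s ≤ k ∧ D s ξ η < D s ξ (η - 1) ∧ η + m ≤ ξ ∧ D s ξ η ≤ -1 ∧ 0 ≤ D (s + 1) ξ η

/-- no bad points -/
def Good {k : ℕ} (m : ℕ) (c : Fin k → ℤ) (o : Obj k) : Prop :=
  (∀ t ξ η, ¬ Low k m (DD m c o) t ξ η) ∧ (∀ s η ξ, ¬ High k m (DD m c o) s η ξ)

/-- the generating function of good configurations -/
noncomputable def ZZ {k : ℕ} (m : ℕ) (c : Fin k → ℤ) (q : ℝ) : ℝ :=
  ∑' o : {o : Obj k // Valid c o ∧ Good m c o}, q ^ (wt o.1)

/-- partial sums `K_j = k_0 + ... + k_j` -/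
def KK (kf : ℕ → ℕ) (j : ℕ) : ℕ := ∑ t ∈ range (j + 1), kf t

/-- boundary colours: `cf n kf t` is the least `j` with `t < K_j` (for `t < K_n`) -/
def cf (n : ℕ) (kf : ℕ → ℕ) (t : ℕ) : ℕ := ((range n).filter (fun j => KK kf j ≤ t)).card

/-- the right-hand side of the frozen statement -/
noncomputable def RHS (n : ℕ) (k : ℕ → ℕ) (q : ℝ) : ℝ :=
      ((∏' j : ℕ, (1 - q ^ (((∑ t ∈ Finset.range (n + 1), k t) + n + 1)
              + (2 * ((∑ t ∈ Finset.range (n + 1), k t) + n + 1)) * j)))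
        * (∏' j : ℕ, (1 - q ^ ((2 * ((∑ t ∈ Finset.range (n + 1), k t) + n + 1))
              + (2 * ((∑ t ∈ Finset.range (n + 1), k t) + n + 1)) * j))) ^ n
        / ((∏' j : ℕ, (1 - q ^ (1 + 2 * j))) * (∏' j : ℕ, (1 - q ^ (1 + j))) ^ n)
        * (∏ i ∈ Finset.Icc 1 n,
            ((∏' j : ℕ, (1 - q ^ (((∑ t ∈ Finset.Icc i n, k t) + (n - i) + 1)
                + ((∑ t ∈ Finset.range (n + 1), k t) + n + 1) * j)))
             * (∏' j : ℕ, (1 - q ^ ((((∑ t ∈ Finset.range (n + 1), k t) + n + 1)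
                - ((∑ t ∈ Finset.Icc i n, k t) + (n - i) + 1))
                + ((∑ t ∈ Finset.range (n + 1), k t) + n + 1) * j)))))
        * (∏ i ∈ Finset.Icc 1 n, ∏ l ∈ Finset.Icc (i + 1) n,
            ((∏' j : ℕ, (1 - q ^ ((((∑ t ∈ Finset.Icc i n, k t) - (∑ t ∈ Finset.Icc l n, k t)) + (l - i))
                + (2 * ((∑ t ∈ Finset.range (n + 1), k t) + n + 1)) * j)))
             * (∏' j : ℕ, (1 - q ^ (((2 * ((∑ t ∈ Finset.range (n + 1), k t) + n + 1))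
                - (((∑ t ∈ Finset.Icc i n, k t) - (∑ t ∈ Finset.Icc l n, k t)) + (l - i)))
                + (2 * ((∑ t ∈ Finset.range (n + 1), k t) + n + 1)) * j)))
             * (∏' j : ℕ, (1 - q ^ (((∑ t ∈ Finset.Icc i n, k t) + (∑ t ∈ Finset.Icc l n, k t) + (n - i) + (n - l) + 2)
                + (2 * ((∑ t ∈ Finset.range (n + 1), k t) + n + 1)) * j)))
             * (∏' j : ℕ, (1 - q ^ (((2 * ((∑ t ∈ Finset.range (n + 1), k t) + n + 1))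
                - ((∑ t ∈ Finset.Icc i n, k t) + (∑ t ∈ Finset.Icc l n, k t) + (n - i) + (n - l) + 2))
                + (2 * ((∑ t ∈ Finset.range (n + 1), k t) + n + 1)) * j))))))

/-- the left-hand side: the counting function times `q^N` -/
noncomputable def LHSf (n : ℕ) (k : ℕ → ℕ) (q : ℝ) (N : ℕ) : ℝ :=
        ((({f : ℕ → ℕ → ℕ |
            (∀ c i, f c i ≠ 0 → 1 ≤ c ∧ c ≤ 2 * n + 1 ∧ 1 ≤ i ∧ i ≤ N ∧ Even (c + i)) ∧
            (∑ c ∈ Finset.Icc 1 (2 * n + 1), ∑ i ∈ Finset.Icc 1 N, i * f c i) = N ∧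
            ∀ p : ℕ → ℤ,
              (∀ c ∈ Finset.Icc 1 (2 * n + 1), -1 ≤ p c ∧ Even (p c + (c : ℤ))) →
              (∀ c ∈ Finset.Icc 1 (2 * n), |p c - p (c + 1)| = 1) →
              (∑ c ∈ Finset.Icc 1 (2 * n + 1),
                  (if p c = -1 then (if Odd c then k ((c - 1) / 2) else 0)
                   else f c (p c).toNat))
                ≤ ∑ t ∈ Finset.range (n + 1), k t}).ncard : ℕ) : ℝ) * q ^ N

end Pool.Agent.CMPP
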