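import Mathlib
import Pool.Agent.Lib_helper28.CMPP.Defs

set_option autoImplicit false

open Finset

namespace Pool.Agent.CMPP

/-- abstract height functions -/
structure Cfg (k m : ℕ) (D : ℕ → ℤ → ℤ → ℤ) (a b : ℕ → ℤ → ℤ) : Prop where
  eq : ∀ s u w, 1 ≤ s → s ≤ k → D s u w = a s u - b s w
  zero : ∀ u w, D 0 u w = if u - w ≤ 1 then 0 else 1
  top : ∀ u w, D (k + 1) u w = if (m : ℤ) ≤ u - w ∧ 0 ≤ u then 0 else -1
  a_step : ∀ s u, 1 ≤ s → s ≤ k → a s (u - 1) ≤ a s u ∧ a s u ≤ a s (u - 1) + 1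
  b_step : ∀ s u, 1 ≤ s → s ≤ k → b s (u - 1) ≤ b s u ∧ b s u ≤ b s (u - 1) + 1
  a_bot : ∀ s N, 1 ≤ s → s ≤ k → ∃ u0, ∀ u, u ≤ u0 → a s u ≤ N
  b_bot : ∀ s N, 1 ≤ s → s ≤ k → ∃ u0, ∀ u, u ≤ u0 → b s u ≤ N

lemma mono_of_step {f : ℤ → ℤ} (h : ∀ u, f (u - 1) ≤ f u) {u v : ℤ} (huv : u ≤ v) : f u ≤ f v := by
  have : Monotone f := by
    refine monotone_int_of_le_succ fun n => ?_
    have := h (n + 1)
    simpa using this
  exact this huv

lemma exists_jump {f : ℤ → ℤ} (h : ∀ u, f (u - 1) ≤ f u)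
    (hb : ∀ N, ∃ u0, ∀ u, u ≤ u0 → f u ≤ N) (u : ℤ) :
    ∃ ξ, ξ ≤ u ∧ f (ξ - 1) < f ξ ∧ f ξ = f u := by
  classical
  obtain ⟨u0, hu0⟩ := hb (f u - 1)
  obtain ⟨ξ, h1, h2⟩ := Int.exists_least_of_bdd (P := fun ξ => f ξ = f u)
    ⟨u0, fun z hz => by
      by_contra hlt
      have := hu0 z (by omega)
      omega⟩ ⟨u, rfl⟩
  refine ⟨ξ, h2 u rfl, ?_, h1⟩
  have h3 := h ξ
  rcases lt_or_eq_of_le h3 with h4 | h4
  · exact h4
  · have := h2 (ξ - 1) (by omega)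
    omega

section

variable {k m : ℕ} {D D' : ℕ → ℤ → ℤ → ℤ} {a b a' b' : ℕ → ℤ → ℤ}

lemma Cfg.a_mono (h : Cfg k m D a b) {s : ℕ} (h1 : 1 ≤ s) (h2 : s ≤ k) {u v : ℤ} (huv : u ≤ v) :
    a s u ≤ a s v := mono_of_step (fun u => (h.a_step s u h1 h2).1) huv

lemma Cfg.b_mono (h : Cfg k m D a b) {s : ℕ} (h1 : 1 ≤ s) (h2 : s ≤ k) {u v : ℤ} (huv : u ≤ v) :
    b s u ≤ b s v := mono_of_step (fun u => (h.b_step s u h1 h2).1) huv

lemma Cfg.a_jump (h : Cfg k m D a b) {s : ℕ} (h1 : 1 ≤ s) (h2 : s ≤ k) (u : ℤ) :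
    ∃ ξ, ξ ≤ u ∧ a s (ξ - 1) < a s ξ ∧ a s ξ = a s u :=
  exists_jump (fun u => (h.a_step s u h1 h2).1) (fun N => h.a_bot s N h1 h2) u

lemma Cfg.b_jump (h : Cfg k m D a b) {s : ℕ} (h1 : 1 ≤ s) (h2 : s ≤ k) (u : ℤ) :
    ∃ ξ, ξ ≤ u ∧ b s (ξ - 1) < b s ξ ∧ b s ξ = b s u :=
  exists_jump (fun u => (h.b_step s u h1 h2).1) (fun N => h.b_bot s N h1 h2) u

/-- `D` is nondecreasing in `u` and nonincreasing in `w` -/
lemma Cfg.mono (h : Cfg k m D a b) {s : ℕ} (hs : s ≤ k + 1) {u u' w w' : ℤ} (hu : u ≤ u')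
    (hw : w' ≤ w) : D s u w ≤ D s u' w' := by
  rcases Nat.eq_zero_or_pos s with rfl | h1
  · rw [h.zero, h.zero]
    split_ifs <;> omega
  · rcases Nat.lt_or_ge k s with h2 | h2
    · have : s = k + 1 := by omega
      subst this
      rw [h.top, h.top]
      split_ifs <;> omega
    · rw [h.eq s _ _ h1 h2, h.eq s _ _ h1 h2]
      have := h.a_mono h1 h2 hu
      have := h.b_mono h1 h2 hw
      omega

def LeastLow (k m : ℕ) (D : ℕ → ℤ → ℤ → ℤ) (t : ℕ) (ξ η : ℤ) : Prop :=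
  Low k m D t ξ η ∧
  (∀ t' ξ' η', Low k m D t' ξ' η' → ξ < ξ' ∨ (ξ = ξ' ∧ (t < t' ∨ (t = t' ∧ η ≤ η')))) ∧
  (∀ s η' ξ', High k m D s η' ξ' → ξ ≤ η' + m)

def LeastHigh (k m : ℕ) (D : ℕ → ℤ → ℤ → ℤ) (s : ℕ) (η ξ : ℤ) : Prop :=
  High k m D s η ξ ∧
  (∀ t' ξ' η', Low k m D t' ξ' η' → η + m < ξ') ∧
  (∀ s' η' ξ', High k m D s' η' ξ' → η < η' ∨ (η = η' ∧ (s' < s ∨ (s = s' ∧ ξ ≤ ξ'))))

/-- two configurations agree up to the point `(ξ, η)` and outside the arrays `t, t+1` -/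
structure Agree (k : ℕ) (a b a' b' : ℕ → ℤ → ℤ) (t : ℕ) (ξ η : ℤ) : Prop where
  pa : ∀ s u, u ≤ ξ → a' s u = a s u
  pb : ∀ s w, w ≤ η → b' s w = b s w
  qa : ∀ s u, s ≠ t → s ≠ t + 1 → a' s u = a s u
  qb : ∀ s u, s ≠ t → s ≠ t + 1 → b' s u = b s u

lemma Agree.symm {t : ℕ} {ξ η : ℤ} (h : Agree k a b a' b' t ξ η) : Agree k a' b' a b t ξ η :=
  ⟨fun s u hu => (h.pa s u hu).symm, fun s u hu => (h.pb s u hu).symm,
    fun s u h1 h2 => (h.qa s u h1 h2).symm, fun s u h1 h2 => (h.qb s u h1 h2).symm⟩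

lemma Agree.D_prefix {t : ℕ} {ξ η : ℤ} (h : Agree k a b a' b' t ξ η) (hD : Cfg k m D a b)
    (hD' : Cfg k m D' a' b') {s : ℕ} (hs : s ≤ k + 1) {u w : ℤ} (hu : u ≤ ξ) (hw : w ≤ η) :
    D' s u w = D s u w := by
  rcases Nat.eq_zero_or_pos s with rfl | h1
  · rw [hD.zero, hD'.zero]
  · rcases Nat.lt_or_ge k s with h2 | h2
    · have : s = k + 1 := by omega
      subst this
      rw [hD.top, hD'.top]
    · rw [hD.eq s _ _ h1 h2, hD'.eq s _ _ h1 h2, h.pa s u hu, h.pb s w hw]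

lemma Agree.D_other {t : ℕ} {ξ η : ℤ} (h : Agree k a b a' b' t ξ η) (hD : Cfg k m D a b)
    (hD' : Cfg k m D' a' b') {s : ℕ} (hs : s ≤ k + 1) {u w : ℤ} (h3 : s ≠ t ∨ s = 0 ∨ s = k + 1)
    (h4 : s ≠ t + 1 ∨ s = 0 ∨ s = k + 1) :
    D' s u w = D s u w := by
  rcases Nat.eq_zero_or_pos s with rfl | h1
  · rw [hD.zero, hD'.zero]
  · rcases Nat.lt_or_ge k s with h2 | h2
    · have : s = k + 1 := by omega
      subst this
      rw [hD.top, hD'.top]
    · rw [hD.eq s _ _ h1 h2, hD'.eq s _ _ h1 h2, h.qa s u (by omega) (by omega),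
        h.qb s w (by omega) (by omega)]

/-- facts at a least low bad point -/
lemma LeastLow.facts (hD : Cfg k m D a b) {t : ℕ} {ξ η : ℤ} (h : LeastLow k m D t ξ η) :
    D (t + 1) ξ η = 1 ∧ D t ξ η = 0 ∧ (t = 0 → η = ξ - 1) := by
  obtain ⟨⟨htk, hj, hη, h0, h1⟩, hl, hh⟩ := h
  have e1 : ∀ u w, D (t + 1) u w = a (t + 1) u - b (t + 1) w := fun u w =>
    hD.eq _ _ _ (by omega) (by omega)
  have hst := hD.a_step (t + 1) ξ (by omega) (by omega)
  have hj' : a (t + 1) (ξ - 1) < a (t + 1) ξ := by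
    rw [e1, e1] at hj; omega
  -- D_{t+1} = 1
  have c1 : D (t + 1) ξ η = 1 := by
    by_contra hne
    have h2 : 1 ≤ D (t + 1) (ξ - 1) η := by
      rw [e1] at h1 hne ⊢; omega
    obtain ⟨ξ', g1, g2, g3⟩ := hD.a_jump (s := t + 1) (by omega) (by omega) (ξ - 1)
    have := hl t ξ' η ⟨htk, by rw [e1, e1]; omega, by omega,
      le_trans (hD.mono (by omega) (by omega) le_rfl) h0, by rw [e1] at h2 ⊢; omega⟩
    omega
  refine ⟨c1, ?_, ?_⟩
  · rcases Nat.eq_zero_or_pos t with rfl | ht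
    · rw [hD.zero] at h0 ⊢
      split_ifs at h0 ⊢ <;> omega
    · have e0 : ∀ u w, D t u w = a t u - b t w := fun u w => hD.eq _ _ _ ht (by omega)
      by_contra hne
      have hbst := hD.b_step t η ht (by omega)
      rcases le_or_gt (ξ - m - 1) (η - 1) with hcase | hcase
      · have h3 : D (t + 1) ξ η ≤ D (t + 1) ξ (η - 1) := hD.mono (by omega) le_rfl (by omega)
        have := hl t ξ (η - 1) ⟨htk, by rw [e1, e1]; omega, by omega, by rw [e0] at h0 hne ⊢; omega,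
          by omega⟩
        omega
      · have hξ : ξ - 1 = η + m := by omega
        obtain ⟨η', g1, g2, g3⟩ := hD.b_jump (s := t) ht (by omega) η
        have h3 : D t (ξ - 1) η ≤ D t ξ η := hD.mono (by omega) (by omega) le_rfl
        have h4 : D (t + 1) (ξ - 1) η ≤ D (t + 1) (ξ - 1) η' := hD.mono (by omega) le_rfl g1
        have q1 := e1 ξ η
        have q2 := e1 (ξ - 1) η
        have q3 := e0 (ξ - 1) η
        have q4 := e0 (ξ - 1) η'
        have := hh t η' (ξ - 1) ⟨ht, by omega, by rw [e0, e0]; omega, by omega,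
          by omega, by omega⟩
        omega
  · rintro rfl
    have h2 : ξ - η ≤ 1 := by
      rw [hD.zero] at h0
      split_ifs at h0 with h
      · exact h
      · omega
    rcases eq_or_lt_of_le (show ξ - 1 ≤ η by omega) with h3 | h3
    · exact h3.symm
    · exfalso
      have h4 : D (0 + 1) ξ η ≤ D (0 + 1) ξ (η - 1) := hD.mono (by omega) le_rfl (by omega)
      have := hl 0 ξ (η - 1) ⟨htk, by rw [e1, e1]; omega, by omega, by
        rw [hD.zero, if_pos (by omega)], by omega⟩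
      omega

/-- facts at a least high bad point -/
lemma LeastHigh.facts (hD : Cfg k m D a b) {s : ℕ} {η ξ : ℤ} (h : LeastHigh k m D s η ξ) :
    D (s + 1) ξ η = 0 ∧ D s ξ η = -1 ∧ (s = k → 0 ≤ η + m → ξ = η + m) := by
  obtain ⟨⟨hs1, hsk, hj, hξ, h0, h1⟩, hl, hh⟩ := h
  have e0 : ∀ u w, D s u w = a s u - b s w := fun u w => hD.eq _ _ _ hs1 hsk
  have hst := hD.b_step s η hs1 hsk
  have hj' : b s (η - 1) < b s η := by
    rw [e0, e0] at hj; omega
  have c0 : D s ξ η = -1 := by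
    by_contra hne
    have h2 : D s ξ (η - 1) ≤ -1 := by
      rw [e0] at h0 hne ⊢; omega
    obtain ⟨η', g1, g2, g3⟩ := hD.b_jump (s := s) hs1 hsk (η - 1)
    have h3 : D (s + 1) ξ η ≤ D (s + 1) ξ η' := hD.mono (by omega) le_rfl (by omega)
    have := hh s η' ξ ⟨hs1, hsk, by rw [e0, e0]; omega, by omega,
      by rw [e0] at h2 ⊢; omega, by omega⟩
    omega
  have c0' : D s ξ (η - 1) = 0 := by rw [e0] at c0 ⊢; omega
  refine ⟨?_, c0, ?_⟩
  · rcases Nat.lt_or_ge s k with hs | hs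
    · have e1 : ∀ u w, D (s + 1) u w = a (s + 1) u - b (s + 1) w := fun u w =>
        hD.eq _ _ _ (by omega) (by omega)
      by_contra hne
      have hast := hD.a_step (s + 1) ξ (by omega) (by omega)
      rcases le_or_gt (η + m) (ξ - 1) with hcase | hcase
      · have h3 : D s (ξ - 1) η ≤ D s ξ η := hD.mono (by omega) (by omega) le_rfl
        have := hh s η (ξ - 1) ⟨hs1, hsk, by rw [e0, e0]; omega, by omega, by omega,
          by rw [e1] at h1 hne ⊢; omega⟩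
        omega
      · have hξ' : ξ = η + m := by omega
        obtain ⟨ξ', g1, g2, g3⟩ := hD.a_jump (s := s + 1) (by omega) (by omega) ξ
        have h3 : D s ξ' (η - 1) ≤ D s ξ (η - 1) := hD.mono (by omega) g1 le_rfl
        have h4 : D (s + 1) ξ η ≤ D (s + 1) ξ (η - 1) := hD.mono (by omega) le_rfl (by omega)
        have := hl s ξ' (η - 1) ⟨hs, by rw [e1, e1]; omega, by omega, by omega,
          by rw [e1] at h1 hne h4 ⊢; rw [e1] at h4; omega⟩
        omega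
    · have : s = k := by omega
      subst this
      rw [hD.top] at h1 ⊢
      split_ifs at h1 ⊢ with h
      · rfl
      · omega
  · rintro rfl hpos
    rcases eq_or_lt_of_le hξ with h3 | h3
    · exact h3.symm
    · exfalso
      have h4 : D s (ξ - 1) η ≤ D s ξ η := hD.mono (by omega) (by omega) le_rfl
      have := hh s η (ξ - 1) ⟨hs1, hsk, by rw [e0, e0]; omega, by omega, by omega, by
        rw [hD.top, if_pos (by omega)]⟩
      omega

end

end Pool.Agent.CMPP
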