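import Mathlib
import Pool.Agent.Lib_helper28.CMPP.Inv1

set_option autoImplicit false

open Finset

namespace Pool.Agent.CMPP

section

variable {k m : ℕ} {D D' : ℕ → ℤ → ℤ → ℤ} {a b a' b' : ℕ → ℤ → ℤ}

/-- jumps of `D s` in `u` do not depend on `w` -/
lemma Cfg.jump_u (h : Cfg k m D a b) {s : ℕ} (h1 : 1 ≤ s) (h2 : s ≤ k) {u w w' : ℤ}
    (hj : D s (u - 1) w < D s u w) : D s (u - 1) w' < D s u w' := by
  rw [h.eq s _ _ h1 h2, h.eq s _ _ h1 h2] at hj ⊢
  omega

lemma Cfg.jump_w (h : Cfg k m D a b) {s : ℕ} (h1 : 1 ≤ s) (h2 : s ≤ k) {u u' w : ℤ}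
    (hj : D s u w < D s u (w - 1)) : D s u' w < D s u' (w - 1) := by
  rw [h.eq s _ _ h1 h2, h.eq s _ _ h1 h2] at hj ⊢
  omega

theorem LeastLow.preserve (hD : Cfg k m D a b) (hD' : Cfg k m D' a' b') {t : ℕ} {ξ η : ℤ}
    (h : LeastLow k m D t ξ η) (hA : Agree k a b a' b' t ξ η) : LeastLow k m D' t ξ η := by
  obtain ⟨f1, f0, -⟩ := h.facts hD
  obtain ⟨⟨htk, hj, hη, h0, h1⟩, hl, hh⟩ := h
  have hpre : ∀ {s : ℕ} {u w : ℤ}, s ≤ k + 1 → u ≤ ξ → w ≤ η → D' s u w = D s u w :=
    fun hs hu hw => hA.D_prefix hD hD' hs hu hw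
  have hoth : ∀ {s : ℕ} {u w : ℤ}, s ≤ k + 1 → s ≠ t → s ≠ t + 1 → D' s u w = D s u w :=
    fun hs h1 h2 => hA.D_other hD hD' hs (Or.inl h1) (Or.inl h2)
  have fj : D (t + 1) (ξ - 1) η ≤ 0 := by omega
  refine ⟨⟨htk, ?_, hη, ?_, ?_⟩, ?_, ?_⟩
  · rw [hpre (by omega) (by omega) le_rfl, hpre (by omega) le_rfl le_rfl]; exact hj
  · rw [hpre (by omega) le_rfl le_rfl]; exact h0
  · rw [hpre (by omega) le_rfl le_rfl]; exact h1
  · rintro s ξ' η' ⟨gs, gj, gη, g0, g1⟩
    by_contra hcon
    have hle : ξ' ≤ ξ := by omega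
    rcases le_or_gt η' η with hc | hc
    · rw [hpre (by omega) (by omega) hc, hpre (by omega) hle hc] at gj
      rw [hpre (by omega) hle hc] at g0 g1
      have := hl s ξ' η' ⟨gs, gj, gη, g0, g1⟩
      omega
    · -- η < η'
      have m1 : D' (s + 1) ξ' η' ≤ D' (s + 1) ξ' η := hD'.mono (by omega) le_rfl hc.le
      rcases Nat.lt_trichotomy s t with hst | hst | hst
      · rcases Nat.lt_or_ge (s + 1) t with hst' | hst'
        · rw [hoth (by omega) (by omega) (by omega), hoth (by omega) (by omega) (by omega)] at gj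
          rw [hoth (by omega) (by omega) (by omega)] at g0 g1
          have := hl s ξ' η' ⟨gs, gj, gη, g0, g1⟩
          omega
        · have : s + 1 = t := by omega
          rw [this] at m1 g1
          rw [hpre (by omega) hle le_rfl] at m1
          have m2 : D t ξ' η ≤ D t ξ η := hD.mono (by omega) hle le_rfl
          omega
      · subst hst
        rw [hpre (by omega) hle le_rfl] at m1
        have m2 : D s ξ' η ≤ D s ξ η := hD.mono (by omega) hle le_rfl
        have m3 := hD'.jump_u (by omega) (by omega) (w' := η) gj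
        rw [hpre (by omega) (by omega) le_rfl, hpre (by omega) hle le_rfl] at m3
        have := hl s ξ' η ⟨gs, m3, by omega, by omega, by omega⟩
        omega
      · rcases Nat.lt_or_ge (t + 1) s with hst' | hst'
        · rw [hoth (by omega) (by omega) (by omega), hoth (by omega) (by omega) (by omega)] at gj
          rw [hoth (by omega) (by omega) (by omega)] at g0 g1
          have := hl s ξ' η' ⟨gs, gj, gη, g0, g1⟩
          omega
        · have : s = t + 1 := by omega
          subst this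
          have hlt : ξ' < ξ := by omega
          rw [hpre (by omega) hle le_rfl] at m1
          have m2 : D (t + 1) ξ' η ≤ D (t + 1) (ξ - 1) η := hD.mono (by omega) (by omega) le_rfl
          have m3 := hD'.jump_u (by omega) (by omega) (w' := η) gj
          rw [hpre (by omega) (by omega) le_rfl, hpre (by omega) hle le_rfl] at m3
          have := hl (t + 1) ξ' η ⟨gs, m3, by omega, by omega, by omega⟩
          omega
  · rintro s η' ξ' ⟨gs1, gs, gj, gξ, g0, g1⟩
    by_contra hcon
    have hη' : η' ≤ η := by omega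
    rcases le_or_gt ξ' ξ with hc | hc
    · rw [hpre (by omega) hc hη', hpre (by omega) hc (by omega)] at gj
      rw [hpre (by omega) hc hη'] at g0 g1
      have := hh s η' ξ' ⟨gs1, gs, gj, gξ, g0, g1⟩
      omega
    · have m1 : D' s ξ η' ≤ D' s ξ' η' := hD'.mono (by omega) hc.le le_rfl
      rcases Nat.lt_trichotomy s t with hst | hst | hst
      · rcases Nat.lt_or_ge (s + 1) t with hst' | hst'
        · rw [hoth (by omega) (by omega) (by omega), hoth (by omega) (by omega) (by omega)] at gj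
          rw [hoth (by omega) (by omega) (by omega)] at g0 g1
          have := hh s η' ξ' ⟨gs1, gs, gj, gξ, g0, g1⟩
          omega
        · have hs' : s + 1 = t := by omega
          rw [hpre (by omega) le_rfl hη'] at m1
          have m2 : D t ξ η ≤ D t ξ η' := hD.mono (by omega) le_rfl hη'
          have m3 := hD'.jump_w gs1 gs (u' := ξ) gj
          rw [hpre (by omega) le_rfl hη', hpre (by omega) le_rfl (by omega)] at m3
          have := hh s η' ξ ⟨gs1, gs, m3, by omega, by omega, by rw [hs']; omega⟩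
          omega
      · subst hst
        rw [hpre (by omega) le_rfl hη'] at m1
        have m2 : D s ξ η ≤ D s ξ η' := hD.mono (by omega) le_rfl hη'
        omega
      · rcases Nat.lt_or_ge (t + 1) s with hst' | hst'
        · rw [hoth (by omega) (by omega) (by omega), hoth (by omega) (by omega) (by omega)] at gj
          rw [hoth (by omega) (by omega) (by omega)] at g0 g1
          have := hh s η' ξ' ⟨gs1, gs, gj, gξ, g0, g1⟩
          omega
        · have : s = t + 1 := by omega
          subst this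
          rw [hpre (by omega) le_rfl hη'] at m1
          have m2 : D (t + 1) ξ η ≤ D (t + 1) ξ η' := hD.mono (by omega) le_rfl hη'
          omega

theorem LeastHigh.preserve (hD : Cfg k m D a b) (hD' : Cfg k m D' a' b') {s : ℕ} {ξ η : ℤ}
    (h : LeastHigh k m D s η ξ) (hA : Agree k a b a' b' s ξ η) : LeastHigh k m D' s η ξ := by
  obtain ⟨f1, f0, -⟩ := h.facts hD
  obtain ⟨⟨hs1, hsk, hj, hξ, h0, h1⟩, hl, hh⟩ := h
  have hpre : ∀ {s : ℕ} {u w : ℤ}, s ≤ k + 1 → u ≤ ξ → w ≤ η → D' s u w = D s u w :=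
    fun hs hu hw => hA.D_prefix hD hD' hs hu hw
  have hoth : ∀ {t : ℕ} {u w : ℤ}, t ≤ k + 1 → t ≠ s → t ≠ s + 1 → D' t u w = D t u w :=
    fun hs h1 h2 => hA.D_other hD hD' hs (Or.inl h1) (Or.inl h2)
  have fj : 0 ≤ D s ξ (η - 1) := by omega
  refine ⟨⟨hs1, hsk, ?_, hξ, ?_, ?_⟩, ?_, ?_⟩
  · rw [hpre (by omega) le_rfl le_rfl, hpre (by omega) le_rfl (by omega)]; exact hj
  · rw [hpre (by omega) le_rfl le_rfl]; exact h0
  · rw [hpre (by omega) le_rfl le_rfl]; exact h1
  · rintro t ξ' η' ⟨gs, gj, gη, g0, g1⟩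
    by_contra hcon
    have hle : ξ' ≤ ξ := by omega
    rcases le_or_gt η' η with hc | hc
    · rw [hpre (by omega) (by omega) hc, hpre (by omega) hle hc] at gj
      rw [hpre (by omega) hle hc] at g0 g1
      have := hl t ξ' η' ⟨gs, gj, gη, g0, g1⟩
      omega
    · have m1 : D' (t + 1) ξ' η' ≤ D' (t + 1) ξ' η := hD'.mono (by omega) le_rfl hc.le
      rcases Nat.lt_trichotomy t s with hst | hst | hst
      · rcases Nat.lt_or_ge (t + 1) s with hst' | hst'
        · rw [hoth (by omega) (by omega) (by omega), hoth (by omega) (by omega) (by omega)] at gj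
          rw [hoth (by omega) (by omega) (by omega)] at g0 g1
          have := hl t ξ' η' ⟨gs, gj, gη, g0, g1⟩
          omega
        · have : t + 1 = s := by omega
          rw [this] at m1 g1
          rw [hpre (by omega) hle le_rfl] at m1
          have m2 : D s ξ' η ≤ D s ξ η := hD.mono (by omega) hle le_rfl
          omega
      · subst hst
        rw [hpre (by omega) hle le_rfl] at m1
        have m2 : D (t + 1) ξ' η ≤ D (t + 1) ξ η := hD.mono (by omega) hle le_rfl
        omega
      · rcases Nat.lt_or_ge (s + 1) t with hst' | hst'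
        · rw [hoth (by omega) (by omega) (by omega), hoth (by omega) (by omega) (by omega)] at gj
          rw [hoth (by omega) (by omega) (by omega)] at g0 g1
          have := hl t ξ' η' ⟨gs, gj, gη, g0, g1⟩
          omega
        · have : t = s + 1 := by omega
          subst this
          rw [hpre (by omega) hle le_rfl] at m1
          have m2 : D (s + 1) ξ' η ≤ D (s + 1) ξ η := hD.mono (by omega) hle le_rfl
          have m3 := hD'.jump_u (by omega) (by omega) (w' := η) gj
          rw [hpre (by omega) (by omega) le_rfl, hpre (by omega) hle le_rfl] at m3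
          have := hl (s + 1) ξ' η ⟨gs, m3, by omega, by omega, by omega⟩
          omega
  · rintro t η' ξ' ⟨gs1, gs, gj, gξ, g0, g1⟩
    by_contra hcon
    have hη' : η' ≤ η := by omega
    rcases le_or_gt ξ' ξ with hc | hc
    · rw [hpre (by omega) hc hη', hpre (by omega) hc (by omega)] at gj
      rw [hpre (by omega) hc hη'] at g0 g1
      have := hh t η' ξ' ⟨gs1, gs, gj, gξ, g0, g1⟩
      omega
    · have m1 : D' t ξ η' ≤ D' t ξ' η' := hD'.mono (by omega) hc.le le_rfl
      rcases Nat.lt_trichotomy t s with hst | hst | hst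
      · rcases Nat.lt_or_ge (t + 1) s with hst' | hst'
        · rw [hoth (by omega) (by omega) (by omega), hoth (by omega) (by omega) (by omega)] at gj
          rw [hoth (by omega) (by omega) (by omega)] at g0 g1
          have := hh t η' ξ' ⟨gs1, gs, gj, gξ, g0, g1⟩
          omega
        · have hs' : t + 1 = s := by omega
          rw [hpre (by omega) le_rfl hη'] at m1
          have hlt : η' < η := by omega
          have m2 : D s ξ (η - 1) ≤ D s ξ η' := hD.mono (by omega) le_rfl (by omega)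
          have m3 := hD'.jump_w gs1 gs (u' := ξ) gj
          rw [hpre (by omega) le_rfl hη', hpre (by omega) le_rfl (by omega)] at m3
          have := hh t η' ξ ⟨gs1, gs, m3, by omega, by omega, by rw [hs']; omega⟩
          omega
      · subst hst
        have hlt : η' < η := by omega
        rw [hpre (by omega) le_rfl hη'] at m1
        have m2 : D (t + 1) ξ η ≤ D (t + 1) ξ η' := hD.mono (by omega) le_rfl hη'
        have m3 := hD'.jump_w gs1 gs (u' := ξ) gj
        rw [hpre (by omega) le_rfl hη', hpre (by omega) le_rfl (by omega)] at m3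
        have := hh t η' ξ ⟨gs1, gs, m3, by omega, by omega, by omega⟩
        omega
      · rcases Nat.lt_or_ge (s + 1) t with hst' | hst'
        · rw [hoth (by omega) (by omega) (by omega), hoth (by omega) (by omega) (by omega)] at gj
          rw [hoth (by omega) (by omega) (by omega)] at g0 g1
          have := hh t η' ξ' ⟨gs1, gs, gj, gξ, g0, g1⟩
          omega
        · have : t = s + 1 := by omega
          subst this
          rw [hpre (by omega) le_rfl hη'] at m1
          have m2 : D (s + 1) ξ η ≤ D (s + 1) ξ η' := hD.mono (by omega) le_rfl hη'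
          omega

lemma LeastLow.unique {t t' : ℕ} {ξ η ξ' η' : ℤ} (h : LeastLow k m D t ξ η)
    (h' : LeastLow k m D t' ξ' η') : t = t' ∧ ξ = ξ' ∧ η = η' := by
  have h1 := h.2.1 _ _ _ h'.1
  have h2 := h'.2.1 _ _ _ h.1
  omega

lemma LeastHigh.unique {s s' : ℕ} {ξ η ξ' η' : ℤ} (h : LeastHigh k m D s η ξ)
    (h' : LeastHigh k m D s' η' ξ') : s = s' ∧ η = η' ∧ ξ = ξ' := by
  have h1 := h.2.2 _ _ _ h'.1
  have h2 := h'.2.2 _ _ _ h.1
  omega

lemma LeastLow.not_high {t s : ℕ} {ξ η ξ' η' : ℤ} (h : LeastLow k m D t ξ η)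
    (h' : LeastHigh k m D s η' ξ') : False := by
  have h1 := h.2.2 _ _ _ h'.1
  have h2 := h'.2.1 _ _ _ h.1
  omega

/-- existence of the least bad point -/
theorem exists_least (L : ℤ)
    (hlow : ∀ t ξ η, Low k m D t ξ η → L ≤ ξ)
    (hhigh : ∀ s η ξ, High k m D s η ξ → L ≤ η)
    (hbad : (∃ t ξ η, Low k m D t ξ η) ∨ (∃ s η ξ, High k m D s η ξ)) :
    (∃ t ξ η, LeastLow k m D t ξ η) ∨ (∃ s η ξ, LeastHigh k m D s η ξ) := by
  classical
  -- least first key
  set P : ℤ → Prop := fun A => (∃ t ξ η, Low k m D t ξ η ∧ A = 2 * ξ) ∨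
    (∃ s η ξ, High k m D s η ξ ∧ A = 2 * (η + m) + 1) with hP
  have hPb : ∃ b, ∀ z, P z → b ≤ z := by
    refine ⟨2 * L - 1, ?_⟩
    rintro z (⟨t, ξ, η, h, rfl⟩ | ⟨s, η, ξ, h, rfl⟩)
    · have := hlow _ _ _ h; omega
    · have := hhigh _ _ _ h; omega
  have hPne : ∃ z, P z := by
    rcases hbad with ⟨t, ξ, η, h⟩ | ⟨s, η, ξ, h⟩
    · exact ⟨_, Or.inl ⟨t, ξ, η, h, rfl⟩⟩
    · exact ⟨_, Or.inr ⟨s, η, ξ, h, rfl⟩⟩
  obtain ⟨A, hA, hAmin⟩ := Int.exists_least_of_bdd hPb hPne
  rcases hA with ⟨t0, ξ, η0, h0, hA⟩ | ⟨s0, η, ξ0, h0, hA⟩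
  · -- low type
    left
    have ht : ∃ t, ∃ η, Low k m D t ξ η := ⟨t0, η0, h0⟩
    set t := Nat.find ht with htdef
    have ht1 : ∃ η, Low k m D t ξ η := Nat.find_spec ht
    have ht2 : ∀ t', t' < t → ¬ ∃ η, Low k m D t' ξ η := fun t' h => Nat.find_min ht h
    obtain ⟨η, hη1, hη2⟩ := Int.exists_least_of_bdd (P := fun η => Low k m D t ξ η)
      ⟨ξ - m - 1, fun z hz => hz.2.2.1⟩ ht1
    refine ⟨t, ξ, η, hη1, ?_, ?_⟩
    · intro t' ξ' η' h'
      have h1 := hAmin _ (Or.inl ⟨t', ξ', η', h', rfl⟩)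
      rcases eq_or_lt_of_le (show ξ ≤ ξ' by omega) with h2 | h2
      · subst h2
        rcases Nat.lt_trichotomy t t' with h3 | h3 | h3
        · omega
        · subst h3
          have := hη2 _ h'
          omega
        · exact absurd ⟨η', h'⟩ (ht2 t' h3)
      · omega
    · intro s η' ξ' h'
      have h1 := hAmin _ (Or.inr ⟨s, η', ξ', h', rfl⟩)
      omega
  · right
    -- greatest s
    have hs : ∃ j, ∃ s, s + j = k ∧ ∃ ξ, High k m D s η ξ :=
      ⟨k - s0, s0, by have := h0.2.1; omega, ξ0, h0⟩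
    set j := Nat.find hs with hjdef
    obtain ⟨s, hsj, hs1⟩ := Nat.find_spec hs
    have hs2 : ∀ j', j' < j → ¬ ∃ s, s + j' = k ∧ ∃ ξ, High k m D s η ξ :=
      fun j' h => Nat.find_min hs h
    rw [← hjdef] at hsj
    obtain ⟨ξ, hξ1, hξ2⟩ := Int.exists_least_of_bdd (P := fun ξ => High k m D s η ξ)
      ⟨η + m, fun z hz => hz.2.2.2.1⟩ hs1
    refine ⟨s, η, ξ, hξ1, ?_, ?_⟩
    · intro t' ξ' η' h'
      have h1 := hAmin _ (Or.inl ⟨t', ξ', η', h', rfl⟩)
      omega
    · intro s' η' ξ' h'
      have h1 := hAmin _ (Or.inr ⟨s', η', ξ', h', rfl⟩)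
      rcases eq_or_lt_of_le (show η ≤ η' by omega) with h2 | h2
      · subst h2
        rcases Nat.lt_trichotomy s' s with h3 | h3 | h3
        · omega
        · subst h3
          have := hξ2 _ h'
          omega
        · exfalso
          have hk' := h'.2.1
          exact hs2 (k - s') (by omega) ⟨s', by omega, ξ', h'⟩
      · omega

end

end Pool.Agent.CMPP
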