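import Mathlib
import Pool.Agent.Lib_helper28.CMPP.Inv2

set_option autoImplicit false

open Finset

namespace Pool.Agent.CMPP

lemma cy_eq (c : ℤ) (Y : Finset ℤ) (w : ℤ) : cy c Y w = cx (-c - 1) Y w := rfl

lemma cx_of_ge {c : ℤ} (X : Finset ℤ) {u : ℤ} (hu : c ≤ u) :
    cx c X u = ((X.filter (fun x => x ≤ u)).card : ℤ) := by
  unfold cx
  rw [max_eq_right (by omega)]
  ring

lemma cx_of_le {c : ℤ} {X : Finset ℤ} (hX : ∀ x ∈ X, c < x) {u : ℤ} (hu : u ≤ c) :
    cx c X u = u - c := by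
  unfold cx
  rw [max_eq_left (by omega), filter_false_of_mem (fun x hx => by have := hX x hx; omega)]
  simp

lemma cx_nonneg_of_ge {c : ℤ} (X : Finset ℤ) {u : ℤ} (hu : c ≤ u) : 0 ≤ cx c X u := by
  rw [cx_of_ge X hu]; positivity

lemma card_filter_step (X : Finset ℤ) (u : ℤ) :
    (X.filter (fun x => x ≤ u)).card = (X.filter (fun x => x ≤ u - 1)).card + (if u ∈ X then 1 else 0) := by
  have : X.filter (fun x => x ≤ u) = X.filter (fun x => x ≤ u - 1) ∪ X.filter (fun x => x = u) := by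
    ext x
    simp only [mem_filter, mem_union]
    constructor
    · rintro ⟨h1, h2⟩
      rcases eq_or_lt_of_le h2 with h3 | h3
      · exact Or.inr ⟨h1, h3⟩
      · exact Or.inl ⟨h1, by omega⟩
    · rintro (⟨h1, h2⟩ | ⟨h1, h2⟩)
      · exact ⟨h1, by omega⟩
      · exact ⟨h1, by omega⟩
  rw [this, card_union_of_disjoint]
  · congr 1
    split_ifs with h
    · have : X.filter (fun x => x = u) = {u} := by
        ext x; simp only [mem_filter, mem_singleton]
        constructor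
        · rintro ⟨_, h⟩; exact h
        · rintro rfl; exact ⟨h, rfl⟩
      rw [this]; simp
    · rw [card_eq_zero, filter_eq_empty_iff]
      rintro x hx rfl
      exact h hx
  · rw [disjoint_filter]
    intro x _ h1 h2
    omega

lemma cx_step {c : ℤ} {X : Finset ℤ} (hX : ∀ x ∈ X, c < x) (u : ℤ) :
    cx c X u = cx c X (u - 1) + (if u ≤ c ∨ u ∈ X then 1 else 0) := by
  rcases le_or_gt u c with h | h
  · rw [cx_of_le hX h, cx_of_le hX (by omega), if_pos (Or.inl h)]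
    ring
  · rw [cx_of_ge X h.le, cx_of_ge X (by omega), card_filter_step]
    by_cases hu : u ∈ X
    · simp [hu]
    · have : ¬ (u ≤ c ∨ u ∈ X) := by
        rintro (h1 | h1)
        · omega
        · exact hu h1
      rw [if_neg this, if_neg hu]; push_cast; ring

lemma cx_jump {c : ℤ} {X : Finset ℤ} (hX : ∀ x ∈ X, c < x) {u : ℤ} :
    cx c X (u - 1) < cx c X u ↔ (u ≤ c ∨ u ∈ X) := by
  rw [cx_step hX u]
  split_ifs with h
  · simp [h]
  · simp [h]

lemma cx_step' {c : ℤ} {X : Finset ℤ} (hX : ∀ x ∈ X, c < x) (u : ℤ) :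
    cx c X (u - 1) ≤ cx c X u ∧ cx c X u ≤ cx c X (u - 1) + 1 := by
  rw [cx_step hX u]
  split_ifs <;> omega

lemma cx_bot {c : ℤ} {X : Finset ℤ} (hX : ∀ x ∈ X, c < x) (N : ℤ) :
    ∃ u0, ∀ u, u ≤ u0 → cx c X u ≤ N := by
  refine ⟨min c (N + c), fun u hu => ?_⟩
  rw [cx_of_le hX (by omega)]
  omega

lemma cx_top (c : ℤ) (X : Finset ℤ) : ∃ u0, ∀ u, u0 ≤ u → cx c X u = X.card := by
  obtain ⟨M, hM⟩ := X.exists_le
  refine ⟨max c M, fun u hu => ?_⟩
  rw [cx_of_ge X (by omega), filter_true_of_mem (fun x hx => by have := hM x hx; omega)]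

section obj

variable {k : ℕ}

/-- first height function of an object -/
def aa (c : Fin k → ℤ) (o : Obj k) (s : ℕ) (u : ℤ) : ℤ :=
  if h : 1 ≤ s ∧ s ≤ k then cx (c ⟨s - 1, by omega⟩) (o ⟨s - 1, by omega⟩).1 u else 0

def bb (c : Fin k → ℤ) (o : Obj k) (s : ℕ) (w : ℤ) : ℤ :=
  if h : 1 ≤ s ∧ s ≤ k then cy (c ⟨s - 1, by omega⟩) (o ⟨s - 1, by omega⟩).2 w else 0

lemma aa_succ (c : Fin k → ℤ) (o : Obj k) (i : Fin k) (u : ℤ) :
    aa c o (i.val + 1) u = cx (c i) (o i).1 u := by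
  unfold aa
  rw [dif_pos ⟨by omega, by have := i.2; omega⟩]
  rfl

lemma bb_succ (c : Fin k → ℤ) (o : Obj k) (i : Fin k) (u : ℤ) :
    bb c o (i.val + 1) u = cy (c i) (o i).2 u := by
  unfold bb
  rw [dif_pos ⟨by omega, by have := i.2; omega⟩]
  rfl

lemma exists_index {s : ℕ} (h1 : 1 ≤ s) (h2 : s ≤ k) : ∃ i : Fin k, s = i.val + 1 :=
  ⟨⟨s - 1, by omega⟩, by simp only; omega⟩

lemma DD_succ (m : ℕ) (c : Fin k → ℤ) (o : Obj k) (i : Fin k) (u w : ℤ) :
    DD m c o (i.val + 1) u w = cx (c i) (o i).1 u - cy (c i) (o i).2 w := by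
  unfold DD
  rw [if_neg (by omega), dif_pos (show i.val + 1 - 1 < k by have := i.2; omega)]
  rfl

lemma cfg_obj (m : ℕ) (c : Fin k → ℤ) (o : Obj k) (ho : Valid c o) :
    Cfg k m (DD m c o) (aa c o) (bb c o) := by
  have hX : ∀ i : Fin k, ∀ x ∈ (o i).1, c i < x := fun i => (ho i).1
  have hY : ∀ i : Fin k, ∀ y ∈ (o i).2, -c i - 1 < y := fun i y hy => by
    have := (ho i).2 y hy; omega
  refine ⟨?_, ?_, ?_, ?_, ?_, ?_, ?_⟩
  · intro s u w h1 h2
    obtain ⟨i, rfl⟩ := exists_index h1 h2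
    rw [DD_succ, aa_succ, bb_succ]
  · intro u w; simp [DD]
  · intro u w
    unfold DD
    rw [if_neg (by omega), dif_neg (by omega)]
  · intro s u h1 h2
    obtain ⟨i, rfl⟩ := exists_index h1 h2
    rw [aa_succ, aa_succ]
    exact cx_step' (hX i) u
  · intro s u h1 h2
    obtain ⟨i, rfl⟩ := exists_index h1 h2
    rw [bb_succ, bb_succ]
    exact cx_step' (hY i) u
  · intro s N h1 h2
    obtain ⟨i, rfl⟩ := exists_index h1 h2
    simp only [aa_succ]
    exact cx_bot (hX i) N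
  · intro s N h1 h2
    obtain ⟨i, rfl⟩ := exists_index h1 h2
    simp only [bb_succ]
    exact cx_bot (hY i) N

end obj

end Pool.Agent.CMPP
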