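import Mathlib
import Pool.Agent.Lib_helper28.CMPP.Defs

set_option autoImplicit false

open Finset

namespace Pool.Agent.CMPP

/-- cell values including the boundary ones; the cell `(x, c)` has part size `2x - c` -/
def fh (kf : ℕ → ℕ) (f : ℕ → ℕ → ℕ) (x : ℤ) (c : ℕ) : ℕ :=
  if 1 ≤ 2 * x - c then f c (2 * x - c).toNat else if Odd c then kf ((c - 1) / 2) else 0

/-- last passage times -/
def GG (kf : ℕ → ℕ) (f : ℕ → ℕ → ℕ) : ℕ → ℤ → ℕ
  | 0, _ => 0
  | c + 1, x => fh kf f x (c + 1) + max (GG kf f c (x - 1)) (GG kf f c x)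

variable {kf : ℕ → ℕ} {f : ℕ → ℕ → ℕ}

lemma GG_zero (x : ℤ) : GG kf f 0 x = 0 := rfl

lemma GG_succ (c : ℕ) (x : ℤ) :
    GG kf f (c + 1) x = fh kf f x (c + 1) + max (GG kf f c (x - 1)) (GG kf f c x) := rfl

lemma GG_mono1 (c : ℕ) (x : ℤ) : GG kf f c x ≤ GG kf f (c + 1) x := by
  rw [GG_succ]
  have := le_max_right (GG kf f c (x - 1)) (GG kf f c x)
  omega

lemma GG_mono2 (c : ℕ) (x : ℤ) : GG kf f c (x - 1) ≤ GG kf f (c + 1) x := by
  rw [GG_succ]
  have := le_max_left (GG kf f c (x - 1)) (GG kf f c x)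
  omega

lemma GG_mono (x : ℤ) {c c' : ℕ} (h : c ≤ c') : GG kf f c x ≤ GG kf f c' x :=
  monotone_nat_of_le_succ (f := fun c => GG kf f c x) (fun c => GG_mono1 c x) h

/-- value of a path at colour `c` in the frozen statement -/
def pv (kf : ℕ → ℕ) (f : ℕ → ℕ → ℕ) (p : ℕ → ℤ) (c : ℕ) : ℕ :=
  if p c = -1 then (if Odd c then kf ((c - 1) / 2) else 0) else f c (p c).toNat

lemma pv_eq_fh (h0 : ∀ c, Even c → f c 0 = 0) {p : ℕ → ℤ} {c : ℕ} (h1 : -1 ≤ p c)
    (h2 : Even (p c + (c : ℤ))) {x : ℤ} (hx : 2 * x = p c + c) : pv kf f p c = fh kf f x c := by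
  unfold pv fh
  have e : 2 * x - c = p c := by omega
  rw [e]
  by_cases h3 : p c = -1
  · have h4 : ¬ (1 ≤ p c) := by omega
    rw [if_pos h3, if_neg h4]
  · rw [if_neg h3]
    by_cases h4 : 1 ≤ p c
    · rw [if_pos h4]
    · have h5 : p c = 0 := by omega
      rw [if_neg h4, h5]
      rw [h5, zero_add] at h2
      have h6 : Even c := by exact_mod_cast h2
      rw [if_neg (Nat.not_odd_iff_even.mpr h6)]
      exact h0 c h6

lemma path_le (h0 : ∀ c, Even c → f c 0 = 0) {m : ℕ} {p : ℕ → ℤ}
    (h1 : ∀ c ∈ Icc 1 (m + 1), -1 ≤ p c ∧ Even (p c + (c : ℤ)))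
    (h2 : ∀ c ∈ Icc 1 m, |p c - p (c + 1)| = 1) :
    ∀ c, 1 ≤ c → c ≤ m + 1 → ∀ x : ℤ, 2 * x = p c + c →
      ∑ c' ∈ Icc 1 c, pv kf f p c' ≤ GG kf f c x := by
  intro c hc1
  induction c, hc1 using Nat.le_induction with
  | base =>
    intro hc x hx
    have h3 := h1 1 (by simp)
    rw [Icc_self, sum_singleton, pv_eq_fh h0 h3.1 h3.2 hx, GG_succ, GG_zero, GG_zero]
    simp
  | succ c hc1 ih =>
    intro hc x hx
    have h3 := h1 (c + 1) (mem_Icc.mpr ⟨by omega, hc⟩)
    have h5 := h2 c (mem_Icc.mpr ⟨hc1, by omega⟩)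
    rw [Finset.sum_Icc_succ_top (by omega), pv_eq_fh h0 h3.1 h3.2 hx, GG_succ]
    rcases abs_eq (by norm_num : (0 : ℤ) ≤ 1) |>.mp h5 with h6 | h6
    · have h7 := ih (by omega) x (by push_cast at hx; omega)
      have := le_max_right (GG kf f c (x - 1)) (GG kf f c x)
      omega
    · have h7 := ih (by omega) (x - 1) (by push_cast at hx; omega)
      have := le_max_left (GG kf f c (x - 1)) (GG kf f c x)
      omega

lemma exists_path (x : ℤ) (c : ℕ) :
    ∃ p : ℕ → ℤ, (∀ c' ∈ Icc 1 (c + 1), Even (p c' + (c' : ℤ))) ∧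
      (∀ c' ∈ Icc 1 c, |p c' - p (c' + 1)| = 1) ∧ p (c + 1) = 2 * x - (c + 1 : ℕ) ∧
      GG kf f (c + 1) x = ∑ c' ∈ Icc 1 (c + 1), fh kf f ((p c' + c') / 2) c' := by
  induction c generalizing x with
  | zero =>
    refine ⟨fun _ => 2 * x - 1, ?_, ?_, ?_, ?_⟩
    · intro c' hc'
      simp only [zero_add, Icc_self, mem_singleton] at hc'
      subst hc'
      exact ⟨x, by push_cast; ring⟩
    · intro c' hc'
      simp at hc'
    · simp
    · simp only [zero_add, Icc_self, sum_singleton]
      rw [GG_succ, GG_zero, GG_zero]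
      have : (2 * x - 1 + ((1 : ℕ) : ℤ)) / 2 = x := by push_cast; omega
      rw [this]
      simp
  | succ c ih =>
    rcases le_total (GG kf f (c + 1) (x - 1)) (GG kf f (c + 1) x) with hle | hle
    · obtain ⟨p, g1, g2, g3, g4⟩ := ih x
      refine ⟨Function.update p (c + 2) (2 * x - (c + 2 : ℕ)), ?_, ?_, ?_, ?_⟩
      · intro c' hc'
        rw [mem_Icc] at hc'
        by_cases h : c' = c + 2
        · subst h
          rw [Function.update_self]
          exact ⟨x, by push_cast; ring⟩
        · rw [Function.update_of_ne h]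
          exact g1 c' (mem_Icc.mpr (by omega))
      · intro c' hc'
        rw [mem_Icc] at hc'
        by_cases h : c' = c + 1
        · subst h
          rw [Function.update_of_ne (by omega), Function.update_self, g3]
          push_cast
          rw [abs_eq (by norm_num)]; omega
        · rw [Function.update_of_ne (by omega), Function.update_of_ne (by omega)]
          exact g2 c' (mem_Icc.mpr (by omega))
      · rw [Function.update_self]
      · rw [Finset.sum_Icc_succ_top (by omega), Function.update_self, GG_succ, max_eq_right hle, g4]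
        have e1 : (2 * x - (c + 2 : ℕ) + ((c + 1 + 1 : ℕ) : ℤ)) / 2 = x := by push_cast; omega
        rw [e1, add_comm]
        congr 1
        refine sum_congr rfl fun c' hc' => ?_
        rw [mem_Icc] at hc'
        rw [Function.update_of_ne (by omega)]
    · obtain ⟨p, g1, g2, g3, g4⟩ := ih (x - 1)
      refine ⟨Function.update p (c + 2) (2 * x - (c + 2 : ℕ)), ?_, ?_, ?_, ?_⟩
      · intro c' hc'
        rw [mem_Icc] at hc'
        by_cases h : c' = c + 2
        · subst h
          rw [Function.update_self]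
          exact ⟨x, by push_cast; ring⟩
        · rw [Function.update_of_ne h]
          exact g1 c' (mem_Icc.mpr (by omega))
      · intro c' hc'
        rw [mem_Icc] at hc'
        by_cases h : c' = c + 1
        · subst h
          rw [Function.update_of_ne (by omega), Function.update_self, g3]
          push_cast
          rw [abs_eq (by norm_num)]; omega
        · rw [Function.update_of_ne (by omega), Function.update_of_ne (by omega)]
          exact g2 c' (mem_Icc.mpr (by omega))
      · rw [Function.update_self]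
      · rw [Finset.sum_Icc_succ_top (by omega), Function.update_self, GG_succ, max_eq_left hle, g4]
        have e1 : (2 * x - (c + 2 : ℕ) + ((c + 1 + 1 : ℕ) : ℤ)) / 2 = x := by push_cast; omega
        rw [e1, add_comm]
        congr 1
        refine sum_congr rfl fun c' hc' => ?_
        rw [mem_Icc] at hc'
        rw [Function.update_of_ne (by omega)]

/-- (B1) the path conditions are equivalent to a bound on last passage times -/
theorem paths_iff (h0 : ∀ c, Even c → f c 0 = 0) (n K : ℕ) :
    (∀ p : ℕ → ℤ,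
      (∀ c ∈ Finset.Icc 1 (2 * n + 1), -1 ≤ p c ∧ Even (p c + (c : ℤ))) →
      (∀ c ∈ Finset.Icc 1 (2 * n), |p c - p (c + 1)| = 1) →
      (∑ c ∈ Finset.Icc 1 (2 * n + 1),
        (if p c = -1 then (if Odd c then kf ((c - 1) / 2) else 0)
          else f c (p c).toNat)) ≤ K) ↔ ∀ x : ℤ, GG kf f (2 * n + 1) x ≤ K := by
  constructor
  · intro h x
    obtain ⟨p, g1, g2, g3, g4⟩ := exists_path (kf := kf) (f := f) x (2 * n)
    set p' : ℕ → ℤ := fun c => max (p c) (if Odd c then -1 else 0) with hp'
    have key : ∀ c ∈ Icc 1 (2 * n + 1), -1 ≤ p' c ∧ Even (p' c + (c : ℤ)) := by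
      intro c hc
      have h1 := g1 c hc
      simp only [hp']
      rcases Nat.even_or_odd c with h2 | h2
      · rw [if_neg (Nat.not_odd_iff_even.mpr h2)]
        refine ⟨by omega, ?_⟩
        rw [Int.even_iff] at h1 ⊢
        rw [Nat.even_iff] at h2
        omega
      · rw [if_pos h2]
        refine ⟨by omega, ?_⟩
        rw [Int.even_iff] at h1 ⊢
        rw [Nat.odd_iff] at h2
        omega
    have h3 := h p' key ?_
    · rw [g4]
      refine le_trans (le_of_eq ?_) h3
      refine sum_congr rfl fun c hc => ?_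
      have h1 := g1 c hc
      have hk := key c hc
      have e := pv_eq_fh (kf := kf) h0 hk.1 hk.2 (x := (p' c + c) / 2) (by
        have := Int.two_mul_ediv_two_of_even hk.2
        exact this)
      unfold pv at e
      rw [e]
      unfold fh
      have h5 : 2 * ((p c + c) / 2) - c = p c := by
        have := Int.two_mul_ediv_two_of_even h1
        omega
      have h6 : 2 * ((p' c + c) / 2) - c = p' c := by
        have := Int.two_mul_ediv_two_of_even hk.2
        omega
      rw [h5, h6]
      by_cases h7 : 1 ≤ p c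
      · have h8 : p' c = p c := by
          simp only [hp']
          split_ifs <;> omega
        rw [h8]
      · have h8 : ¬ (1 ≤ p' c) := by
          simp only [hp']
          split_ifs <;> omega
        rw [if_neg h7, if_neg h8]
    · intro c hc
      have h1 := g1 c (mem_Icc.mpr (by rw [mem_Icc] at hc; omega))
      have h2 := g1 (c + 1) (mem_Icc.mpr (by rw [mem_Icc] at hc; omega))
      have h3 := g2 c hc
      simp only [hp']
      rw [abs_eq (by norm_num)] at h3 ⊢
      rw [Int.even_iff] at h1 h2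
      rcases Nat.even_or_odd c with h4 | h4
      · rw [if_neg (Nat.not_odd_iff_even.mpr h4), if_pos h4.add_one]
        rw [Nat.even_iff] at h4
        push_cast at h2
        omega
      · rw [if_pos h4, if_neg (Nat.not_odd_iff_even.mpr h4.add_one)]
        rw [Nat.odd_iff] at h4
        push_cast at h2
        omega
  · intro h p h1 h2
    have hk := h1 (2 * n + 1) (mem_Icc.mpr (by omega))
    have h3 := path_le (kf := kf) h0 h1 h2 (2 * n + 1) (by omega) le_rfl
      ((p (2 * n + 1) + ((2 * n + 1 : ℕ) : ℤ)) / 2) (Int.two_mul_ediv_two_of_even hk.2)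
    unfold pv at h3
    exact le_trans h3 (h _)

end Pool.Agent.CMPP
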