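import Mathlib
import Pool.Agent.Lib_helper28.CMPP.Cnt
import Pool.Agent.Lib_helper28.CMPP.LPP

set_option autoImplicit false

open Finset

namespace Pool.Agent.CMPP

section inv

variable {kf : ℕ → ℕ} {f : ℕ → ℕ → ℕ} {n N : ℕ}

/-- least colour with passage time at least `t` (or `m+1`) -/
def cst (kf : ℕ → ℕ) (f : ℕ → ℕ → ℕ) (m t : ℕ) (x : ℤ) : ℕ :=
  Nat.find (⟨m + 1, Or.inl rfl⟩ : ∃ c, c = m + 1 ∨ t ≤ GG kf f c x)

lemma cst_le (m t : ℕ) (x : ℤ) : cst kf f m t x ≤ m + 1 := Nat.find_min' _ (Or.inl rfl)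

lemma cst_pos {m t : ℕ} (ht : 1 ≤ t) (x : ℤ) : 1 ≤ cst kf f m t x := by
  by_contra h
  have h0 : cst kf f m t x = 0 := by omega
  have := Nat.find_spec (⟨m + 1, Or.inl rfl⟩ : ∃ c, c = m + 1 ∨ t ≤ GG kf f c x)
  change cst kf f m t x = m + 1 ∨ t ≤ GG kf f (cst kf f m t x) x at this
  rw [h0, GG_zero] at this
  omega

lemma cst_iff {m t : ℕ} {c : ℕ} (hc : c ≤ m) (x : ℤ) : cst kf f m t x ≤ c ↔ t ≤ GG kf f c x := by
  constructor
  · intro h
    have := Nat.find_spec (⟨m + 1, Or.inl rfl⟩ : ∃ c, c = m + 1 ∨ t ≤ GG kf f c x)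
    change cst kf f m t x = m + 1 ∨ t ≤ GG kf f (cst kf f m t x) x at this
    rcases this with h1 | h1
    · omega
    · exact le_trans h1 (GG_mono x h)
  · intro h
    exact Nat.find_min' _ (Or.inr h)

lemma cst_step {m t : ℕ} (x : ℤ) : cst kf f m t x ≤ cst kf f m t (x - 1) + 1 := by
  rcases Nat.lt_or_ge (cst kf f m t (x - 1)) m with h | h
  · rw [cst_iff (by omega)]
    have h1 := (cst_iff (kf := kf) (f := f) (m := m) (t := t) (c := cst kf f m t (x - 1)) (by omega) (x - 1)).mp le_rfl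
    exact le_trans h1 (GG_mono2 _ _)
  · have := cst_le (kf := kf) (f := f) m t x
    omega

/-- the step function `x - c*(x)` -/
def wst (kf : ℕ → ℕ) (f : ℕ → ℕ → ℕ) (m t : ℕ) (x : ℤ) : ℤ := x - cst kf f m t x

lemma wst_mono {m t : ℕ} {x y : ℤ} (h : x ≤ y) : wst kf f m t x ≤ wst kf f m t y := by
  refine mono_of_step (f := wst kf f m t) (fun u => ?_) h
  have := cst_step (kf := kf) (f := f) (m := m) (t := t) u
  unfold wst
  omega

end inv

section ground

variable {kf : ℕ → ℕ} {f : ℕ → ℕ → ℕ} {n N : ℕ}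

lemma KKf_mono (kf : ℕ → ℕ) {a b : ℕ} (h : a ≤ b) : KK kf a ≤ KK kf b := by
  unfold KK
  exact sum_le_sum_of_subset (fun x hx => by rw [mem_range] at hx ⊢; omega)

/-- characterisation of the boundary colours -/
lemma cf_spec (n : ℕ) (kf : ℕ → ℕ) (i : ℕ) (hi : i < KK kf n) :
    cf n kf i ≤ n ∧ i < KK kf (cf n kf i) ∧ (∑ t ∈ range (cf n kf i), kf t ≤ i) := by
  classical
  -- the set is an initial segment
  have h1 : ∃ j, i < KK kf j := ⟨n, hi⟩
  set j := Nat.find h1 with hj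
  have hj1 : i < KK kf j := Nat.find_spec h1
  have hj2 : ∀ l, l < j → KK kf l ≤ i := fun l hl => by
    have := Nat.find_min h1 hl
    omega
  have hjn : j ≤ n := Nat.find_min' h1 hi
  have hset : (range n).filter (fun l => KK kf l ≤ i) = range j := by
    ext l
    simp only [mem_filter, mem_range]
    constructor
    · rintro ⟨_, h3⟩
      by_contra h4
      have := KKf_mono kf (show j ≤ l by omega)
      omega
    · intro h3
      exact ⟨by omega, hj2 l h3⟩
  have hcf : cf n kf i = j := by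
    unfold cf
    rw [hset, card_range]
  rw [hcf]
  refine ⟨hjn, hj1, ?_⟩
  rcases Nat.eq_zero_or_pos j with h0 | h0
  · rw [h0]; simp
  · have := hj2 (j - 1) (by omega)
    unfold KK at this
    rwa [show j - 1 + 1 = j by omega] at this

lemma GG_ground (j : ℕ) (x : ℤ) (hx : x ≤ j) : KK kf j ≤ GG kf f (2 * j + 1) x := by
  induction j generalizing x with
  | zero =>
    have e : fh kf f x (0 + 1) = kf 0 := by
      unfold fh
      rw [if_neg (by push_cast at *; omega), if_pos (by decide)]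
    rw [show 2 * 0 + 1 = 0 + 1 by ring, GG_succ, e, GG_zero, GG_zero]
    simp [KK]
  | succ j ih =>
    have h1 := ih (x - 1) (by push_cast at hx; omega)
    have h2 := GG_mono1 (kf := kf) (f := f) (2 * j + 1) (x - 1)
    have e : fh kf f x (2 * (j + 1) + 1) = kf (j + 1) := by
      unfold fh
      rw [if_neg (by push_cast at *; omega), if_pos ⟨j + 1, rfl⟩]
      congr 1
      omega
    rw [GG_succ, e]
    have h3 := le_max_left (GG kf f (2 * (j + 1)) (x - 1)) (GG kf f (2 * (j + 1)) x)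
    have h4 : KK kf (j + 1) = KK kf j + kf (j + 1) := by
      unfold KK
      rw [sum_range_succ]
    rw [show 2 * (j + 1) = 2 * j + 1 + 1 by ring] at h3 ⊢
    omega

lemma GG_line (x : ℤ) (c m : ℕ) (h : c ≤ m) :
    GG kf f c x + ∑ c' ∈ Ioc c m, fh kf f x c' ≤ GG kf f m x := by
  induction m, h using Nat.le_induction with
  | base => simp
  | succ m hm ih =>
    rw [Finset.sum_Ioc_succ_top hm, GG_succ]
    have := le_max_right (GG kf f m (x - 1)) (GG kf f m x)
    omega

lemma GG_bound (n j : ℕ) (hj : j ≤ n) (hK : ∀ x : ℤ, GG kf f (2 * n + 1) x ≤ KK kf n)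
    {x : ℤ} (hx : x ≤ j) {c : ℕ} (hc : c ≤ 2 * j) : GG kf f c x ≤ ∑ t ∈ range j, kf t := by
  have h1 := GG_line (kf := kf) (f := f) x c (2 * n + 1) (by omega)
  have h2 : ∑ t ∈ Ico j (n + 1), kf t ≤ ∑ c' ∈ Ioc c (2 * n + 1), fh kf f x c' := by
    have e : ∑ t ∈ Ico j (n + 1), kf t = ∑ c' ∈ (Ico j (n + 1)).image (fun t => 2 * t + 1), fh kf f x c' := by
      rw [sum_image (fun a _ b _ h => by simpa using h)]
      refine sum_congr rfl fun t ht => ?_
      rw [mem_Ico] at ht
      unfold fh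
      rw [if_neg (by push_cast; omega), if_pos ⟨t, rfl⟩]
      congr 1
      omega
    rw [e]
    refine sum_le_sum_of_subset ?_
    intro c' hc'
    rw [mem_image] at hc'
    obtain ⟨t, ht, rfl⟩ := hc'
    rw [mem_Ico] at ht
    rw [mem_Ioc]
    omega
  have h3 := hK x
  have h4 : KK kf n = ∑ t ∈ range j, kf t + ∑ t ∈ Ico j (n + 1), kf t := by
    unfold KK
    rw [← sum_range_add_sum_Ico _ (show j ≤ n + 1 by omega)]
  omega

end ground

end Pool.Agent.CMPP
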