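import Mathlib
import Pool.Agent.Lib_helper28.CMPP.Cnt

set_option autoImplicit false

open Finset

namespace Pool.Agent.CMPP

/-- head of `P` (up to `(ξ, η)`) with the tail of `Q` -/
def glue (ξ η : ℤ) (P Q : Arr) : Arr :=
  (P.1.filter (fun x => x ≤ ξ) ∪ Q.1.filter (fun x => ξ < x),
   P.2.filter (fun x => x ≤ η) ∪ Q.2.filter (fun x => η < x))

/-- reflection of the tails -/
def refl (δ w : ℤ) (P : Arr) : Arr :=
  (P.1.filter (fun x => x ≤ w + δ) ∪ (P.2.filter (fun y => w < y)).map (addRightEmbedding δ),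
   P.2.filter (fun y => y ≤ w) ∪ (P.1.filter (fun x => w + δ < x)).map (addRightEmbedding (-δ)))

lemma glue_glue (ξ η : ℤ) (P Q : Arr) : glue ξ η (glue ξ η P Q) (glue ξ η Q P) = P := by
  apply Prod.ext <;> ext x <;> simp only [glue, mem_union, mem_filter] <;>
    constructor <;> intro h
  · rcases h with ⟨⟨h1, _⟩ | ⟨_, h2⟩, h3⟩ | ⟨⟨_, h1⟩ | ⟨h1, _⟩, h3⟩
    · exact h1
    · omega
    · omega
    · exact h1
  · rcases le_or_gt x ξ with h1 | h1
    · exact Or.inl ⟨Or.inl ⟨h, h1⟩, h1⟩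
    · exact Or.inr ⟨Or.inr ⟨h, h1⟩, h1⟩
  · rcases h with ⟨⟨h1, _⟩ | ⟨_, h2⟩, h3⟩ | ⟨⟨_, h1⟩ | ⟨h1, _⟩, h3⟩
    · exact h1
    · omega
    · omega
    · exact h1
  · rcases le_or_gt x η with h1 | h1
    · exact Or.inl ⟨Or.inl ⟨h, h1⟩, h1⟩
    · exact Or.inr ⟨Or.inr ⟨h, h1⟩, h1⟩

lemma mem_refl_fst {δ w : ℤ} {P : Arr} {x : ℤ} :
    x ∈ (refl δ w P).1 ↔ (x ∈ P.1 ∧ x ≤ w + δ) ∨ (x - δ ∈ P.2 ∧ w + δ < x) := by
  simp only [refl, mem_union, mem_filter, mem_map, addRightEmbedding_apply]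
  constructor
  · rintro (h | ⟨y, ⟨h1, h2⟩, rfl⟩)
    · exact Or.inl h
    · exact Or.inr ⟨by simpa using h1, by omega⟩
  · rintro (h | ⟨h1, h2⟩)
    · exact Or.inl h
    · exact Or.inr ⟨x - δ, ⟨h1, by omega⟩, by omega⟩

lemma mem_refl_snd {δ w : ℤ} {P : Arr} {y : ℤ} :
    y ∈ (refl δ w P).2 ↔ (y ∈ P.2 ∧ y ≤ w) ∨ (y + δ ∈ P.1 ∧ w < y) := by
  simp only [refl, mem_union, mem_filter, mem_map, addRightEmbedding_apply]
  constructor
  · rintro (h | ⟨x, ⟨h1, h2⟩, rfl⟩)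
    · exact Or.inl h
    · exact Or.inr ⟨by simpa using h1, by omega⟩
  · rintro (h | ⟨h1, h2⟩)
    · exact Or.inl h
    · exact Or.inr ⟨y + δ, ⟨h1, by omega⟩, by omega⟩

lemma refl_refl (δ w : ℤ) (P : Arr) : refl δ w (refl δ w P) = P := by
  apply Prod.ext <;> ext x
  · rw [mem_refl_fst, mem_refl_fst, mem_refl_snd]
    have e : x - δ + δ = x := by ring
    rw [e]
    constructor
    · rintro (⟨⟨h1, _⟩ | ⟨_, h2⟩, h3⟩ | ⟨⟨_, h1⟩ | ⟨h1, _⟩, h3⟩)
      · exact h1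
      · omega
      · omega
      · exact h1
    · intro h
      rcases le_or_gt x (w + δ) with h1 | h1
      · exact Or.inl ⟨Or.inl ⟨h, h1⟩, h1⟩
      · exact Or.inr ⟨Or.inr ⟨h, by omega⟩, h1⟩
  · rw [mem_refl_snd, mem_refl_fst, mem_refl_snd]
    have e : x + δ - δ = x := by ring
    rw [e]
    constructor
    · rintro (⟨⟨h1, _⟩ | ⟨_, h2⟩, h3⟩ | ⟨⟨_, h1⟩ | ⟨h1, _⟩, h3⟩)
      · exact h1
      · omega
      · omega
      · exact h1
    · intro h
      rcases le_or_gt x w with h1 | h1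
      · exact Or.inl ⟨Or.inl ⟨h, h1⟩, h1⟩
      · exact Or.inr ⟨Or.inr ⟨h, by omega⟩, h1⟩

lemma disj_glue (X Z : Finset ℤ) (ξ : ℤ) :
    Disjoint (X.filter (fun x => x ≤ ξ)) (Z.filter (fun x => ξ < x)) := by
  rw [disjoint_left]
  intro x hx hz
  simp only [mem_filter] at hx hz
  omega

lemma card_split (X : Finset ℤ) (ξ : ℤ) :
    ((X.filter (fun x => x ≤ ξ)).card : ℤ) + (X.filter (fun x => ξ < x)).card = X.card := by
  have := card_filter_add_card_filter_not (s := X) (fun x => x ≤ ξ)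
  simp only [not_le] at this
  exact_mod_cast this

lemma sum_split (X : Finset ℤ) (ξ : ℤ) :
    ∑ x ∈ X.filter (fun x => x ≤ ξ), x + ∑ x ∈ X.filter (fun x => ξ < x), x = ∑ x ∈ X, x := by
  have := sum_filter_add_sum_filter_not X (fun x => x ≤ ξ) (fun x => x)
  simp only [not_le] at this
  exact this

/-- number of elements up to the point, difference -/
def hd (ξ η : ℤ) (P : Arr) : ℤ :=
  ((P.1.filter (fun x => x ≤ ξ)).card : ℤ) - (P.2.filter (fun x => x ≤ η)).card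

lemma ch_glue (ξ η : ℤ) (P Q : Arr) : ch (glue ξ η P Q) = ch Q + hd ξ η P - hd ξ η Q := by
  have h1 := card_split Q.1 ξ
  have h2 := card_split Q.2 η
  simp only [ch, glue, hd]
  rw [card_union_of_disjoint (disj_glue _ _ _), card_union_of_disjoint (disj_glue _ _ _)]
  push_cast
  linarith

lemma wa_glue (ξ η : ℤ) (P Q : Arr) : wa (glue ξ η P Q) + wa (glue ξ η Q P) = wa P + wa Q := by
  have h1 := sum_split Q.1 ξ
  have h2 := sum_split Q.2 η
  have h3 := sum_split P.1 ξ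
  have h4 := sum_split P.2 η
  simp only [wa, glue]
  rw [sum_union (disj_glue _ _ _), sum_union (disj_glue _ _ _), sum_union (disj_glue _ _ _),
    sum_union (disj_glue _ _ _)]
  linarith

lemma disj_refl1 (δ w : ℤ) (P : Arr) : Disjoint (P.1.filter (fun x => x ≤ w + δ))
    ((P.2.filter (fun y => w < y)).map (addRightEmbedding δ)) := by
  rw [disjoint_left]
  intro x hx hz
  simp only [mem_filter, mem_map, addRightEmbedding_apply] at hx hz
  obtain ⟨y, ⟨_, h⟩, rfl⟩ := hz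
  omega

lemma disj_refl2 (δ w : ℤ) (P : Arr) : Disjoint (P.2.filter (fun x => x ≤ w))
    ((P.1.filter (fun y => w + δ < y)).map (addRightEmbedding (-δ))) := by
  rw [disjoint_left]
  intro x hx hz
  simp only [mem_filter, mem_map, addRightEmbedding_apply] at hx hz
  obtain ⟨y, ⟨_, h⟩, rfl⟩ := hz
  omega

lemma ch_refl (δ w : ℤ) (P : Arr) : ch (refl δ w P) = 2 * hd (w + δ) w P - ch P := by
  have h1 := card_split P.1 (w + δ)
  have h2 := card_split P.2 w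
  simp only [ch, refl, hd]
  rw [card_union_of_disjoint (disj_refl1 _ _ _), card_union_of_disjoint (disj_refl2 _ _ _),
    card_map, card_map]
  push_cast
  linarith

lemma wa_refl (δ w : ℤ) (P : Arr) : wa (refl δ w P) = wa P - δ * (ch P - hd (w + δ) w P) := by
  have h1 := card_split P.1 (w + δ)
  have h2 := card_split P.2 w
  have h3 := sum_split P.1 (w + δ)
  have h4 := sum_split P.2 w
  simp only [ch, refl, hd, wa]
  rw [sum_union (disj_refl1 _ _ _), sum_union (disj_refl2 _ _ _), sum_map, sum_map]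
  simp only [addRightEmbedding_apply, sum_add_distrib, sum_const, nsmul_eq_mul]
  have e1 : ((P.2.filter (fun y => w < y)).card : ℤ) = P.2.card - (P.2.filter (fun y => y ≤ w)).card := by
    linarith
  have e2 : ((P.1.filter (fun y => w + δ < y)).card : ℤ) =
      P.1.card - (P.1.filter (fun y => y ≤ w + δ)).card := by
    linarith
  rw [e1, e2]
  linear_combination h3 + h4

lemma glue_filter1 {ξ η : ℤ} (P Q : Arr) {u : ℤ} (hu : u ≤ ξ) :
    (glue ξ η P Q).1.filter (fun x => x ≤ u) = P.1.filter (fun x => x ≤ u) := by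
  ext x; simp only [glue, mem_filter, mem_union]
  constructor
  · rintro ⟨⟨h1, _⟩ | ⟨_, h2⟩, h3⟩
    · exact ⟨h1, h3⟩
    · omega
  · rintro ⟨h1, h2⟩
    exact ⟨Or.inl ⟨h1, by omega⟩, h2⟩

lemma glue_filter2 {ξ η : ℤ} (P Q : Arr) {u : ℤ} (hu : u ≤ η) :
    (glue ξ η P Q).2.filter (fun x => x ≤ u) = P.2.filter (fun x => x ≤ u) := by
  ext x; simp only [glue, mem_filter, mem_union]
  constructor
  · rintro ⟨⟨h1, _⟩ | ⟨_, h2⟩, h3⟩
    · exact ⟨h1, h3⟩
    · omega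
  · rintro ⟨h1, h2⟩
    exact ⟨Or.inl ⟨h1, by omega⟩, h2⟩

lemma refl_filter1 {δ w : ℤ} (P : Arr) {u : ℤ} (hu : u ≤ w + δ) :
    (refl δ w P).1.filter (fun x => x ≤ u) = P.1.filter (fun x => x ≤ u) := by
  ext x; rw [mem_filter, mem_filter, mem_refl_fst]
  constructor
  · rintro ⟨⟨h1, _⟩ | ⟨_, h2⟩, h3⟩
    · exact ⟨h1, h3⟩
    · omega
  · rintro ⟨h1, h2⟩
    exact ⟨Or.inl ⟨h1, by omega⟩, h2⟩

lemma refl_filter2 {δ w : ℤ} (P : Arr) {u : ℤ} (hu : u ≤ w) :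
    (refl δ w P).2.filter (fun x => x ≤ u) = P.2.filter (fun x => x ≤ u) := by
  ext x; rw [mem_filter, mem_filter, mem_refl_snd]
  constructor
  · rintro ⟨⟨h1, _⟩ | ⟨_, h2⟩, h3⟩
    · exact ⟨h1, h3⟩
    · omega
  · rintro ⟨h1, h2⟩
    exact ⟨Or.inl ⟨h1, by omega⟩, h2⟩

/-- agreement of objects up to a point -/
def AgO {k : ℕ} (o o' : Obj k) (ξ η : ℤ) : Prop :=
  ∀ i : Fin k, (∀ u ≤ ξ, (o' i).1.filter (fun x => x ≤ u) = (o i).1.filter (fun x => x ≤ u)) ∧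
    (∀ u ≤ η, (o' i).2.filter (fun x => x ≤ u) = (o i).2.filter (fun x => x ≤ u))

lemma agree_of {k : ℕ} (c : Fin k → ℤ) {o o' : Obj k} {t : ℕ} {ξ η : ℤ} (h : AgO o o' ξ η)
    (h2 : ∀ i : Fin k, i.val + 1 ≠ t → i.val ≠ t → o' i = o i) :
    Agree k (aa c o) (bb c o) (aa c o') (bb c o') t ξ η := by
  refine ⟨?_, ?_, ?_, ?_⟩
  · intro s u hu
    by_cases hs : 1 ≤ s ∧ s ≤ k
    · obtain ⟨i, rfl⟩ := exists_index hs.1 hs.2
      rw [aa_succ, aa_succ, cx, cx, (h i).1 u hu]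
    · simp [aa, hs]
  · intro s u hu
    by_cases hs : 1 ≤ s ∧ s ≤ k
    · obtain ⟨i, rfl⟩ := exists_index hs.1 hs.2
      rw [bb_succ, bb_succ, cy, cy, (h i).2 u hu]
    · simp [bb, hs]
  · intro s u h3 h4
    by_cases hs : 1 ≤ s ∧ s ≤ k
    · obtain ⟨i, rfl⟩ := exists_index hs.1 hs.2
      rw [aa_succ, aa_succ, h2 i h3 (by omega)]
    · simp [aa, hs]
  · intro s u h3 h4
    by_cases hs : 1 ≤ s ∧ s ≤ k
    · obtain ⟨i, rfl⟩ := exists_index hs.1 hs.2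
      rw [bb_succ, bb_succ, h2 i h3 (by omega)]
    · simp [bb, hs]

end Pool.Agent.CMPP
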