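import Mathlib
import Pool.Agent.Lib_helper28.CMPP.Swap

set_option autoImplicit false

open Finset

namespace Pool.Agent.CMPP

section

variable {k m : ℕ} {c : Fin k → ℤ} {o : Obj k}

def HC (k m : ℕ) (c : Fin k → ℤ) : Prop :=
  (∀ t, 0 ≤ c t ∧ 2 * c t + 1 ≤ m) ∨ (m = 0 ∧ ∀ t, c t = 0)

lemma HC.nonneg (hc : HC k m c) (i : Fin k) : 0 ≤ c i := by
  rcases hc with h | h
  · exact (h i).1
  · rw [h.2 i]

lemma hXv (ho : Valid c o) (i : Fin k) : ∀ x ∈ (o i).1, c i < x := (ho i).1

lemma hYv (ho : Valid c o) (i : Fin k) : ∀ y ∈ (o i).2, -c i - 1 < y := fun y hy => by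
  have := (ho i).2 y hy; omega

lemma low_ground (hmono : Monotone c) (hc : HC k m c) (ho : Valid c o) {t : ℕ} {ξ η : ℤ}
    (h : Low k m (DD m c o) t ξ η) (i : Fin k) (hi : i.val = t) : c i < ξ := by
  obtain ⟨htk, hj, hη, h0, h1⟩ := h
  subst hi
  rw [DD_succ, cy_eq] at h1
  by_contra hcon
  push Not at hcon
  rw [cx_of_le (hXv ho i) hcon] at h1
  have h2 : η < -c i - 1 := by
    by_contra h3
    have := cx_nonneg_of_ge (c := -c i - 1) (o i).2 (u := η) (by omega)
    omega
  rw [cx_of_le (hYv ho i) h2.le] at h1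
  have hci := hc.nonneg i
  rcases Nat.eq_zero_or_pos i.val with h3 | h3
  · rw [h3] at h0
    simp only [DD, if_true] at h0
    split_ifs at h0 <;> omega
  · obtain ⟨j, hj⟩ : ∃ j : Fin k, i.val = j.val + 1 := ⟨⟨i.val - 1, by omega⟩, by simp only; omega⟩
    have hji : c j ≤ c i := hmono (Fin.le_def.mpr (by omega))
    rw [hj, DD_succ, cy_eq, cx_of_le (hYv ho j) (show η ≤ -c j - 1 by omega)] at h0
    rcases le_or_gt ξ (c j) with h4 | h4
    · rw [cx_of_le (hXv ho j) h4] at h0
      omega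
    · have := cx_nonneg_of_ge (c := c j) (o j).1 (u := ξ) h4.le
      omega

lemma low_ground' (hmono : Monotone c) (hc : HC k m c) (ho : Valid c o) {t : ℕ} {ξ η : ℤ}
    (h : Low k m (DD m c o) t ξ η) (j : Fin k) (hj : j.val + 1 = t) : -c j - 1 ≤ η := by
  have htk := h.1
  have h1 := low_ground hmono hc ho h ⟨t, htk⟩ rfl
  have h2 : c j ≤ c ⟨t, htk⟩ := hmono (Fin.le_def.mpr (by simp only; omega))
  obtain ⟨_, _, hη, h0, _⟩ := h
  rw [← hj, DD_succ, cy_eq] at h0
  by_contra hcon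
  push Not at hcon
  rw [cx_of_le (hYv ho j) hcon.le] at h0
  have := cx_nonneg_of_ge (c := c j) (o j).1 (u := ξ) (by omega)
  omega

lemma high_ground (hc : HC k m c) (ho : Valid c o) {s : ℕ} {ξ η : ℤ}
    (h : High k m (DD m c o) s η ξ) (i : Fin k) (hi : i.val + 1 = s) : -c i ≤ η := by
  obtain ⟨hs1, hsk, hj, hξ, h0, h1⟩ := h
  subst hi
  by_contra hcon
  push Not at hcon
  rw [DD_succ, cy_eq, cx_of_le (hYv ho i) (show η ≤ -c i - 1 by omega)] at h0
  have h2 : ξ < c i := by
    by_contra h3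
    have := cx_nonneg_of_ge (c := c i) (o i).1 (u := ξ) (by omega)
    omega
  rw [cx_of_le (hXv ho i) h2.le] at h0
  rcases hc with hc | ⟨rfl, hc⟩
  · have := (hc i).2
    omega
  · have hci := hc i
    rcases Nat.lt_or_ge (i.val + 1) k with h3 | h3
    · have e : i.val + 1 + 1 = (⟨i.val + 1, h3⟩ : Fin k).val + 1 := rfl
      rw [e, DD_succ, cy_eq] at h1
      have hcj := hc ⟨i.val + 1, h3⟩
      rw [cx_of_le (hXv ho _) (show ξ ≤ c ⟨i.val + 1, h3⟩ by omega),
        cx_of_le (hYv ho _) (show η ≤ -c ⟨i.val + 1, h3⟩ - 1 by omega)] at h1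
      push_cast at hξ
      omega
    · have e : i.val + 1 = k := by have := i.2; omega
      rw [e] at h1
      have := (cfg_obj 0 c o ho).top ξ η
      rw [this] at h1
      split_ifs at h1 with h4
      · omega
      · omega

lemma high_ground' (hmono : Monotone c) (hc : HC k m c) (ho : Valid c o) {s : ℕ} {ξ η : ℤ}
    (h : High k m (DD m c o) s η ξ) (j : Fin k) (hj : j.val = s) : c j ≤ ξ := by
  have hs1 := h.1
  have hi : ∃ i : Fin k, i.val + 1 = s := ⟨⟨s - 1, by have := j.2; omega⟩, by simp only; omega⟩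
  obtain ⟨i, hi⟩ := hi
  have h1 := high_ground hc ho h i hi
  have h2 : c i ≤ c j := hmono (Fin.le_def.mpr (by omega))
  obtain ⟨_, _, _, hξ, _, h0⟩ := h
  rw [← hj, DD_succ, cy_eq] at h0
  by_contra hcon
  push Not at hcon
  rw [cx_of_le (hXv ho j) hcon.le] at h0
  have := cx_nonneg_of_ge (c := -c j - 1) (o j).2 (u := η) (by omega)
  omega

/-- the least bad point, of either type -/
def LPt (k m : ℕ) (D : ℕ → ℤ → ℤ → ℤ) (t : ℕ) (ξ η : ℤ) : Prop :=
  LeastLow k m D t ξ η ∨ LeastHigh k m D t η ξ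

lemma LPt.unique {D : ℕ → ℤ → ℤ → ℤ} {t t' : ℕ} {ξ η ξ' η' : ℤ} (h : LPt k m D t ξ η)
    (h' : LPt k m D t' ξ' η') : t = t' ∧ ξ = ξ' ∧ η = η' := by
  rcases h with h | h <;> rcases h' with h' | h'
  · exact h.unique h'
  · exact (h.not_high h').elim
  · exact (h'.not_high h).elim
  · have := h.unique h'
    exact ⟨this.1, this.2.2, this.2.1⟩

lemma LPt.preserve {D D' : ℕ → ℤ → ℤ → ℤ} {a b a' b' : ℕ → ℤ → ℤ} (hD : Cfg k m D a b)
    (hD' : Cfg k m D' a' b') {t : ℕ} {ξ η : ℤ}
    (h : LPt k m D t ξ η) (hA : Agree k a b a' b' t ξ η) : LPt k m D' t ξ η := by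
  rcases h with h | h
  · exact Or.inl (h.preserve hD hD' hA)
  · exact Or.inr (h.preserve hD hD' hA)

structure Pt (m : ℕ) (c : Fin k → ℤ) (o : Obj k) (t : ℕ) (ξ η : ℤ) : Prop where
  kpos : 1 ≤ k
  tk : t ≤ k
  lo : ∀ i : Fin k, i.val + 1 = t ∨ i.val = t → c i ≤ ξ ∧ -c i - 1 ≤ η
  d0 : DD m c o (t + 1) ξ η = DD m c o t ξ η + 1
  w0 : t = 0 → ξ = η + 1 ∧ DD m c o 1 ξ η = 1
  wk : t = k → ξ = η + m ∧ DD m c o k ξ η = -1 ∧ ∀ i : Fin k, i.val + 1 = k → -c i ≤ η

lemma LPt.pt (hmono : Monotone c) (hc : HC k m c) (ho : Valid c o) {t : ℕ} {ξ η : ℤ}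
    (h : LPt k m (DD m c o) t ξ η) : Pt m c o t ξ η := by
  have hcfg := cfg_obj m c o ho
  rcases h with h | h
  · obtain ⟨f1, f0, fw⟩ := h.facts hcfg
    have hl := h.1
    have htk : t < k := hl.1
    have g1 : c ⟨t, htk⟩ < ξ := low_ground hmono hc ho hl ⟨t, htk⟩ rfl
    have hcn := hc.nonneg ⟨t, htk⟩
    refine ⟨by omega, by omega, ?_, by omega, ?_, by omega⟩
    · intro i hi
      have hle : c i ≤ c ⟨t, htk⟩ := hmono (Fin.le_def.mpr (by simp only; omega))
      refine ⟨by omega, ?_⟩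
      rcases hi with hi | hi
      · exact low_ground' hmono hc ho hl i hi
      · have hi' : i = ⟨t, htk⟩ := Fin.ext hi
        rcases Nat.eq_zero_or_pos t with h0 | h0
        · have := fw h0
          rw [hi']; omega
        · have h1 := low_ground' hmono hc ho hl ⟨t - 1, by omega⟩ (by simp only; omega)
          have h2 : c ⟨t - 1, by omega⟩ ≤ c i := hmono (Fin.le_def.mpr (by simp only; omega))
          omega
    · rintro rfl
      have := fw rfl
      exact ⟨by omega, f1⟩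
  · obtain ⟨f1, f0, fw⟩ := h.facts hcfg
    have hl := h.1
    have hs1 : 1 ≤ t := hl.1
    have hsk : t ≤ k := hl.2.1
    obtain ⟨i0, hi0⟩ : ∃ i : Fin k, i.val + 1 = t := ⟨⟨t - 1, by omega⟩, by simp only; omega⟩
    have g1 : -c i0 ≤ η := high_ground hc ho hl i0 hi0
    have hwk : t = k → ξ = η + m := by
      intro htk
      refine fw htk ?_
      rcases hc with hc | ⟨rfl, hc⟩
      · have := hc i0; omega
      · have := hc i0; push_cast; omega
    refine ⟨by omega, hsk, ?_, by omega, by omega, ?_⟩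
    · intro i hi
      rcases hi with hi | hi
      · have : i = i0 := Fin.ext (by omega)
        subst this
        refine ⟨?_, by omega⟩
        rcases Nat.lt_or_ge t k with h2 | h2
        · have h3 := high_ground' hmono hc ho hl ⟨t, h2⟩ rfl
          have h4 : c i ≤ c ⟨t, h2⟩ := hmono (Fin.le_def.mpr (by simp only; omega))
          omega
        · have h5 := hwk (by omega)
          rcases hc with hc | ⟨rfl, hc⟩
          · have := hc i; omega
          · have := hc i; push_cast at h5; omega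
      · have h3 := high_ground' hmono hc ho hl i hi
        have h4 : c i0 ≤ c i := hmono (Fin.le_def.mpr (by omega))
        omega
    · intro htk
      have e : DD m c o t ξ η = DD m c o k ξ η := congrArg (fun s => DD m c o s ξ η) htk
      refine ⟨hwk htk, by rw [← e]; exact f0, ?_⟩
      intro i hi
      have : i = i0 := Fin.ext (by omega)
      rw [this]; exact g1

end

end Pool.Agent.CMPP
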