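import Mathlib
import Pool.Agent.Lib_helper28.CMPP.Pt

set_option autoImplicit false

open Finset

namespace Pool.Agent.CMPP

section

variable {k m : ℕ} {c : Fin k → ℤ} {o : Obj k}

/-- the swap at a point -/
def swpT (m : ℕ) (t : ℕ) (ξ η : ℤ) (o : Obj k) : Obj k :=
  if t = 0 then fun l => if l.val = 0 then refl 1 η (o l) else o l
  else if hk : t < k then fun l =>
    if l.val + 1 = t then glue ξ η (o l) (o ⟨t, hk⟩)
    else if l.val = t then glue ξ η (o l) (o ⟨t - 1, by omega⟩) else o l
  else fun l => if l.val + 1 = k then refl m η (o l) else o l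

lemma swpT_zero (m : ℕ) (ξ η : ℤ) (o : Obj k) :
    swpT m 0 ξ η o = fun l => if l.val = 0 then refl 1 η (o l) else o l := by
  simp [swpT]

lemma swpT_top (m : ℕ) (ξ η : ℤ) (o : Obj k) (hk : 1 ≤ k) :
    swpT m k ξ η o = fun l => if l.val + 1 = k then refl m η (o l) else o l := by
  unfold swpT
  rw [if_neg (by omega), dif_neg (lt_irrefl k)]

lemma swpT_mid (m : ℕ) (t : ℕ) (ξ η : ℤ) (o : Obj k) (h1 : 1 ≤ t) (hk : t < k) :
    swpT m t ξ η o = fun l =>
      if l.val + 1 = t then glue ξ η (o l) (o ⟨t, hk⟩)
      else if l.val = t then glue ξ η (o l) (o ⟨t - 1, by omega⟩) else o l := by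
  unfold swpT
  rw [if_neg (by omega), dif_pos hk]

lemma swpT_swpT (m : ℕ) (t : ℕ) (ξ η : ℤ) (o : Obj k) (h2 : t ≤ k) :
    swpT m t ξ η (swpT m t ξ η o) = o := by
  rcases Nat.eq_zero_or_pos t with rfl | h1
  · rw [swpT_zero, swpT_zero]
    funext l
    by_cases hl : l.val = 0
    · simp only [hl, if_true, refl_refl]
    · simp only [hl, if_false]
  · rcases Nat.lt_or_ge t k with h3 | h3
    · rw [swpT_mid m t ξ η o h1 h3, swpT_mid m t ξ η _ h1 h3]
      funext l
      by_cases hl : l.val + 1 = t
      · have e : (⟨t - 1, by omega⟩ : Fin k) = l := Fin.ext (by simp only; omega)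
        have hn : ¬ (t + 1 = t) := by omega
        simp only [hl, if_true, hn, if_false, e, glue_glue]
      · by_cases hl' : l.val = t
        · have e : (⟨t, h3⟩ : Fin k) = l := Fin.ext (by simp only; omega)
          have hn : (t - 1 + 1 = t) := by omega
          simp only [hl', if_true, e, hn]
          simp only [show ¬ (t + 1 = t) by omega, if_false]
          exact glue_glue _ _ _ _
        · simp only [hl, hl', if_false]
    · have : t = k := by omega
      subst this
      rw [swpT_top m ξ η o h1, swpT_top m ξ η _ h1]
      funext l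
      by_cases hl : l.val + 1 = t
      · simp only [hl, if_true, refl_refl]
      · simp only [hl, if_false]

lemma swpT_ag {t : ℕ} {ξ η : ℤ} (hp : Pt m c o t ξ η) : AgO o (swpT m t ξ η o) ξ η := by
  obtain ⟨kpos, tk, lo, d0, w0, wk⟩ := hp
  intro i
  rcases Nat.eq_zero_or_pos t with h1 | h1
  · subst h1
    rw [swpT_zero]
    by_cases hl : i.val = 0
    · simp only [hl, if_true]
      exact ⟨fun u hu => refl_filter1 _ (by have := (w0 rfl).1; omega), fun u hu => refl_filter2 _ hu⟩
    · simp only [hl, if_false]
      exact ⟨fun _ _ => trivial, fun _ _ => trivial⟩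
  · rcases Nat.lt_or_ge t k with h3 | h3
    · rw [swpT_mid m t ξ η o h1 h3]
      by_cases hl : i.val + 1 = t
      · simp only [hl, if_true]
        exact ⟨fun u hu => glue_filter1 _ _ hu, fun u hu => glue_filter2 _ _ hu⟩
      · by_cases hl' : i.val = t
        · simp only [hl', if_true, show ¬ (t + 1 = t) by omega, if_false]
          exact ⟨fun u hu => glue_filter1 _ _ hu, fun u hu => glue_filter2 _ _ hu⟩
        · simp only [hl, hl', if_false]
          exact ⟨fun _ _ => trivial, fun _ _ => trivial⟩
    · have htk : t = k := by omega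
      have e : swpT m t ξ η o = fun l => if l.val + 1 = k then refl m η (o l) else o l := by
        rw [htk]; exact swpT_top m ξ η o kpos
      rw [e]
      by_cases hl : i.val + 1 = k
      · simp only [hl, if_true]
        exact ⟨fun u hu => refl_filter1 _ (by have := (wk htk).1; omega), fun u hu => refl_filter2 _ hu⟩
      · simp only [hl, if_false]
        exact ⟨fun _ _ => trivial, fun _ _ => trivial⟩

lemma swpT_other {t : ℕ} {ξ η : ℤ} (htk : t ≤ k) (i : Fin k) (h1 : i.val + 1 ≠ t)
    (h2 : i.val ≠ t) : swpT m t ξ η o i = o i := by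
  rcases Nat.eq_zero_or_pos t with h3 | h3
  · subst h3
    rw [swpT_zero]
    simp only [h2, if_false]
  · rcases Nat.lt_or_ge t k with h4 | h4
    · rw [swpT_mid m t ξ η o h3 h4]
      simp only [h1, h2, if_false]
    · have htk : t = k := by omega
      have e : swpT m t ξ η o = fun l => if l.val + 1 = k then refl m η (o l) else o l := by
        rw [htk]; exact swpT_top m ξ η o (by omega)
      rw [e]
      simp only [show ¬ (i.val + 1 = k) by omega, if_false]

lemma VA_glue {c ξ η : ℤ} {P Q : Arr} (hP : VA c P) (h1 : c ≤ ξ)
    (h2 : -c - 1 ≤ η) : VA c (glue ξ η P Q) := by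
  constructor
  · intro x hx
    simp only [glue, mem_union, mem_filter] at hx
    rcases hx with ⟨h, _⟩ | ⟨_, h⟩
    · exact hP.1 x h
    · omega
  · intro x hx
    simp only [glue, mem_union, mem_filter] at hx
    rcases hx with ⟨h, _⟩ | ⟨_, h⟩
    · exact hP.2 x h
    · omega

lemma VA_refl {c δ w : ℤ} {P : Arr} (hP : VA c P) (h1 : c ≤ w + δ)
    (h2 : -c - 1 ≤ w) : VA c (refl δ w P) := by
  constructor
  · intro x hx
    rw [mem_refl_fst] at hx
    rcases hx with ⟨h, _⟩ | ⟨_, h⟩
    · exact hP.1 x h
    · omega
  · intro x hx
    rw [mem_refl_snd] at hx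
    rcases hx with ⟨h, _⟩ | ⟨_, h⟩
    · exact hP.2 x h
    · omega

lemma swpT_valid (ho : Valid c o) {t : ℕ} {ξ η : ℤ} (hp : Pt m c o t ξ η) :
    Valid c (swpT m t ξ η o) := by
  obtain ⟨kpos, tk, lo, d0, w0, wk⟩ := hp
  intro i
  rcases Nat.eq_zero_or_pos t with h1 | h1
  · subst h1
    rw [swpT_zero]
    by_cases hl : i.val = 0
    · have h2 := lo i (Or.inr hl)
      have h3 := (w0 rfl).1
      simp only [hl, if_true]
      exact VA_refl (ho i) (by omega) (by omega)
    · simp only [hl, if_false]
      exact ho i
  · rcases Nat.lt_or_ge t k with h3 | h3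
    · rw [swpT_mid m t ξ η o h1 h3]
      by_cases hl : i.val + 1 = t
      · have h2 := lo i (Or.inl hl)
        simp only [hl, if_true]
        exact VA_glue (ho i) h2.1 h2.2
      · by_cases hl' : i.val = t
        · have h2 := lo i (Or.inr hl')
          simp only [hl', if_true, show ¬ (t + 1 = t) by omega, if_false]
          exact VA_glue (ho i) h2.1 h2.2
        · simp only [hl, hl', if_false]
          exact ho i
    · have htk : t = k := by omega
      have e : swpT m t ξ η o = fun l => if l.val + 1 = k then refl m η (o l) else o l := by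
        rw [htk]; exact swpT_top m ξ η o kpos
      rw [e]
      by_cases hl : i.val + 1 = k
      · have h2 := lo i (Or.inl (by omega))
        have h3 := (wk htk).1
        simp only [hl, if_true]
        exact VA_refl (ho i) (by omega) (by omega)
      · simp only [hl, if_false]
        exact ho i

/-- the relation between an object and its image under the involution -/
def Rel (k m : ℕ) (E E' : Fin k → ℤ) (w w' : ℤ) : Prop :=
  (∃ i j : Fin k, i ≠ j ∧ E' = E ∘ Equiv.swap i j ∧ w' = w) ∨
  (∃ i : Fin k, E' = Function.update E i (-E i) ∧ w' = w - E i) ∨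
  (∃ i : Fin k, E' = Function.update E i (-E i - 2 * (k + 1)) ∧ w' = w - m * (E i + (k + 1)))

lemma hd_eq {c : ℤ} {P : Arr} {ξ η : ℤ} (h1 : c ≤ ξ) (h2 : -c - 1 ≤ η) :
    hd ξ η P = cx c P.1 ξ - cy c P.2 η := by
  rw [cy_eq, cx_of_ge _ h1, cx_of_ge _ h2, hd]

lemma swpT_rel {t : ℕ} {ξ η : ℤ} (hp : Pt m c o t ξ η) :
    Rel k m (EE o) (EE (swpT m t ξ η o)) (wt o) (wt (swpT m t ξ η o)) := by
  classical
  obtain ⟨kpos, tk, lo, d0, w0, wk⟩ := hp
  rcases Nat.eq_zero_or_pos t with h1 | h1
  · subst h1
    right; left
    obtain ⟨w1, w2⟩ := w0 rfl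
    set i0 : Fin k := ⟨0, kpos⟩ with hi0
    have h2 := lo i0 (Or.inr rfl)
    have hD : hd (η + 1) η (o i0) = 1 := by
      have e : DD m c o (i0.val + 1) ξ η = 1 := w2
      rw [DD_succ, ← hd_eq h2.1 h2.2, w1] at e
      exact e
    refine ⟨i0, ?_, ?_⟩
    · funext l
      rw [swpT_zero]
      by_cases hl : l = i0
      · subst hl
        simp only [EE, Function.update_self, hi0, if_true]
        rw [ch_refl]
        rw [hi0] at hD
        rw [hD]
        push_cast
        ring
      · have hl' : ¬ (l.val = 0) := fun h => hl (Fin.ext h)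
        rw [Function.update_of_ne hl]
        simp only [EE, hl', if_false]
    · have e : wt (swpT m 0 ξ η o) - wt o = wa (refl 1 η (o i0)) - wa (o i0) := by
        rw [wt, wt, ← sum_sub_distrib, swpT_zero]
        rw [sum_eq_single i0]
        · simp only [hi0, if_true]
        · intro b _ hb
          have : ¬ (b.val = 0) := fun h => hb (Fin.ext h)
          simp only [this, if_false, sub_self]
        · intro h; exact absurd (mem_univ _) h
      rw [wa_refl, hD] at e
      simp only [EE, hi0]
      rw [hi0] at e
      push_cast
      linarith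
  · rcases Nat.lt_or_ge t k with h3 | h3
    · left
      set i : Fin k := ⟨t - 1, by omega⟩ with hi
      set j : Fin k := ⟨t, h3⟩ with hj
      have hij : i ≠ j := by
        intro h
        have := congrArg Fin.val h
        simp only [hi, hj] at this
        omega
      have hiv : i.val + 1 = t := by simp only [hi]; omega
      have hjv : j.val = t := rfl
      have h2i := lo i (Or.inl hiv)
      have h2j := lo j (Or.inr rfl)
      have hD : hd ξ η (o j) = hd ξ η (o i) + 1 := by
        have e1 : DD m c o (j.val + 1) ξ η = DD m c o (i.val + 1) ξ η + 1 := by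
          have : DD m c o (i.val + 1) ξ η = DD m c o t ξ η :=
            congrArg (fun s => DD m c o s ξ η) hiv
          rw [this]; exact d0
        rw [DD_succ, DD_succ, ← hd_eq h2i.1 h2i.2, ← hd_eq h2j.1 h2j.2] at e1
        exact e1
      have ei : swpT m t ξ η o i = glue ξ η (o i) (o j) := by
        rw [swpT_mid m t ξ η o h1 h3]
        simp only [hiv, if_true]
        rfl
      have ej : swpT m t ξ η o j = glue ξ η (o j) (o i) := by
        rw [swpT_mid m t ξ η o h1 h3]
        simp only [hjv, show ¬ (t + 1 = t) by omega, if_false, if_true]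
        rfl
      have eo : ∀ l, l ≠ i → l ≠ j → swpT m t ξ η o l = o l := by
        intro l hl1 hl2
        refine swpT_other tk l ?_ ?_
        · intro h; exact hl1 (Fin.ext (by omega))
        · intro h; exact hl2 (Fin.ext (by omega))
      refine ⟨i, j, hij, ?_, ?_⟩
      · funext l
        simp only [Function.comp]
        by_cases hl : l = i
        · rw [hl, Equiv.swap_apply_left]
          simp only [EE, ei, ch_glue]
          rw [hD]
          simp only [hi, hj]
          push_cast
          omega
        · by_cases hl2 : l = j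
          · rw [hl2, Equiv.swap_apply_right]
            simp only [EE, ej, ch_glue]
            rw [hD]
            simp only [hi, hj]
            push_cast
            omega
          · rw [Equiv.swap_apply_of_ne_of_ne hl hl2]
            simp only [EE, eo l hl hl2]
      · have e : wt (swpT m t ξ η o) - wt o = 0 := by
          rw [wt, wt, ← sum_sub_distrib]
          rw [← sum_subset (subset_univ ({i, j} : Finset (Fin k)))]
          · rw [sum_pair hij, ei, ej]
            have := wa_glue ξ η (o i) (o j)
            linarith
          · intro l _ hl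
            simp only [mem_insert, mem_singleton, not_or] at hl
            rw [eo l hl.1 hl.2, sub_self]
        omega
    · have htk : t = k := by omega
      have e : swpT m t ξ η o = fun l => if l.val + 1 = k then refl m η (o l) else o l := by
        rw [htk]; exact swpT_top m ξ η o kpos
      right; right
      obtain ⟨w1, w2, _⟩ := wk htk
      set i0 : Fin k := ⟨k - 1, by omega⟩ with hi0
      have hi0v : i0.val + 1 = k := by simp only [hi0]; omega
      have h2 := lo i0 (Or.inl (by omega))
      have hD : hd (η + m) η (o i0) = -1 := by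
        have e : DD m c o (i0.val + 1) ξ η = -1 := by
          have : DD m c o (i0.val + 1) ξ η = DD m c o k ξ η :=
            congrArg (fun s => DD m c o s ξ η) hi0v
          rw [this]; exact w2
        rw [DD_succ, ← hd_eq h2.1 h2.2, w1] at e
        exact e
      have ei : swpT m t ξ η o i0 = refl m η (o i0) := by
        rw [e]; simp only [hi0v, if_true]
      have eo : ∀ l, l ≠ i0 → swpT m t ξ η o l = o l := by
        intro l hl
        have : ¬ (l.val + 1 = k) := fun h => hl (Fin.ext (by omega))
        rw [e]; simp only [this, if_false]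
      have hk : ((i0.val : ℕ) : ℤ) + 1 = k := by exact_mod_cast hi0v
      refine ⟨i0, ?_, ?_⟩
      · funext l
        by_cases hl : l = i0
        · subst hl
          rw [Function.update_self]
          simp only [EE, ei]
          rw [ch_refl, hD]
          linarith
        · rw [Function.update_of_ne hl]
          simp only [EE, eo l hl]
      · have e2 : wt (swpT m t ξ η o) - wt o = wa (refl m η (o i0)) - wa (o i0) := by
          rw [wt, wt, ← sum_sub_distrib]
          rw [sum_eq_single i0]
          · rw [ei]
          · intro b _ hb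
            rw [eo b hb, sub_self]
          · intro h; exact absurd (mem_univ _) h
        rw [wa_refl, hD] at e2
        have : EE o i0 = ch (o i0) - k := by simp only [EE]; linarith
        rw [this]
        linear_combination e2

end

end Pool.Agent.CMPP
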