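import Mathlib
import Pool.Agent.Lib_helper89.Mac.Macdonald
import Pool.Agent.Lib_helper28.CMPP.SwpT

set_option autoImplicit false

open Finset

namespace Pool.Agent.CMPP

open CMPP_M

section

variable {k m : ℕ} {c : Fin k → ℤ} {o : Obj k}

open Classical in
/-- the involution -/
noncomputable def sig (m : ℕ) (c : Fin k → ℤ) (o : Obj k) : Obj k :=
  if h : Valid c o ∧ ∃ p : ℕ × ℤ × ℤ, LPt k m (DD m c o) p.1 p.2.1 p.2.2 then
    swpT m (Classical.choose h.2).1 (Classical.choose h.2).2.1 (Classical.choose h.2).2.2 o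
  else o

lemma sig_of_LPt (ho : Valid c o) {t : ℕ} {ξ η : ℤ} (h : LPt k m (DD m c o) t ξ η) :
    sig m c o = swpT m t ξ η o := by
  have hex : Valid c o ∧ ∃ p : ℕ × ℤ × ℤ, LPt k m (DD m c o) p.1 p.2.1 p.2.2 := ⟨ho, (t, ξ, η), h⟩
  unfold sig
  rw [dif_pos hex]
  obtain ⟨h1, h2, h3⟩ := (Classical.choose_spec hex.2).unique h
  rw [h1, h2, h3]

lemma exists_LPt (hmono : Monotone c) (hc : HC k m c) (ho : Valid c o) (hb : ¬ Good m c o) :
    ∃ t ξ η, LPt k m (DD m c o) t ξ η := by
  have hbad : (∃ t ξ η, Low k m (DD m c o) t ξ η) ∨ (∃ s η ξ, High k m (DD m c o) s η ξ) := by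
    by_contra hcon
    push Not at hcon
    exact hb hcon
  have hbd : ∀ i : Fin k, 0 ≤ c i ∧ c i ≤ m := by
    intro i
    rcases hc with hc | ⟨rfl, hc⟩
    · have := hc i; omega
    · have := hc i; push_cast; omega
  have b1 : ∀ t ξ η, Low k m (DD m c o) t ξ η → (-m : ℤ) ≤ ξ := by
    intro t ξ η h
    have h1 := low_ground hmono hc ho h ⟨t, h.1⟩ rfl
    have := (hbd ⟨t, h.1⟩).1
    omega
  have b2 : ∀ s η ξ, High k m (DD m c o) s η ξ → (-m : ℤ) ≤ η := by
    intro s η ξ h
    obtain ⟨i, hi⟩ := exists_index h.1 h.2.1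
    have h1 := high_ground hc ho h i hi.symm
    have := (hbd i).2
    omega
  rcases exists_least (k := k) (m := m) (D := DD m c o) (-m) b1 b2 hbad with
    ⟨t, ξ, η, h⟩ | ⟨s, η, ξ, h⟩
  · exact ⟨t, ξ, η, Or.inl h⟩
  · exact ⟨s, ξ, η, Or.inr h⟩

lemma sig_facts (hmono : Monotone c) (hc : HC k m c) (ho : Valid c o) (hb : ¬ Good m c o) :
    Valid c (sig m c o) ∧ ¬ Good m c (sig m c o) ∧ sig m c (sig m c o) = o ∧
      Rel k m (EE o) (EE (sig m c o)) (wt o) (wt (sig m c o)) := by
  obtain ⟨t, ξ, η, h⟩ := exists_LPt hmono hc ho hb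
  have hp := h.pt hmono hc ho
  have e := sig_of_LPt ho h
  have hv : Valid c (swpT m t ξ η o) := swpT_valid ho hp
  have hag : Agree k (aa c o) (bb c o) (aa c (swpT m t ξ η o)) (bb c (swpT m t ξ η o)) t ξ η :=
    agree_of c (swpT_ag hp) (fun i h1 h2 => swpT_other hp.tk i h1 h2)
  have h' : LPt k m (DD m c (swpT m t ξ η o)) t ξ η :=
    h.preserve (cfg_obj m c o ho) (cfg_obj m c _ hv) hag
  have e' := sig_of_LPt hv h'
  rw [e]
  refine ⟨hv, ?_, ?_, swpT_rel hp⟩
  · intro hg
    rcases h' with h' | h'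
    · exact hg.1 _ _ _ h'.1
    · exact hg.2 _ _ _ h'.1
  · rw [e', swpT_swpT _ _ _ _ _ hp.tk]

/-- the weight -/
noncomputable def FF (g : (Fin k → ℤ) → ℂ) (q : ℝ) (E : Fin k → ℤ) (w : ℤ) : ℂ :=
  g E * (q : ℂ) ^ (w - ∑ t, E t * (E t + 1) / 2)

lemma tri (x : ℤ) : 2 * (x * (x + 1) / 2) = x * (x + 1) :=
  Int.mul_ediv_cancel' (Int.even_mul_succ_self x).two_dvd

lemma sum_upd (E : Fin k → ℤ) (i : Fin k) (x : ℤ) (f : ℤ → ℤ) :
    ∑ t, f (Function.update E i x t) = ∑ t, f (E t) + (f x - f (E i)) := by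
  have : ∑ t, f (Function.update E i x t) - ∑ t, f (E t) = f x - f (E i) := by
    rw [← sum_sub_distrib, sum_eq_single i]
    · rw [Function.update_self]
    · intro b _ hb
      rw [Function.update_of_ne hb, sub_self]
    · intro h; exact absurd (mem_univ _) h
  linarith

variable {q s : ℝ} {g : (Fin k → ℤ) → ℂ}

lemma g_upd (hs0 : 0 < s) (hs1 : s < 1) (h : IsL (fun z : Fin k → ℂ => Ft s z) g)
    (E : Fin k → ℤ) (i : Fin k) : g (Function.update E i (-E i)) = - g E := by
  have h2 := coef_unit hs0 hs1 h (Function.update (fun _ => 1) i (-1)) E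
  have e1 : (fun u => ((Function.update (fun _ => (1 : ℤˣ)) i (-1) u : ℤˣ) : ℤ) * E u)
      = Function.update E i (-E i) := by
    funext u
    by_cases hu : u = i
    · subst hu
      simp
    · simp [Function.update_of_ne hu]
  have e3 : (∏ u, (((Function.update (fun _ => (1 : ℤˣ)) i (-1) u : ℤˣ) : ℤ) : ℂ)) = -1 := by
    rw [prod_eq_single i]
    · simp
    · intro b _ hb; simp [Function.update_of_ne hb]
    · simp
  rw [e1, e3] at h2
  rw [h2]; ring

lemma FF_rel (hq0 : 0 < q) (hs0 : 0 < s) (hs1 : s < 1)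
    (hsq : s ^ 2 = q ^ (2 * k + 1 + m)) (h : IsL (fun z : Fin k → ℂ => Ft s z) g)
    {E E' : Fin k → ℤ} {w w' : ℤ} (hr : Rel k m E E' w w') : FF g q E' w' = - FF g q E w := by
  have hqc : (q : ℂ) ≠ 0 := by exact_mod_cast hq0.ne'
  rcases hr with ⟨i, j, hij, rfl, rfl⟩ | ⟨i, rfl, rfl⟩ | ⟨i, rfl, rfl⟩
  · unfold FF
    rw [coef_perm hs0 hs1 h, Equiv.Perm.sign_swap hij]
    have : ∑ t, (E ∘ Equiv.swap i j) t * ((E ∘ Equiv.swap i j) t + 1) / 2
        = ∑ t, E t * (E t + 1) / 2 :=
      Equiv.sum_comp (Equiv.swap i j) (fun t => E t * (E t + 1) / 2)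
    rw [this]
    push_cast
    ring
  · unfold FF
    rw [g_upd hs0 hs1 h, sum_upd E i (-E i) (fun x => x * (x + 1) / 2)]
    have e1 := tri (E i)
    have e2 := tri (-E i)
    have : w - E i - (∑ t, E t * (E t + 1) / 2 + (-E i * (-E i + 1) / 2 - E i * (E i + 1) / 2))
        = w - ∑ t, E t * (E t + 1) / 2 := by
      have : 2 * (-E i * (-E i + 1) / 2) - 2 * (E i * (E i + 1) / 2) = - 2 * E i := by
        rw [e1, e2]; ring
      omega
    rw [this]
    ring
  · unfold FF
    have e0 : Function.update E i (-E i - 2 * ((k : ℤ) + 1))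
        = fun t => Function.update E i (-E i) t + 2 * (k + 1) * (Pi.single i (-1) : Fin k → ℤ) t := by
      funext t
      by_cases ht : t = i
      · subst ht
        simp only [Function.update_self, Pi.single_eq_same]
        ring
      · simp only [Function.update_of_ne ht, Pi.single_eq_of_ne ht]
        ring
    have h1 := coef_shift hs0 hs1 h (Pi.single i (-1)) (Function.update E i (-E i))
    rw [← e0, g_upd hs0 hs1 h] at h1
    have e2 : ∑ t, (2 * ((k : ℤ) + 1) * ((Pi.single i (-1) : Fin k → ℤ) t *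
        (Pi.single i (-1) : Fin k → ℤ) t) + 2 * ((Pi.single i (-1) : Fin k → ℤ) t *
        Function.update E i (-E i) t)) = 2 * ((k + 1) + E i) := by
      rw [sum_eq_single i]
      · simp only [Pi.single_eq_same, Function.update_self]; ring
      · intro b _ hb; simp [Pi.single_eq_of_ne hb]
      · simp
    rw [e2, zpow_mul, show (s : ℂ) ^ (2 : ℤ) = (q : ℂ) ^ ((2 * k + 1 + m : ℕ) : ℤ) by
      rw [zpow_natCast, zpow_ofNat]; exact_mod_cast hsq, ← zpow_mul] at h1
    rw [h1, sum_upd E i _ (fun x => x * (x + 1) / 2)]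
    have e1 := tri (E i)
    have e3 := tri (-E i - 2 * (k + 1))
    have e4 : ((2 * k + 1 + m : ℕ) : ℤ) * ((k + 1) + E i) + (w - m * (E i + (k + 1)) -
        (∑ t, E t * (E t + 1) / 2 + ((-E i - 2 * (k + 1)) * (-E i - 2 * (k + 1) + 1) / 2
          - E i * (E i + 1) / 2))) = w - ∑ t, E t * (E t + 1) / 2 := by
      have : 2 * ((-E i - 2 * (k + 1)) * (-E i - 2 * (k + 1) + 1) / 2) - 2 * (E i * (E i + 1) / 2)
          = 2 * ((2 * k + 1) * (E i + (k + 1))) := by
        rw [e1, e3]; ring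
      push_cast
      linarith
    have e5 : (q : ℂ) ^ (((2 * k + 1 + m : ℕ) : ℤ) * ((k + 1) + E i)) *
        (q : ℂ) ^ (w - m * (E i + (k + 1)) -
        (∑ t, E t * (E t + 1) / 2 + ((-E i - 2 * (k + 1)) * (-E i - 2 * (k + 1) + 1) / 2
          - E i * (E i + 1) / 2))) = (q : ℂ) ^ (w - ∑ t, E t * (E t + 1) / 2) := by
      rw [← zpow_add₀ hqc, e4]
    linear_combination (- g E) * e5

/-- the sign reversing involution kills the bad configurations -/
theorem hasSum_good (hmono : Monotone c) (hc : HC k m c)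
    (F : Obj k → ℂ) (hF : ∀ o o', Rel k m (EE o) (EE o') (wt o) (wt o') → F o' = - F o) (v : ℂ)
    (hv : HasSum (fun o : {o : Obj k // Valid c o} => F o.1) v) :
    HasSum (fun o : {o : Obj k // Valid c o ∧ Good m c o} => F o.1) v := by
  classical
  have hv' : HasSum (Set.indicator {o : Obj k | Valid c o} F) v := by
    rw [← hasSum_subtype_iff_indicator]; exact hv
  set G1 : Obj k → ℂ := Set.indicator {o | Valid c o ∧ Good m c o} F with hG1
  set G2 : Obj k → ℂ := Set.indicator {o | Valid c o ∧ ¬ Good m c o} F with hG2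
  have hsplit : Set.indicator {o : Obj k | Valid c o} F = fun o => G1 o + G2 o := by
    funext o
    simp only [hG1, hG2, Set.indicator_apply, Set.mem_ofPred_eq]
    by_cases h1 : Valid c o <;> by_cases h2 : Good m c o <;> simp [h1, h2]
  have hG2s : Summable G2 := by
    have : G2 = Set.indicator {o | ¬ Good m c o} (Set.indicator {o : Obj k | Valid c o} F) := by
      funext o
      simp only [hG2, Set.indicator_apply, Set.mem_ofPred_eq]
      by_cases h1 : Valid c o <;> by_cases h2 : Good m c o <;> simp [h1, h2]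
    rw [this]
    exact hv'.summable.indicator _
  obtain ⟨b, hb⟩ := hG2s
  set f : Obj k → Obj k := fun o => if Valid c o ∧ ¬ Good m c o then sig m c o else o with hf
  have hinv : Function.Involutive f := by
    intro o
    by_cases h : Valid c o ∧ ¬ Good m c o
    · obtain ⟨h1, h2, h3, _⟩ := sig_facts hmono hc h.1 h.2
      simp only [hf, h, not_false_eq_true, and_self, if_true, h1, h2, h3]
    · simp only [hf, h, if_false]
  have h2 : HasSum (G2 ∘ (hinv.toPerm f)) b := (Equiv.hasSum_iff _).mpr hb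
  have h3 : G2 ∘ (hinv.toPerm f) = fun o => - G2 o := by
    funext o
    simp only [Function.comp, Function.Involutive.coe_toPerm]
    by_cases h : Valid c o ∧ ¬ Good m c o
    · obtain ⟨h1, h2, h3, h4⟩ := sig_facts hmono hc h.1 h.2
      have e1 : f o = sig m c o := by simp only [hf, h, not_false_eq_true, and_self, if_true]
      rw [e1]
      simp only [hG2, Set.indicator_apply, Set.mem_ofPred_eq, h, h1, h2, not_false_eq_true,
        and_self, if_true]
      exact hF _ _ h4
    · have e1 : f o = o := by simp only [hf, h, if_false]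
      rw [e1]
      simp only [hG2, Set.indicator_apply, Set.mem_ofPred_eq, h, if_false, neg_zero]
  rw [h3] at h2
  have h4 := h2.unique hb.neg
  have hb0 : b = 0 := by
    have : (2 : ℂ) * b = 0 := by linear_combination h4
    simpa using this
  have h5 := hv'.sub hb
  rw [hsplit, hb0, sub_zero] at h5
  have h6 : HasSum G1 v := by
    refine h5.congr_fun ?_
    intro o
    ring
  have h7 : HasSum (fun o : ({o : Obj k | Valid c o ∧ Good m c o} : Set (Obj k)) => F o.1) v := by
    rw [← hasSum_subtype_iff_indicator] at h6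
    exact h6
  exact h7

end

end Pool.Agent.CMPP
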