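import Mathlib
import Pool.Agent.Lib_helper28.CMPP.Invol

set_option autoImplicit false

open Finset

namespace Pool.Agent.CMPP

open CMPP_M

section abs

variable {k m : ℕ} {D : ℕ → ℤ → ℤ → ℤ} {a b : ℕ → ℤ → ℤ}

lemma good_G3 (hD : Cfg k m D a b) (hl : ∀ t ξ η, ¬ Low k m D t ξ η) {t : ℕ} (ht : t < k)
    {u w : ℤ} (huw : u - w ≤ m + 1) (h : 1 ≤ D (t + 1) u w) : 1 ≤ D t u w := by
  by_contra hcon
  push Not at hcon
  have e1 : ∀ u w, D (t + 1) u w = a (t + 1) u - b (t + 1) w := fun u w =>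
    hD.eq _ _ _ (by omega) (by omega)
  obtain ⟨ξ, g1, g2, g3⟩ := hD.a_jump (s := t + 1) (by omega) (by omega) u
  have h3 : D t ξ w ≤ D t u w := hD.mono (by omega) g1 le_rfl
  have q1 := e1 u w
  have q2 := e1 ξ w
  have q3 := e1 (ξ - 1) w
  exact hl t ξ w ⟨ht, by omega, by omega, by omega, by omega⟩

lemma good_G1 (hD : Cfg k m D a b) (hl : ∀ t ξ η, ¬ Low k m D t ξ η) {t : ℕ} (ht : t ≤ k)
    {u w : ℤ} (huw : u - w ≤ 1) : D t u w ≤ 0 := by
  induction t with
  | zero => rw [hD.zero, if_pos huw]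
  | succ t ih =>
    by_contra hcon
    push Not at hcon
    have := good_G3 hD hl (t := t) (by omega) (u := u) (w := w) (by omega) (by omega)
    have := ih (by omega)
    omega

lemma good_G2 (hD : Cfg k m D a b) (hh : ∀ s η ξ, ¬ High k m D s η ξ) {s : ℕ} (hs1 : 1 ≤ s)
    (hs : s ≤ k + 1) {u w : ℤ} (huw : (m : ℤ) ≤ u - w) (hu : 0 ≤ u) : 0 ≤ D s u w := by
  have key : ∀ j s, s + j = k + 1 → 1 ≤ s → ∀ w : ℤ, (m : ℤ) ≤ u - w → 0 ≤ D s u w := by
    intro j
    induction j with
    | zero =>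
      intro s hs _ w hw
      have : s = k + 1 := by omega
      subst this
      rw [hD.top, if_pos ⟨hw, hu⟩]
    | succ j ih =>
      intro s hs hs1 w hw
      by_contra hcon
      push Not at hcon
      have e1 : ∀ u w, D s u w = a s u - b s w := fun u w =>
        hD.eq _ _ _ (by omega) (by omega)
      obtain ⟨η, g1, g2, g3⟩ := hD.b_jump (s := s) (by omega) (by omega) w
      have h3 := ih (s + 1) (by omega) (by omega) η (by omega)
      have q1 := e1 u w
      have q2 := e1 u η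
      have q3 := e1 u (η - 1)
      exact hh s η u ⟨hs1, by omega, by omega, by omega, by omega, h3⟩
  exact key (k + 1 - s) s (by omega) hs1 w huw

end abs

section obj

variable {k m : ℕ} {c : Fin k → ℤ} {o : Obj k}

lemma good_ch (ho : Valid c o) (hg : Good m c o) (i : Fin k) : ch (o i) = 0 := by
  have hD := cfg_obj m c o ho
  obtain ⟨u0, hu0⟩ := cx_top (c i) (o i).1
  obtain ⟨w0, hw0⟩ := cx_top (-c i - 1) (o i).2
  have h1 := good_G2 hD hg.2 (s := i.val + 1) (by omega) (by have := i.2; omega)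
    (u := max (max u0 w0) 0 + m) (w := max (max u0 w0) 0) (by omega) (by omega)
  have h2 := good_G1 hD hg.1 (t := i.val + 1) (by have := i.2; omega)
    (u := max (max u0 w0) 0 + 1) (w := max (max u0 w0) 0) (by omega)
  rw [DD_succ, cy_eq, hu0 _ (by omega), hw0 _ (by omega)] at h1 h2
  unfold ch
  omega

lemma good_EE (ho : Valid c o) (hg : Good m c o) : EE o = D0 k := by
  funext i
  simp only [EE, D0, good_ch ho hg i]
  ring

/-- (I) the involution -/
theorem sum_good {k : ℕ} (m : ℕ) (c : Fin k → ℤ) (hmono : Monotone c)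
    (hc : (∀ t, 0 ≤ c t ∧ 2 * c t + 1 ≤ m) ∨ (m = 0 ∧ ∀ t, c t = 0))
    {q s : ℝ} (hq0 : 0 < q)
    (hs0 : 0 < s) (hs1 : s < 1) (hsq : s ^ 2 = q ^ (2 * k + 1 + m)) {g : (Fin k → ℤ) → ℂ}
    (h : IsL (fun z : Fin k → ℂ => Ft s z) g) (v : ℂ)
    (hv : HasSum (fun o : {o : Obj k // Valid c o} =>
        g (EE o.1) * (q : ℂ) ^ (wt o.1 - ∑ t, EE o.1 t * (EE o.1 t + 1) / 2)) v) :
    HasSum (fun o : {o : Obj k // Valid c o ∧ Good m c o} =>
      g (D0 k) * (q : ℂ) ^ (wt o.1 - ∑ t : Fin k, (((t : ℕ) : ℤ) + 1) * ((t : ℕ) : ℤ) / 2)) v := by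
  have h1 := hasSum_good (m := m) hmono hc (fun o => FF g q (EE o) (wt o))
    (fun o o' hr => FF_rel hq0 hs0 hs1 hsq h hr) v hv
  refine h1.congr_fun ?_
  rintro ⟨o, ho, hg⟩
  simp only [FF]
  rw [good_EE ho hg]
  have : ∑ t : Fin k, D0 k t * (D0 k t + 1) / 2 = ∑ t : Fin k, (((t : ℕ) : ℤ) + 1) * ((t : ℕ) : ℤ) / 2 := by
    refine sum_congr rfl fun t _ => ?_
    simp only [D0]
    congr 1
    ring
  rw [this]

/-- (Z0): for `m = 0` the only good configuration is empty -/
theorem ZZ_zero {k : ℕ} (c : Fin k → ℤ) (hc : ∀ t, c t = 0) (q : ℝ) : ZZ 0 c q = 1 := by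
  have key : ∀ o : Obj k, Valid c o ∧ Good 0 c o → o = fun _ => (∅, ∅) := by
    rintro o ⟨ho, hg⟩
    have hD := cfg_obj 0 c o ho
    funext i
    have f1 : ∀ u : ℤ, 0 ≤ u → cx (c i) (o i).1 u = cy (c i) (o i).2 u := by
      intro u hu
      have h1 := good_G2 hD hg.2 (s := i.val + 1) (by omega) (by have := i.2; omega)
        (u := u) (w := u) (by simp) hu
      have h2 := good_G1 hD hg.1 (t := i.val + 1) (by have := i.2; omega)
        (u := u) (w := u) (by omega)
      rw [DD_succ] at h1 h2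
      omega
    have f2 : ∀ u : ℤ, 0 ≤ u → cx (c i) (o i).1 (u + 1) ≤ cx (c i) (o i).1 u := by
      intro u hu
      have h2 := good_G1 hD hg.1 (t := i.val + 1) (by have := i.2; omega)
        (u := u + 1) (w := u) (by omega)
      rw [DD_succ] at h2
      have := f1 u hu
      omega
    have f3 : (o i).1 = ∅ := by
      rw [eq_empty_iff_forall_notMem]
      intro x hx
      have h1 := (ho i).1 x hx
      rw [hc i] at h1
      have h2 := f2 (x - 1) (by omega)
      have h3 := (cx_jump (c := c i) (hXv ho i) (u := x)).mpr (Or.inr hx)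
      rw [show x - 1 + 1 = x by ring] at h2
      omega
    have f4 : (o i).2 = ∅ := by
      rw [eq_empty_iff_forall_notMem]
      intro y hy
      have h1 := (ho i).2 y hy
      rw [hc i] at h1
      have h2 := f1 y (by omega)
      rw [f3, cx_of_ge _ (by rw [hc i]; omega), cy_eq, cx_of_ge _ (by rw [hc i]; omega)] at h2
      simp only [filter_empty, card_empty, Nat.cast_zero] at h2
      have h3 : (filter (fun x => x ≤ y) (o i).2).card = 0 := by exact_mod_cast h2.symm
      rw [card_eq_zero, filter_eq_empty_iff] at h3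
      exact h3 hy le_rfl
    exact Prod.ext f3 f4
  have hgood : Valid c (fun _ => (∅, ∅) : Obj k) ∧ Good 0 c (fun _ => (∅, ∅) : Obj k) := by
    constructor
    · intro i
      exact ⟨by simp, by simp⟩
    · have hv : Valid c (fun _ => (∅, ∅) : Obj k) := by
        intro i
        exact ⟨by simp, by simp⟩
      have e1 : ∀ (i : Fin k) (u : ℤ), cx (c i) ∅ u = - max (0 - u) 0 := by
        intro i u; simp [cx, hc i]
      have e2 : ∀ (i : Fin k) (u : ℤ), cy (c i) ∅ u = - max (-1 - u) 0 := by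
        intro i u; simp [cy, hc i]
      have hmono : Monotone c := fun a b _ => by rw [hc a, hc b]
      have hHC : HC k 0 c := Or.inr ⟨rfl, hc⟩
      constructor
      · intro t ξ η hL
        have htk := hL.1
        have hg := low_ground hmono hHC hv hL ⟨t, htk⟩ rfl
        obtain ⟨_, hj, _, _, _⟩ := hL
        have e : t + 1 = (⟨t, htk⟩ : Fin k).val + 1 := rfl
        rw [e, DD_succ, DD_succ] at hj
        rw [hc] at hg
        simp only [e1] at hj
        omega
      · intro s η ξ hH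
        obtain ⟨i, hi⟩ := exists_index hH.1 hH.2.1
        have hg := high_ground hHC hv hH i hi.symm
        obtain ⟨_, _, hj, _, _, _⟩ := hH
        rw [hi, DD_succ, DD_succ] at hj
        rw [hc] at hg
        simp only [e2] at hj
        omega
  unfold ZZ
  rw [tsum_eq_single (⟨fun _ => (∅, ∅), hgood⟩ : {o : Obj k // Valid c o ∧ Good 0 c o})]
  · simp [wt, wa]
  · rintro ⟨o, ho⟩ hne
    exact absurd (Subtype.ext (key o ho)) hne

end obj

end Pool.Agent.CMPP
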