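import Mathlib
import Pool.Agent.Lib_helper28.CMPP.FixInv
import Pool.Agent.Lib_helper28.CMPP.GoodF

set_option autoImplicit false

open Finset

namespace Pool.Agent.CMPP

theorem inv_array (m ct : ℕ) (cs : ℤ → ℕ) (B : ℤ) (c1 : ∀ x, 1 ≤ cs x ∧ cs x ≤ m + 1)
    (c2 : ∀ x, cs x ≤ cs (x - 1) + 1) (c3 : ∀ x : ℤ, x ≤ ct → cs x = 2 * ct + 1)
    (c3' : 2 * ct + 1 ≤ m) (c4 : ∀ x, B < x → cs x = m + 1) :
    ∃ P : Arr, VA ct P ∧
      (∀ x : ℤ, ∀ c : ℕ, c ≤ m → (1 ≤ cx ct P.1 x - cy ct P.2 (x - c - 1) ↔ cs x ≤ c)) ∧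
      (∀ u w : ℤ, (m : ℤ) ≤ u - w → 0 ≤ cx ct P.1 u - cy ct P.2 w) := by
  classical
  set ws : ℤ → ℤ := fun x => x - cs x with hws
  have wmono : ∀ {x y : ℤ}, x ≤ y → ws x ≤ ws y := by
    intro x y h
    refine mono_of_step (f := ws) (fun u => ?_) h
    have := c2 u
    simp only [hws]
    omega
  set X : Finset ℤ := (Ioc (ct : ℤ) B).filter (fun x => cs x ≤ m ∧ cs x ≤ cs (x - 1)) with hX
  set Y : Finset ℤ := X.image ws with hY
  have memX : ∀ x, x ∈ X ↔ ((ct : ℤ) < x ∧ cs x ≤ m ∧ cs x ≤ cs (x - 1)) := by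
    intro x
    simp only [hX, mem_filter, mem_Ioc]
    constructor
    · rintro ⟨⟨h1, _⟩, h2, h3⟩; exact ⟨h1, h2, h3⟩
    · rintro ⟨h1, h2, h3⟩
      refine ⟨⟨h1, ?_⟩, h2, h3⟩
      by_contra h4
      have := c4 x (by omega)
      omega
  have hXv : ∀ x ∈ X, (ct : ℤ) < x := fun x hx => ((memX x).mp hx).1
  have wct : ws ct = -ct - 1 := by
    simp only [hws]
    rw [c3 ct le_rfl]
    push_cast
    ring
  have wlt : ∀ x ∈ X, ∀ y, y < x → ws y < ws x := by
    intro x hx y hy
    have h1 := (memX x).mp hx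
    have h2 : ws y ≤ ws (x - 1) := wmono (by omega)
    have h3 : ws (x - 1) < ws x := by
      simp only [hws]
      omega
    omega
  have winj : Set.InjOn ws X := by
    intro x hx y hy hxy
    rcases lt_trichotomy x y with h | h | h
    · have := wlt y hy x h; omega
    · exact h
    · have := wlt x hx y h; omega
  have hYv : ∀ y ∈ Y, (-ct : ℤ) ≤ y := by
    intro y hy
    simp only [hY, mem_image] at hy
    obtain ⟨x, hx, rfl⟩ := hy
    have := wlt x hx ct (hXv x hx)
    omega
  have hYv' : ∀ y ∈ Y, (-ct : ℤ) - 1 < y := fun y hy => by have := hYv y hy; omega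
  have key : ∀ u, cx ct X u = cy ct Y (ws u) := by
    intro u
    rw [cy_eq]
    rcases le_or_gt u ct with h | h
    · have e : ws u = u - 2 * ct - 1 := by
        simp only [hws]; rw [c3 u h]; push_cast; ring
      rw [cx_of_le hXv h, cx_of_le hYv' (by omega), e]
      ring
    · have h1 : ws ct ≤ ws u := wmono h.le
      rw [cx_of_ge _ h.le, cx_of_ge _ (by omega)]
      have e : Y.filter (fun y => y ≤ ws u) = (X.filter (fun x => x ≤ u)).image ws := by
        ext y
        simp only [hY, mem_filter, mem_image]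
        constructor
        · rintro ⟨⟨x, hx, rfl⟩, h2⟩
          refine ⟨x, ⟨hx, ?_⟩, rfl⟩
          by_contra h3
          have := wlt x hx u (by omega)
          omega
        · rintro ⟨x, ⟨hx, h2⟩, rfl⟩
          exact ⟨⟨x, hx, rfl⟩, wmono h2⟩
      rw [e, card_image_of_injOn (winj.mono (by
        intro x hx
        simp only [coe_filter, Set.mem_ofPred_eq] at hx
        exact hx.1))]
  -- jumps of b
  have jump : ∀ d : ℕ, ∀ x : ℤ, cs x = d → d ≤ m → (ws x ≤ -ct - 1 ∨ ws x ∈ Y) := by
    intro d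
    induction d with
    | zero => intro x hx; have := c1 x; omega
    | succ d ih =>
      intro x hx hd
      rcases le_or_gt x ct with h | h
      · left
        rw [← wct]
        exact wmono h
      · rcases Nat.lt_or_ge (cs (x - 1)) (cs x) with h1 | h1
        · have h2 : cs (x - 1) = d := by have := c2 x; omega
          have h3 : ws (x - 1) = ws x := by
            simp only [hws]
            rw [h2, hx]
            push_cast
            ring
          rw [← h3]
          exact ih (x - 1) h2 (by omega)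
        · right
          simp only [hY, mem_image]
          exact ⟨x, (memX x).mpr ⟨h, by omega, h1⟩, rfl⟩
  have bmono : ∀ {u v : ℤ}, u ≤ v → cy ct Y u ≤ cy ct Y v := by
    intro u v h
    exact mono_of_step (f := cy ct Y) (fun u => (cx_step' hYv' u).1) h
  refine ⟨(X, Y), ⟨hXv, hYv⟩, ?_, ?_⟩
  · intro x c hc
    simp only []
    rw [key x]
    constructor
    · intro h
      by_contra hcon
      push Not at hcon
      have : cy ct Y (ws x) ≤ cy ct Y (x - c - 1) := bmono (by simp only [hws]; omega)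
      omega
    · intro h
      have h1 := jump (cs x) x rfl (by omega)
      have h2 : cy ct Y (ws x - 1) < cy ct Y (ws x) := by
        rw [cy_eq, cy_eq]
        exact (cx_jump hYv').mpr h1
      have h3 : cy ct Y (x - c - 1) ≤ cy ct Y (ws x - 1) := bmono (by simp only [hws]; omega)
      omega
  · intro u w huw
    simp only []
    rw [key u]
    rcases Nat.lt_or_ge (cs u) (m + 1) with h | h
    · have : cy ct Y w ≤ cy ct Y (ws u) := bmono (by simp only [hws]; omega)
      omega
    · have h1 : cs u = m + 1 := by have := c1 u; omega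
      have h2 : ws u = u - m - 1 := by
        simp only [hws]; rw [h1]; push_cast; ring
      have hu : (ct : ℤ) < u := by
        by_contra hcon
        have := c3 u (by omega)
        omega
      have h3 : cy ct Y w ≤ cy ct Y (u - m) := bmono (by omega)
      have h4 : ¬ (u - m ≤ -(ct : ℤ) - 1 ∨ u - m ∈ Y) := by
        rintro (h5 | h5)
        · have h6 : ws ct ≤ ws u := wmono hu.le
          omega
        · simp only [hY, mem_image] at h5
          obtain ⟨x, hx, hx2⟩ := h5
          have h6 := ((memX x).mp hx).2.1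
          have h7 : u < x := by
            by_contra h8
            have := wmono (show x ≤ u by omega)
            omega
          simp only [hws] at hx2
          omega
      have h5 : cy ct Y (u - m) = cy ct Y (ws u) := by
        rw [cy_eq, cy_eq, cx_step hYv' (u - m), if_neg h4, h2]
        ring
      omega

variable {kf : ℕ → ℕ} {f : ℕ → ℕ → ℕ} {n N : ℕ}

lemma GG_far (hf : ∀ c i, f c i ≠ 0 → i ≤ N) (c : ℕ) (x : ℤ) (hx : (N : ℤ) + c < x) :
    GG kf f c x = 0 := by
  induction c generalizing x with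
  | zero => rfl
  | succ c ih =>
    push_cast at hx
    rw [GG_succ, ih (x - 1) (by omega), ih x (by omega)]
    have : fh kf f x (c + 1) = 0 := by
      unfold fh
      rw [if_pos (by push_cast; omega)]
      by_contra h
      have h1 := hf _ _ h
      have h2 : ((2 * x - ((c + 1 : ℕ) : ℤ)).toNat : ℤ) ≤ N := by exact_mod_cast h1
      rw [Int.toNat_of_nonneg (by push_cast; omega)] at h2
      push_cast at h2
      omega
    rw [this]
    simp

/-- (B2) every admissible array comes from a good configuration -/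
theorem exists_obj (hf : ∀ c i, f c i ≠ 0 → i ≤ N)
    (hK : ∀ x : ℤ, GG kf f (2 * n + 1) x ≤ KK kf n) :
    ∃ o : Obj (KK kf n), Valid (fun t => (cf n kf t : ℤ)) o ∧
      Good (2 * n + 1) (fun t => (cf n kf t : ℤ)) o ∧
      ∀ (i : Fin (KK kf n)) (c : ℕ), c ≤ 2 * n + 1 → ∀ x : ℤ,
        (1 ≤ DD (2 * n + 1) (fun t => (cf n kf t : ℤ)) o (i.val + 1) x (x - c - 1) ↔
          i.val + 1 ≤ GG kf f c x) := by
  have hex : ∀ i : Fin (KK kf n), ∃ P : Arr, VA (cf n kf i) P ∧
      (∀ x : ℤ, ∀ c : ℕ, c ≤ 2 * n + 1 → (1 ≤ cx (cf n kf i) P.1 x - cy (cf n kf i) P.2 (x - c - 1) ↔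
        cst kf f (2 * n + 1) (i.val + 1) x ≤ c)) ∧
      (∀ u w : ℤ, ((2 * n + 1 : ℕ) : ℤ) ≤ u - w →
        0 ≤ cx (cf n kf i) P.1 u - cy (cf n kf i) P.2 w) := by
    intro i
    obtain ⟨s1, s2, s3⟩ := cf_spec n kf i i.2
    refine inv_array (2 * n + 1) (cf n kf i) (cst kf f (2 * n + 1) (i.val + 1)) (N + (2 * n + 1 : ℕ))
      (fun x => ⟨cst_pos (by omega) x, cst_le _ _ _⟩) (fun x => cst_step x) ?_ (by omega) ?_
    · intro x hx
      apply le_antisymm
      · rw [cst_iff (by omega)]
        have := GG_ground (kf := kf) (f := f) (cf n kf i) x hx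
        omega
      · by_contra hcon
        push Not at hcon
        have h1 : cst kf f (2 * n + 1) (i.val + 1) x ≤ 2 * cf n kf i := by omega
        rw [cst_iff (by omega)] at h1
        have h2 := GG_bound (kf := kf) (f := f) n (cf n kf i) s1 hK hx (c := 2 * cf n kf i) le_rfl
        omega
    · intro x hx
      apply le_antisymm (cst_le _ _ _)
      by_contra hcon
      push Not at hcon
      have h1 : cst kf f (2 * n + 1) (i.val + 1) x ≤ 2 * n + 1 := by omega
      rw [cst_iff le_rfl, GG_far hf _ x hx] at h1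
      omega
  choose P hP1 hP2 hP3 using hex
  have hv : Valid (fun t : Fin (KK kf n) => (cf n kf t : ℤ)) P := fun i => hP1 i
  have hD := cfg_obj (2 * n + 1) (fun t : Fin (KK kf n) => (cf n kf t : ℤ)) P hv
  have hiff : ∀ (i : Fin (KK kf n)) (c : ℕ), c ≤ 2 * n + 1 → ∀ x : ℤ,
        (1 ≤ DD (2 * n + 1) (fun t => (cf n kf t : ℤ)) P (i.val + 1) x (x - c - 1) ↔
          i.val + 1 ≤ GG kf f c x) := by
    intro i c hc x
    rw [DD_succ, hP2 i x c hc, cst_iff hc]
  refine ⟨P, hv, ⟨?_, ?_⟩, hiff⟩
  · rintro t ξ η ⟨htk, hj, hη, h0, h1⟩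
    rcases le_or_gt (ξ - η) 1 with h2 | h2
    · have h3 : DD (2 * n + 1) (fun t : Fin (KK kf n) => (cf n kf t : ℤ)) P (t + 1) ξ η ≤
        DD (2 * n + 1) (fun t : Fin (KK kf n) => (cf n kf t : ℤ)) P (t + 1) ξ (ξ - (0 : ℕ) - 1) :=
        hD.mono (by omega) le_rfl (by push_cast; omega)
      have h4 := (hiff ⟨t, htk⟩ 0 (by omega) ξ)
      simp only [GG_zero] at h4
      omega
    · obtain ⟨c, hc⟩ : ∃ c : ℕ, η = ξ - c - 1 := ⟨(ξ - η - 1).toNat, by
        rw [Int.toNat_of_nonneg (by omega)]; ring⟩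
      subst hc
      have hcm : c ≤ 2 * n + 1 := by push_cast at hη; omega
      have h4 := (hiff ⟨t, htk⟩ c hcm ξ).mp h1
      rcases Nat.eq_zero_or_pos t with h5 | h5
      · subst h5
        rw [hD.zero, if_neg (by omega)] at h0
        omega
      · obtain ⟨j, hj⟩ := exists_index (k := KK kf n) (s := t) h5 (by omega)
        have h6 := (hiff j c hcm ξ)
        rw [← hj] at h6
        simp only at h4
        omega
  · rintro s η ξ ⟨hs1, hsk, hj, hξ, h0, h1⟩
    obtain ⟨i, rfl⟩ := exists_index hs1 hsk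
    rw [DD_succ] at h0
    have := hP3 i ξ η (by omega)
    omega

end Pool.Agent.CMPP
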