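import Mathlib
import Pool.Agent.Lib_helper28.CMPP.FixInv2

set_option autoImplicit false

open Finset

namespace Pool.Agent.CMPP

section

variable {kf : ℕ → ℕ} {n : ℕ}

/-- ground levels -/
abbrev cc (n : ℕ) (kf : ℕ → ℕ) : Fin (KK kf n) → ℤ := fun t => (cf n kf t : ℤ)

open Classical in
/-- the coloured partition attached to a configuration -/
noncomputable def fo {k : ℕ} (n : ℕ) (c : Fin k → ℤ) (o : Obj k) (d i : ℕ) : ℕ :=
  if 1 ≤ d ∧ d ≤ 2 * n + 1 ∧ 1 ≤ i ∧ Even (d + i) then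
    (univ.filter (fun t : Fin k =>
      cx (c t) (o t).1 (((i : ℤ) + d) / 2 - 1) < cx (c t) (o t).1 (((i : ℤ) + d) / 2) ∧
      cy (c t) (o t).2 (((i : ℤ) + d) / 2 - d - 1) < cy (c t) (o t).2 (((i : ℤ) + d) / 2 - d) ∧
      cx (c t) (o t).1 (((i : ℤ) + d) / 2) = cy (c t) (o t).2 (((i : ℤ) + d) / 2 - d))).card
  else 0

open Classical in
def A1Stmt (n : ℕ) (kf : ℕ → ℕ) : Prop :=
  ∀ o : Obj (KK kf n), Valid (cc n kf) o → Good (2 * n + 1) (cc n kf) o →
    ∀ (d : ℕ), d ≤ 2 * n + 1 → ∀ x : ℤ,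
      GG kf (fo n (cc n kf) o) d x = (univ.filter (fun t : Fin (KK kf n) =>
        1 ≤ DD (2 * n + 1) (cc n kf) o (t.val + 1) x (x - d - 1))).card

def A2Stmt (n : ℕ) (kf : ℕ → ℕ) : Prop :=
  ∀ o : Obj (KK kf n), Valid (cc n kf) o → Good (2 * n + 1) (cc n kf) o →
    ∃ N : ℕ, wt o = N ∧ (∀ d i, fo n (cc n kf) o d i ≠ 0 → i ≤ N) ∧
      ∑ d ∈ Icc 1 (2 * n + 1), ∑ i ∈ Icc 1 N, i * fo n (cc n kf) o d i = N

/-- the set of `t` with `D ≥ 1` is an initial segment -/
lemma card_iff (o : Obj (KK kf n)) (ho : Valid (cc n kf) o) (hg : Good (2 * n + 1) (cc n kf) o)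
    (d : ℕ) (hd : d ≤ 2 * n + 1) (x : ℤ) (i : Fin (KK kf n)) :
    (1 ≤ DD (2 * n + 1) (cc n kf) o (i.val + 1) x (x - d - 1) ↔
      i.val + 1 ≤ (univ.filter (fun t : Fin (KK kf n) =>
        1 ≤ DD (2 * n + 1) (cc n kf) o (t.val + 1) x (x - d - 1))).card) := by
  classical
  have hD := cfg_obj (2 * n + 1) (cc n kf) o ho
  have hdown : ∀ j : Fin (KK kf n), 1 ≤ DD (2 * n + 1) (cc n kf) o (j.val + 1) x (x - d - 1) →
      ∀ l : Fin (KK kf n), l ≤ j → 1 ≤ DD (2 * n + 1) (cc n kf) o (l.val + 1) x (x - d - 1) := by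
    have key : ∀ e : ℕ, ∀ j : Fin (KK kf n), ∀ l : Fin (KK kf n), l.val + e = j.val →
        1 ≤ DD (2 * n + 1) (cc n kf) o (j.val + 1) x (x - d - 1) →
        1 ≤ DD (2 * n + 1) (cc n kf) o (l.val + 1) x (x - d - 1) := by
      intro e
      induction e with
      | zero =>
        intro j l hlj h
        have : l = j := Fin.ext (by omega)
        rw [this]; exact h
      | succ e ih =>
        intro j l hlj h
        have h1 := good_G3 hD hg.1 (t := j.val) j.2 (u := x) (w := x - d - 1) (by push_cast; omega) h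
        have hj : 1 ≤ j.val := by omega
        obtain ⟨j', hj'⟩ := exists_index (k := KK kf n) (s := j.val) hj j.2.le
        rw [hj'] at h1
        exact ih j' l (by omega) h1
    intro j hj l hl
    exact key (j.val - l.val) j l (by have := Fin.le_def.mp hl; omega) hj
  constructor
  · intro h
    have hsub : Iic i ⊆ univ.filter (fun t : Fin (KK kf n) =>
        1 ≤ DD (2 * n + 1) (cc n kf) o (t.val + 1) x (x - d - 1)) := by
      intro l hl
      rw [mem_Iic] at hl
      exact mem_filter.mpr ⟨mem_univ _, hdown i h l hl⟩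
    have := card_le_card hsub
    rwa [Fin.card_Iic] at this
  · intro h
    by_contra hcon
    have hsub : univ.filter (fun t : Fin (KK kf n) =>
        1 ≤ DD (2 * n + 1) (cc n kf) o (t.val + 1) x (x - d - 1)) ⊆ Iio i := by
      intro l hl
      rw [mem_Iio]
      by_contra h2
      exact hcon (hdown l (mem_filter.mp hl).2 i (not_lt.mp h2))
    have := card_le_card hsub
    rw [Fin.card_Iio] at this
    omega

/-- discrete intermediate value theorem -/
lemma divt (φ : ℕ → ℤ) (M : ℕ) (h0 : φ 0 ≤ 0) (hst : ∀ e, φ (e + 1) ≤ φ e + 1) (hM : 0 ≤ φ M) :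
    ∃ d, d ≤ M ∧ φ d = 0 := by
  classical
  have hex : ∃ d, 0 ≤ φ d := ⟨M, hM⟩
  refine ⟨Nat.find hex, Nat.find_min' hex hM, ?_⟩
  have h1 := Nat.find_spec hex
  rcases Nat.eq_zero_or_pos (Nat.find hex) with h2 | h2
  · rw [h2] at h1 ⊢
    omega
  · have h3 := Nat.find_min hex (m := Nat.find hex - 1) (by omega)
    have h4 := hst (Nat.find hex - 1)
    rw [show Nat.find hex - 1 + 1 = Nat.find hex by omega] at h4
    omega

/-- (A3) injectivity -/
lemma obj_ext (o o' : Obj (KK kf n)) (ho : Valid (cc n kf) o) (hg : Good (2 * n + 1) (cc n kf) o)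
    (ho' : Valid (cc n kf) o') (hg' : Good (2 * n + 1) (cc n kf) o')
    (h : ∀ (i : Fin (KK kf n)) (d : ℕ), d ≤ 2 * n + 1 → ∀ x : ℤ,
      (1 ≤ DD (2 * n + 1) (cc n kf) o (i.val + 1) x (x - d - 1) ↔
        1 ≤ DD (2 * n + 1) (cc n kf) o' (i.val + 1) x (x - d - 1))) : o = o' := by
  classical
  have key : ∀ o : Obj (KK kf n), Valid (cc n kf) o → Good (2 * n + 1) (cc n kf) o → ∀ i,
      (∀ x : ℤ, x ∈ (o i).1 ↔ (cc n kf i < x ∧ ∃ d : ℕ, d + 1 ≤ 2 * n + 1 ∧
        1 ≤ DD (2 * n + 1) (cc n kf) o (i.val + 1) x (x - (d + 1 : ℕ) - 1) ∧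
        ¬ 1 ≤ DD (2 * n + 1) (cc n kf) o (i.val + 1) (x - 1) ((x - 1) - d - 1))) ∧
      (∀ y : ℤ, y ∈ (o i).2 ↔ (-cc n kf i ≤ y ∧ ∃ d : ℕ, d + 1 ≤ 2 * n + 1 ∧
        1 ≤ DD (2 * n + 1) (cc n kf) o (i.val + 1) (y + (d + 1 : ℕ)) ((y + (d + 1 : ℕ)) - (d + 1 : ℕ) - 1) ∧
        ¬ 1 ≤ DD (2 * n + 1) (cc n kf) o (i.val + 1) (y + (d + 1 : ℕ)) ((y + (d + 1 : ℕ)) - d - 1))) := by
    intro o ho hg i
    have hD := cfg_obj (2 * n + 1) (cc n kf) o ho
    have hX := hXv ho i
    have hY := hYv ho i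
    have hci : 0 ≤ cc n kf i := by simp only [cc]; positivity
    have hcn : cc n kf i ≤ n := by
      simp only [cc]
      exact_mod_cast (cf_spec n kf i i.2).1
    have g1 : ∀ u w : ℤ, u - w ≤ 1 → cx (cc n kf i) (o i).1 u - cy (cc n kf i) (o i).2 w ≤ 0 := by
      intro u w huw
      have := good_G1 hD hg.1 (t := i.val + 1) (by have := i.2; omega) huw
      rwa [DD_succ] at this
    have g2 : ∀ u w : ℤ, ((2 * n + 1 : ℕ) : ℤ) ≤ u - w → 0 ≤ u →
        0 ≤ cx (cc n kf i) (o i).1 u - cy (cc n kf i) (o i).2 w := by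
      intro u w huw hu
      have := good_G2 hD hg.2 (s := i.val + 1) (by omega) (by have := i.2; omega) huw hu
      rwa [DD_succ] at this
    constructor
    · intro x
      constructor
      · intro hx
        have hx0 := hX x hx
        refine ⟨hx0, ?_⟩
        have hj := (cx_jump hX (u := x)).mpr (Or.inr hx)
        have hst := cx_step' hX x
        obtain ⟨d, hd, h0⟩ := divt (fun d : ℕ => cx (cc n kf i) (o i).1 (x - 1) -
            cy (cc n kf i) (o i).2 (x - 2 - d)) (2 * n) (g1 _ _ (by push_cast; omega))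
          (fun e => by
            have := (cx_step' hY (x - 2 - e)).2
            rw [← cy_eq, ← cy_eq] at this
            have e1 : x - 2 - ((e + 1 : ℕ) : ℤ) = x - 2 - e - 1 := by push_cast; ring
            simp only [e1]
            omega) (g2 _ _ (by push_cast; omega) (by omega))
        refine ⟨d, by omega, ?_, ?_⟩
        · rw [DD_succ]
          have e : x - ((d + 1 : ℕ) : ℤ) - 1 = x - 2 - d := by push_cast; ring
          rw [e]
          omega
        · rw [DD_succ]
          have e : x - 1 - (d : ℤ) - 1 = x - 2 - d := by ring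
          rw [e]
          omega
      · rintro ⟨h1, d, hd, h2, h3⟩
        rw [DD_succ] at h2 h3
        have e : x - 1 - (d : ℤ) - 1 = x - ((d + 1 : ℕ) : ℤ) - 1 := by push_cast; ring
        rw [e] at h3
        have : cx (cc n kf i) (o i).1 (x - 1) < cx (cc n kf i) (o i).1 x := by omega
        rw [cx_jump hX] at this
        rcases this with h | h
        · omega
        · exact h
    · intro y
      constructor
      · intro hy
        have hy0 := hY y hy
        refine ⟨by omega, ?_⟩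
        have hj := (cx_jump hY (u := y)).mpr (Or.inr hy)
        rw [← cy_eq, ← cy_eq] at hj
        obtain ⟨d, hd, h0⟩ := divt (fun d : ℕ => cx (cc n kf i) (o i).1 (y + 1 + d) -
            cy (cc n kf i) (o i).2 y) (2 * n) (g1 _ _ (by push_cast; omega))
          (fun e => by
            have := (cx_step' hX (y + 1 + e + 1)).2
            have e1 : y + 1 + ((e + 1 : ℕ) : ℤ) = y + 1 + e + 1 := by push_cast; ring
            rw [show y + 1 + (e : ℤ) + 1 - 1 = y + 1 + e by ring] at this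
            simp only [e1]
            omega) (g2 _ _ (by push_cast; omega) (by push_cast; omega))
        have e3 : y + ((d + 1 : ℕ) : ℤ) = y + 1 + d := by push_cast; ring
        refine ⟨d, by omega, ?_, ?_⟩
        · rw [DD_succ, e3]
          have e : y + 1 + (d : ℤ) - ((d + 1 : ℕ) : ℤ) - 1 = y - 1 := by push_cast; ring
          rw [e]
          omega
        · rw [DD_succ, e3]
          have e : y + 1 + (d : ℤ) - (d : ℤ) - 1 = y := by ring
          rw [e]
          omega
      · rintro ⟨h1, d, hd, h2, h3⟩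
        rw [DD_succ] at h2 h3
        have e : y + ((d + 1 : ℕ) : ℤ) - ((d + 1 : ℕ) : ℤ) - 1 = y - 1 := by ring
        have e' : y + ((d + 1 : ℕ) : ℤ) - (d : ℤ) - 1 = y := by push_cast; ring
        rw [e] at h2
        rw [e'] at h3
        have : cy (cc n kf i) (o i).2 (y - 1) < cy (cc n kf i) (o i).2 y := by omega
        rw [cy_eq, cy_eq, cx_jump hY] at this
        rcases this with h | h
        · omega
        · exact h
  have key1 := key o ho hg
  have key2 := key o' ho' hg'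
  funext i
  apply Prod.ext
  · ext x
    rw [(key1 i).1 x, (key2 i).1 x]
    constructor
    · rintro ⟨h1, d, hd, h2, h3⟩
      exact ⟨h1, d, hd, (h i (d + 1) hd x).mp h2, fun h4 => h3 ((h i d (by omega) (x - 1)).mpr h4)⟩
    · rintro ⟨h1, d, hd, h2, h3⟩
      exact ⟨h1, d, hd, (h i (d + 1) hd x).mpr h2, fun h4 => h3 ((h i d (by omega) (x - 1)).mp h4)⟩
  · ext y
    rw [(key1 i).2 y, (key2 i).2 y]
    constructor
    · rintro ⟨h1, d, hd, h2, h3⟩
      exact ⟨h1, d, hd, (h i (d + 1) hd _).mp h2, fun h4 => h3 ((h i d (by omega) _).mpr h4)⟩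
    · rintro ⟨h1, d, hd, h2, h3⟩
      exact ⟨h1, d, hd, (h i (d + 1) hd _).mpr h2, fun h4 => h3 ((h i d (by omega) _).mp h4)⟩

end

end Pool.Agent.CMPP
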