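import Mathlib
import Pool.Agent.Lib_helper28.CMPP.Fo

set_option autoImplicit false

open Finset

namespace Pool.Agent.CMPP

section

variable {kf : ℕ → ℕ} {n : ℕ}

/-- the number of arrays with boundary colour `j` -/
lemma card_cf (n : ℕ) (kf : ℕ → ℕ) (j : ℕ) (hj : j ≤ n) :
    (univ.filter (fun t : Fin (KK kf n) => cf n kf t = j)).card = kf j := by
  classical
  have h1 : ∀ t : Fin (KK kf n), cf n kf t = j ↔
      (∑ l ∈ range j, kf l ≤ t.val ∧ t.val < ∑ l ∈ range (j + 1), kf l) := by
    intro t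
    obtain ⟨s1, s2, s3⟩ := cf_spec n kf t t.2
    constructor
    · rintro rfl
      exact ⟨s3, s2⟩
    · rintro ⟨h1, h2⟩
      rcases Nat.lt_trichotomy (cf n kf t) j with h | h | h
      · exfalso
        have h3 : ∑ l ∈ range (cf n kf t + 1), kf l ≤ ∑ l ∈ range j, kf l :=
          sum_le_sum_of_subset (fun x hx => by rw [mem_range] at hx ⊢; omega)
        unfold KK at s2
        omega
      · exact h
      · exfalso
        have h3 : ∑ l ∈ range (j + 1), kf l ≤ ∑ l ∈ range (cf n kf t), kf l :=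
          sum_le_sum_of_subset (fun x hx => by rw [mem_range] at hx ⊢; omega)
        omega
  have h2 : ∑ l ∈ range (j + 1), kf l ≤ KK kf n :=
    sum_le_sum_of_subset (fun x hx => by rw [mem_range] at hx ⊢; omega)
  have h3 : (univ.filter (fun t : Fin (KK kf n) => cf n kf t = j)).map Fin.valEmbedding =
      Ico (∑ l ∈ range j, kf l) (∑ l ∈ range (j + 1), kf l) := by
    ext x
    simp only [mem_map, mem_filter, mem_univ, true_and, Fin.valEmbedding_apply, mem_Ico]
    constructor
    · rintro ⟨t, ht, rfl⟩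
      exact (h1 t).mp ht
    · intro hx
      exact ⟨⟨x, by omega⟩, (h1 _).mpr hx, rfl⟩
  rw [← card_map Fin.valEmbedding, h3, Nat.card_Ico, sum_range_succ]
  omega

/-- ground corners -/
lemma corner_ground {c : ℤ} {P : Arr} (hP : VA c P) {x y : ℤ} (hxy : x + y ≤ 0) :
    (cx c P.1 (x - 1) < cx c P.1 x ∧ cy c P.2 (y - 1) < cy c P.2 y ∧ cx c P.1 x = cy c P.2 y) ↔
      (x ≤ c ∧ y = x - 2 * c - 1) := by
  have hX := hP.1
  have hY : ∀ y ∈ P.2, -c - 1 < y := fun y hy => by have := hP.2 y hy; omega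
  simp only [cy_eq]
  constructor
  · rintro ⟨h1, h2, h3⟩
    rcases le_or_gt x c with h | h
    · refine ⟨h, ?_⟩
      rw [cx_of_le hX h] at h3
      rcases le_or_gt y (-c - 1) with h4 | h4
      · rw [cx_of_le hY h4] at h3
        omega
      · exfalso
        have h5 := cx_nonneg_of_ge (c := -c - 1) P.2 (u := y - 1) (by omega)
        omega
    · exfalso
      have h5 := cx_nonneg_of_ge (c := c) P.1 (u := x - 1) (by omega)
      have h6 : -c - 1 < y := by
        by_contra h7
        rw [cx_of_le hY (show y ≤ -c - 1 by omega)] at h3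
        omega
      omega
  · rintro ⟨h1, h2⟩
    have h3 : y ≤ -c - 1 := by omega
    refine ⟨(cx_jump hX).mpr (Or.inl h1), (cx_jump hY).mpr (Or.inl h3), ?_⟩
    rw [cx_of_le hX h1, cx_of_le hY h3]
    omega

/-- `fh` of the attached partition counts corners -/
lemma fh_fo (o : Obj (KK kf n)) (ho : Valid (cc n kf) o) (d : ℕ) (hd : d + 1 ≤ 2 * n + 1) (x : ℤ) :
    fh kf (fo n (cc n kf) o) x (d + 1) = (univ.filter (fun t : Fin (KK kf n) =>
      cx (cc n kf t) (o t).1 (x - 1) < cx (cc n kf t) (o t).1 x ∧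
      cy (cc n kf t) (o t).2 (x - (d + 1 : ℕ) - 1) < cy (cc n kf t) (o t).2 (x - (d + 1 : ℕ)) ∧
      cx (cc n kf t) (o t).1 x = cy (cc n kf t) (o t).2 (x - (d + 1 : ℕ)))).card := by
  classical
  unfold fh
  by_cases h : 1 ≤ 2 * x - ((d + 1 : ℕ) : ℤ)
  · rw [if_pos h]
    unfold fo
    have hi : (((2 * x - ((d + 1 : ℕ) : ℤ)).toNat : ℕ) : ℤ) = 2 * x - ((d + 1 : ℕ) : ℤ) :=
      Int.toNat_of_nonneg (by omega)
    have hev : Even (d + 1 + (2 * x - ((d + 1 : ℕ) : ℤ)).toNat) := by
      have : Even (((d + 1 + (2 * x - ((d + 1 : ℕ) : ℤ)).toNat : ℕ)) : ℤ) :=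
        ⟨x, by rw [Nat.cast_add, hi]; ring⟩
      exact_mod_cast this
    rw [if_pos ⟨by omega, hd, by omega, hev⟩]
    have hx : ((((2 * x - ((d + 1 : ℕ) : ℤ)).toNat : ℕ) : ℤ) + ((d + 1 : ℕ) : ℤ)) / 2 = x := by
      rw [hi]; omega
    rw [hx]
  · rw [if_neg h]
    have hc : ∀ t : Fin (KK kf n), (cx (cc n kf t) (o t).1 (x - 1) < cx (cc n kf t) (o t).1 x ∧
      cy (cc n kf t) (o t).2 (x - (d + 1 : ℕ) - 1) < cy (cc n kf t) (o t).2 (x - (d + 1 : ℕ)) ∧
      cx (cc n kf t) (o t).1 x = cy (cc n kf t) (o t).2 (x - (d + 1 : ℕ))) ↔ 2 * cf n kf t = d := by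
      intro t
      rw [corner_ground (ho t) (by omega)]
      simp only [cc]
      constructor
      · rintro ⟨h1, h2⟩; push_cast at h2; omega
      · intro h1; push_cast at h ⊢; omega
    simp only [hc]
    by_cases h2 : Odd (d + 1)
    · rw [if_pos h2]
      obtain ⟨j, hj⟩ := h2
      have hd2 : d = 2 * j := by omega
      subst hd2
      have : ∀ t : Fin (KK kf n), 2 * cf n kf t = 2 * j ↔ cf n kf t = j := fun t => by omega
      simp only [this]
      have e0 : (2 * j + 1 - 1) / 2 = j := by omega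
      rw [e0, card_cf n kf j (by omega)]
    · rw [if_neg h2]
      symm
      rw [card_eq_zero, filter_eq_empty_iff]
      intro t _ h3
      apply h2
      exact ⟨cf n kf t, by omega⟩

theorem A1 (n : ℕ) (kf : ℕ → ℕ) : A1Stmt n kf := by
  classical
  intro o ho hg d
  have hD := cfg_obj (2 * n + 1) (cc n kf) o ho
  induction d with
  | zero =>
    intro _ x
    rw [GG_zero]
    symm
    rw [card_eq_zero, filter_eq_empty_iff]
    intro t _ h
    have := good_G1 hD hg.1 (t := t.val + 1) (by have := t.2; omega) (u := x)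
      (w := x - ((0 : ℕ) : ℤ) - 1) (by push_cast; omega)
    omega
  | succ d ih =>
    intro hd x
    have i1 := ih (by omega) (x - 1)
    have i2 := ih (by omega) x
    rw [GG_succ, fh_fo o ho d hd x, i1, i2]
    set R := univ.filter (fun t : Fin (KK kf n) =>
        1 ≤ DD (2 * n + 1) (cc n kf) o (t.val + 1) x (x - (d + 1 : ℕ) - 1)) with hR
    set R1 := univ.filter (fun t : Fin (KK kf n) =>
        1 ≤ DD (2 * n + 1) (cc n kf) o (t.val + 1) (x - 1) (x - 1 - d - 1)) with hR1
    set R2 := univ.filter (fun t : Fin (KK kf n) =>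
        1 ≤ DD (2 * n + 1) (cc n kf) o (t.val + 1) x (x - d - 1)) with hR2
    set C := univ.filter (fun t : Fin (KK kf n) =>
      cx (cc n kf t) (o t).1 (x - 1) < cx (cc n kf t) (o t).1 x ∧
      cy (cc n kf t) (o t).2 (x - (d + 1 : ℕ) - 1) < cy (cc n kf t) (o t).2 (x - (d + 1 : ℕ)) ∧
      cx (cc n kf t) (o t).1 x = cy (cc n kf t) (o t).2 (x - (d + 1 : ℕ))) with hC
    -- R1, R2 are initial segments, hence comparable
    have hmax : max R1.card R2.card = (R1 ∪ R2).card := by
      have seg1 : ∀ t : Fin (KK kf n), t ∈ R1 ↔ t.val + 1 ≤ R1.card := by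
        intro t
        have := card_iff o ho hg d (by omega) (x - 1) t
        simp only [hR1, mem_filter, mem_univ, true_and]
        exact this
      have seg2 : ∀ t : Fin (KK kf n), t ∈ R2 ↔ t.val + 1 ≤ R2.card := by
        intro t
        have := card_iff o ho hg d (by omega) x t
        simp only [hR2, mem_filter, mem_univ, true_and]
        exact this
      rcases le_total R1.card R2.card with h | h
      · rw [max_eq_right h, union_eq_right.mpr (fun t ht => (seg2 t).mpr (by have := (seg1 t).mp ht; omega))]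
      · rw [max_eq_left h, union_eq_left.mpr (fun t ht => (seg1 t).mpr (by have := (seg2 t).mp ht; omega))]
    rw [hmax]
    have hX := fun t => hXv ho t
    have hY := fun t => hYv ho t
    have hdisj : Disjoint C (R1 ∪ R2) := by
      rw [disjoint_left]
      intro t ht h1
      simp only [hC, mem_filter, mem_univ, true_and] at ht
      obtain ⟨c1, c2, c3⟩ := ht
      have s1 := cx_step' (hX t) x
      have s2 := cx_step' (hY t) (x - (d + 1 : ℕ))
      rw [← cy_eq, ← cy_eq] at s2
      rw [mem_union] at h1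
      rcases h1 with h1 | h1
      · simp only [hR1, mem_filter, mem_univ, true_and, DD_succ] at h1
        have e : x - 1 - (d : ℤ) - 1 = x - ((d + 1 : ℕ) : ℤ) - 1 := by push_cast; ring
        rw [e] at h1
        omega
      · simp only [hR2, mem_filter, mem_univ, true_and, DD_succ] at h1
        have e : x - (d : ℤ) - 1 = x - ((d + 1 : ℕ) : ℤ) := by push_cast; ring
        rw [e] at h1
        omega
    rw [← card_union_of_disjoint hdisj]
    congr 1
    ext t
    have s1 := cx_step' (hX t) x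
    have s2 := cx_step' (hY t) (x - (d + 1 : ℕ))
    rw [← cy_eq, ← cy_eq] at s2
    have e1 : x - 1 - (d : ℤ) - 1 = x - ((d + 1 : ℕ) : ℤ) - 1 := by push_cast; ring
    have e2 : x - (d : ℤ) - 1 = x - ((d + 1 : ℕ) : ℤ) := by push_cast; ring
    simp only [hC, hR, hR1, hR2, mem_union, mem_filter, mem_univ, true_and, DD_succ, e1, e2]
    omega

end

end Pool.Agent.CMPP
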