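import Mathlib
import Pool.Agent.Lib_helper28.CMPP.A1

set_option autoImplicit false

open Finset

namespace Pool.Agent.CMPP

lemma fo_supp' {n k : ℕ} (c : Fin k → ℤ) (o : Obj k) {d i : ℕ} (h : fo n c o d i ≠ 0) :
    1 ≤ d ∧ d ≤ 2 * n + 1 ∧ 1 ≤ i ∧ Even (d + i) := by
  unfold fo at h
  by_contra hcon
  rw [if_neg hcon] at h
  exact h rfl

lemma match_exists {e : ℤ} {Y : Finset ℤ} (hY : ∀ y ∈ Y, e < y) {v : ℤ} (h1 : 1 ≤ v)
    (h2 : v ≤ Y.card) : ∃ y ∈ Y, cx e Y y = v := by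
  obtain ⟨u0, hu0⟩ := cx_top e Y
  obtain ⟨M, hM⟩ : ∃ M : ℕ, u0 ≤ e + M := ⟨(u0 - e).toNat, by omega⟩
  obtain ⟨d, hd, h0⟩ := divt (fun d : ℕ => cx e Y (e + d) - v) M
    (by simp only [Nat.cast_zero, add_zero]; rw [cx_of_le hY le_rfl]; omega)
    (fun a => by
      have := (cx_step' hY (e + a + 1)).2
      rw [show e + (a : ℤ) + 1 - 1 = e + a by ring] at this
      have e1 : e + ((a + 1 : ℕ) : ℤ) = e + a + 1 := by push_cast; ring
      simp only [e1]
      omega)
    (by rw [hu0 _ hM]; omega)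
  obtain ⟨ξ, g1, g2, g3⟩ := exists_jump (f := cx e Y) (fun u => (cx_step' hY u).1)
    (fun N => cx_bot hY N) (e + d)
  rw [cx_jump hY] at g2
  rcases g2 with g2 | g2
  · exfalso
    rw [cx_of_le hY g2] at g3
    omega
  · exact ⟨ξ, g2, by omega⟩

lemma match_unique {e : ℤ} {Y : Finset ℤ} (hY : ∀ y ∈ Y, e < y) {y y' : ℤ} (h1 : y ∈ Y)
    (h2 : y' ∈ Y) (h : cx e Y y = cx e Y y') : y = y' := by
  rcases lt_trichotomy y y' with h3 | h3 | h3
  · have a1 := (cx_jump hY (u := y')).mpr (Or.inr h2)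
    have a2 : cx e Y y ≤ cx e Y (y' - 1) :=
      mono_of_step (f := cx e Y) (fun u => (cx_step' hY u).1) (by omega)
    omega
  · exact h3
  · have a1 := (cx_jump hY (u := y)).mpr (Or.inr h1)
    have a2 : cx e Y y' ≤ cx e Y (y - 1) :=
      mono_of_step (f := cx e Y) (fun u => (cx_step' hY u).1) (by omega)
    omega

lemma cx_range {e : ℤ} {Y : Finset ℤ} (hY : ∀ y ∈ Y, e < y) {y : ℤ} (h1 : y ∈ Y) :
    1 ≤ cx e Y y ∧ cx e Y y ≤ Y.card := by
  have h2 := hY y h1
  rw [cx_of_ge Y h2.le]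
  constructor
  · have : 0 < (Y.filter (fun x => x ≤ y)).card := card_pos.mpr ⟨y, mem_filter.mpr ⟨h1, le_rfl⟩⟩
    omega
  · exact_mod_cast card_filter_le _ _

/-- matched pairs -/
def TT (c : ℤ) (P : Arr) : Finset (ℤ × ℤ) := (P.1 ×ˢ P.2).filter (fun p => cx c P.1 p.1 = cy c P.2 p.2)

lemma TT_sum {c : ℤ} {P : Arr} (hP : VA c P) (hch : ch P = 0) :
    ∑ p ∈ TT c P, (p.1 + p.2) = wa P := by
  have hX := hP.1
  have hY : ∀ y ∈ P.2, -c - 1 < y := fun y hy => by have := hP.2 y hy; omega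
  have hcard : (P.1.card : ℤ) = P.2.card := by unfold ch at hch; omega
  rw [sum_add_distrib, wa]
  congr 1
  · refine sum_bij (fun p _ => p.1) ?_ ?_ ?_ ?_
    · intro p hp
      simp only [TT, mem_filter, mem_product] at hp
      exact hp.1.1
    · rintro ⟨x, y⟩ hp ⟨x', y'⟩ hp' h
      simp only [TT, mem_filter, mem_product] at hp hp' h
      obtain ⟨⟨a1, a2⟩, a3⟩ := hp
      obtain ⟨⟨b1, b2⟩, b3⟩ := hp'
      subst h
      rw [Prod.mk.injEq]
      exact ⟨rfl, match_unique hY a2 b2 (by rw [← cy_eq, ← cy_eq, ← a3, b3])⟩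
    · intro x hx
      have hr := cx_range hX hx
      obtain ⟨y, hy, hy2⟩ := match_exists hY hr.1 (by omega)
      refine ⟨(x, y), ?_, rfl⟩
      simp only [TT, mem_filter, mem_product]
      exact ⟨⟨hx, hy⟩, by rw [cy_eq, hy2]⟩
    · intro p _; rfl
  · refine sum_bij (fun p _ => p.2) ?_ ?_ ?_ ?_
    · intro p hp
      simp only [TT, mem_filter, mem_product] at hp
      exact hp.1.2
    · rintro ⟨x, y⟩ hp ⟨x', y'⟩ hp' h
      simp only [TT, mem_filter, mem_product] at hp hp' h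
      obtain ⟨⟨a1, a2⟩, a3⟩ := hp
      obtain ⟨⟨b1, b2⟩, b3⟩ := hp'
      subst h
      rw [Prod.mk.injEq]
      exact ⟨match_unique hX a1 b1 (by rw [a3, b3]), rfl⟩
    · intro y hy
      have hr := cx_range hY hy
      obtain ⟨x, hx, hx2⟩ := match_exists hX hr.1 (by omega)
      refine ⟨(x, y), ?_, rfl⟩
      simp only [TT, mem_filter, mem_product]
      exact ⟨⟨hx, hy⟩, by rw [cy_eq, hx2]⟩
    · intro p _; rfl

section

variable {kf : ℕ → ℕ} {n : ℕ}

/-- the corner predicate -/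
def Cor (c : ℤ) (P : Arr) (x y : ℤ) : Prop :=
  cx c P.1 (x - 1) < cx c P.1 x ∧ cy c P.2 (y - 1) < cy c P.2 y ∧ cx c P.1 x = cy c P.2 y

lemma Cor_iff {c : ℤ} {P : Arr} (hP : VA c P) {x y : ℤ} (hxy : 1 ≤ x + y) :
    Cor c P x y ↔ (x, y) ∈ TT c P := by
  have hX := hP.1
  have hY : ∀ y ∈ P.2, -c - 1 < y := fun y hy => by have := hP.2 y hy; omega
  simp only [TT, mem_filter, mem_product, Cor]
  constructor
  · rintro ⟨h1, h2, h3⟩
    rw [cx_jump hX] at h1
    rw [cy_eq, cy_eq, cx_jump hY] at h2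
    rw [cy_eq] at h3
    rcases h1 with h1 | h1
    · exfalso
      rw [cx_of_le hX h1] at h3
      rcases h2 with h2 | h2
      · rw [cx_of_le hY h2] at h3
        omega
      · have := (cx_range hY h2).1
        omega
    · rcases h2 with h2 | h2
      · exfalso
        rw [cx_of_le hY h2] at h3
        have := (cx_range hX h1).1
        omega
      · exact ⟨⟨h1, h2⟩, by rw [cy_eq]; exact h3⟩
  · rintro ⟨⟨h1, h2⟩, h3⟩
    exact ⟨(cx_jump hX).mpr (Or.inr h1), (cx_jump hY).mpr (Or.inr h2), h3⟩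

lemma TT_strip (o : Obj (KK kf n)) (ho : Valid (cc n kf) o) (hg : Good (2 * n + 1) (cc n kf) o)
    (t : Fin (KK kf n)) (x y : ℤ) (h : (x, y) ∈ TT (cc n kf t) (o t)) :
    1 ≤ x - y ∧ x - y ≤ 2 * n + 1 ∧ 1 ≤ x + y := by
  have hD := cfg_obj (2 * n + 1) (cc n kf) o ho
  have hX := hXv ho t
  have hY := hYv ho t
  have hc0 : 0 ≤ cc n kf t := by simp only [cc]; positivity
  simp only [TT, mem_filter, mem_product] at h
  obtain ⟨⟨h1, h2⟩, h3⟩ := h
  have j1 := (cx_jump hX (u := x)).mpr (Or.inr h1)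
  have j2 := (cx_jump hY (u := y)).mpr (Or.inr h2)
  rw [← cy_eq, ← cy_eq] at j2
  have x0 := hX x h1
  have y0 := hY y h2
  refine ⟨?_, ?_, by omega⟩
  · by_contra hcon
    have := good_G1 hD hg.1 (t := t.val + 1) (by have := t.2; omega) (u := x) (w := y - 1) (by omega)
    rw [DD_succ] at this
    omega
  · by_contra hcon
    have := good_G2 hD hg.2 (s := t.val + 1) (by omega) (by have := t.2; omega)
      (u := x - 1) (w := y) (by push_cast; omega) (by omega)
    rw [DD_succ] at this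
    omega

theorem A2 (n : ℕ) (kf : ℕ → ℕ) : A2Stmt n kf := by
  classical
  intro o ho hg
  have hsum : ∀ t, ∑ p ∈ TT (cc n kf t) (o t), (p.1 + p.2) = wa (o t) := fun t =>
    TT_sum (ho t) (good_ch ho hg t)
  have hstrip := TT_strip o ho hg
  have hwt : wt o = ∑ t, ∑ p ∈ TT (cc n kf t) (o t), (p.1 + p.2) := by
    rw [wt]; exact sum_congr rfl fun t _ => (hsum t).symm
  have hnn : ∀ t, 0 ≤ ∑ p ∈ TT (cc n kf t) (o t), (p.1 + p.2) := fun t =>
    sum_nonneg fun p hp => by have := hstrip t p.1 p.2 hp; omega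
  have hle : ∀ t, ∀ x y : ℤ, (x, y) ∈ TT (cc n kf t) (o t) → x + y ≤ wt o := by
    intro t x y hxy
    have h1 : x + y ≤ ∑ p ∈ TT (cc n kf t) (o t), (p.1 + p.2) :=
      single_le_sum (f := fun p : ℤ × ℤ => p.1 + p.2)
        (fun p hp => by have := hstrip t p.1 p.2 hp; show 0 ≤ p.1 + p.2; omega) hxy
    have h2 : ∑ p ∈ TT (cc n kf t) (o t), (p.1 + p.2) ≤ wt o := by
      rw [hwt]
      exact single_le_sum (f := fun t => ∑ p ∈ TT (cc n kf t) (o t), (p.1 + p.2))
        (fun t _ => hnn t) (mem_univ t)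
    omega
  have hwt0 : 0 ≤ wt o := by rw [hwt]; exact sum_nonneg fun t _ => hnn t
  obtain ⟨N, hN⟩ : ∃ N : ℕ, wt o = N := ⟨(wt o).toNat, (Int.toNat_of_nonneg hwt0).symm⟩
  refine ⟨N, hN, ?_, ?_⟩
  · intro d i hne
    obtain ⟨a1, a2, a3, a4⟩ := fo_supp' (cc n kf) o hne
    unfold fo at hne
    rw [if_pos ⟨a1, a2, a3, a4⟩] at hne
    obtain ⟨t, ht⟩ := card_pos.mp (Nat.pos_of_ne_zero hne)
    simp only [mem_filter, mem_univ, true_and] at ht
    obtain ⟨r, hr⟩ := a4
    have hx : ((i : ℤ) + d) / 2 = r := by omega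
    rw [hx] at ht
    have h1 : Cor (cc n kf t) (o t) r (r - d) := ht
    rw [Cor_iff (ho t) (by omega)] at h1
    have := hle t _ _ h1
    omega
  · -- the weight
    have key : ((∑ d ∈ Icc 1 (2 * n + 1), ∑ i ∈ Icc 1 N, i * fo n (cc n kf) o d i : ℕ) : ℤ)
        = ∑ t, ∑ p ∈ TT (cc n kf t) (o t), (p.1 + p.2) := by
      push_cast
      have e1 : ∀ d ∈ Icc 1 (2 * n + 1), ∀ i ∈ Icc 1 N, ((i : ℤ) * (fo n (cc n kf) o d i : ℤ))
          = ∑ t : Fin (KK kf n), if (Even (d + i) ∧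
            Cor (cc n kf t) (o t) (((i : ℤ) + d) / 2) (((i : ℤ) + d) / 2 - d)) then (i : ℤ) else 0 := by
        intro d hd i hi
        rw [mem_Icc] at hd hi
        unfold fo
        by_cases hev : Even (d + i)
        · rw [if_pos ⟨hd.1, hd.2, hi.1, hev⟩, card_filter]
          push_cast
          rw [mul_sum]
          refine sum_congr rfl fun t _ => ?_
          unfold Cor
          simp only [hev, true_and, mul_ite, mul_one, mul_zero]
        · rw [if_neg (fun h => hev h.2.2.2)]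
          simp [hev]
      have e2 : ∑ d ∈ Icc 1 (2 * n + 1), ∑ i ∈ Icc 1 N, ((i : ℤ) * (fo n (cc n kf) o d i : ℤ))
          = ∑ d ∈ Icc 1 (2 * n + 1), ∑ i ∈ Icc 1 N, ∑ t : Fin (KK kf n), (if (Even (d + i) ∧
            Cor (cc n kf t) (o t) (((i : ℤ) + d) / 2) (((i : ℤ) + d) / 2 - d)) then (i : ℤ) else 0) :=
        sum_congr rfl fun d hd => sum_congr rfl fun i hi => e1 d hd i hi
      rw [e2, ← sum_product', sum_comm]
      refine sum_congr rfl fun t _ => ?_
      rw [← sum_filter]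
      refine sum_bij' (fun p _ => ((((p.2 : ℕ) : ℤ) + p.1) / 2, (((p.2 : ℕ) : ℤ) + p.1) / 2 - p.1))
        (fun p _ => ((p.1 - p.2).toNat, (p.1 + p.2).toNat)) ?_ ?_ ?_ ?_ ?_
      · rintro ⟨d, i⟩ hp
        simp only [mem_filter, mem_product, mem_Icc] at hp
        obtain ⟨⟨⟨h1, h2⟩, h3, h4⟩, ⟨r, hr⟩, h5⟩ := hp
        simp only
        have hx : ((i : ℤ) + d) / 2 = r := by omega
        rw [hx] at h5 ⊢
        exact (Cor_iff (ho t) (by omega)).mp h5
      · rintro ⟨x, y⟩ hp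
        have h1 := hstrip t x y hp
        have h2 := hle t x y hp
        have e3 : ((x - y).toNat : ℤ) = x - y := Int.toNat_of_nonneg (by omega)
        have e4 : ((x + y).toNat : ℤ) = x + y := Int.toNat_of_nonneg (by omega)
        simp only [mem_filter, mem_product, mem_Icc]
        refine ⟨⟨⟨by omega, by omega⟩, by omega, by omega⟩, ?_, ?_⟩
        · have : Even (((x - y).toNat + (x + y).toNat : ℕ) : ℤ) := ⟨x, by push_cast; rw [e3, e4]; ring⟩
          exact_mod_cast this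
        · rw [e3, e4]
          have e5 : (x + y + (x - y)) / 2 = x := by omega
          rw [e5, show x - (x - y) = y by ring]
          exact (Cor_iff (ho t) (by omega)).mpr hp
      · rintro ⟨d, i⟩ hp
        simp only [mem_filter, mem_product, mem_Icc] at hp
        obtain ⟨⟨⟨h1, h2⟩, h3, h4⟩, ⟨r, hr⟩, h5⟩ := hp
        simp only [Prod.mk.injEq]
        omega
      · rintro ⟨x, y⟩ hp
        have h1 := hstrip t x y hp
        have e3 : ((x - y).toNat : ℤ) = x - y := Int.toNat_of_nonneg (by omega)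
        have e4 : ((x + y).toNat : ℤ) = x + y := Int.toNat_of_nonneg (by omega)
        simp only [Prod.mk.injEq, e3, e4]
        omega
      · rintro ⟨d, i⟩ hp
        simp only [mem_filter, mem_product, mem_Icc] at hp
        obtain ⟨⟨⟨h1, h2⟩, h3, h4⟩, ⟨r, hr⟩, h5⟩ := hp
        simp only
        omega
    rw [← hwt, hN] at key
    exact_mod_cast key

end

end Pool.Agent.CMPP
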