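import Mathlib
import Pool.Agent.Lib_helper28.CMPP.GoodF

set_option autoImplicit false

open Finset

namespace Pool.Agent.CMPP

open CMPP_M

lemma Eul_eq_Qi {q : ℝ} (hq0 : 0 < q) : Eul q = Qi (Real.sqrt q) := by
  unfold Eul Qi
  congr 1
  funext j
  rw [pow_mul, Real.sq_sqrt hq0.le]

lemma Eul_pos {q : ℝ} (hq0 : 0 < q) (hq1 : q < 1) : 0 < Eul q := by
  rw [Eul_eq_Qi hq0]
  exact Qi_pos (Real.sqrt_pos.mpr hq0) (by rw [Real.sqrt_lt' one_pos]; simpa using hq1)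

theorem E1_of {k : ℕ} (m : ℕ) (c : Fin k → ℤ) (hmono : Monotone c)
    (hc : (∀ t, 0 ≤ c t ∧ 2 * c t + 1 ≤ m) ∨ (m = 0 ∧ ∀ t, c t = 0))
    {q s : ℝ} (hq0 : 0 < q) (hq1 : q < 1)
    (hs0 : 0 < s) (hs1 : s < 1) (hsq : s ^ 2 = q ^ (2 * k + 1 + m)) {g : (Fin k → ℤ) → ℂ}
    (h : IsL (fun z : Fin k → ℂ => Ft s z) g)
    (hall : HasSum (fun o : {o : Obj k // Valid c o} =>
        g (EE o.1) * (q : ℂ) ^ (wt o.1 - ∑ t, EE o.1 t * (EE o.1 t + 1) / 2))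
      ((∏ t : Fin k, (q : ℂ) ^ (((t : ℕ) + 1 : ℤ) * (((t : ℕ) + 1) + 2 * c t + 1) / 2)) /
        (Eul q : ℂ) ^ k * Ft s (fun t => (q : ℂ) ^ (c t + ((t : ℕ) + 1))))) :
    g (D0 k) * (ZZ m c q : ℂ) * (Eul q : ℂ) ^ k =
      ∏ t : Fin k, (th s ((q : ℂ) ^ (2 * (c t + ((t : ℕ) + 1)))) *
        ∏ u ∈ Iio t, (th s ((q : ℂ) ^ ((c t + ((t : ℕ) + 1)) - (c u + ((u : ℕ) + 1)))) *
          th s ((q : ℂ) ^ ((c t + ((t : ℕ) + 1)) + (c u + ((u : ℕ) + 1)))))) := by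
  have hqc : (q : ℂ) ≠ 0 := by exact_mod_cast hq0.ne'
  have hE : ((Eul q : ℝ) : ℂ) ≠ 0 := by exact_mod_cast (Eul_pos hq0 hq1).ne'
  have h1 := sum_good m c hmono hc hq0 hs0 hs1 hsq h _ hall
  set S : ℤ := ∑ t : Fin k, (((t : ℕ) : ℤ) + 1) * ((t : ℕ) : ℤ) / 2 with hS
  have h2 : (∑' o : {o : Obj k // Valid c o ∧ Good m c o}, (q : ℂ) ^ (wt o.1)) = (ZZ m c q : ℂ) := by
    unfold ZZ
    rw [Complex.ofReal_tsum]
    refine tsum_congr fun o => ?_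
    push_cast
    rfl
  have h3 : g (D0 k) * ((ZZ m c q : ℂ) * (q : ℂ) ^ (-S)) = (∏ t : Fin k, (q : ℂ) ^ (((t : ℕ) + 1 : ℤ) * (((t : ℕ) + 1) + 2 * c t + 1) / 2)) /
        (Eul q : ℂ) ^ k * Ft s (fun t => (q : ℂ) ^ (c t + ((t : ℕ) + 1))) := by
    rw [← h1.tsum_eq, ← h2, ← tsum_mul_right, ← tsum_mul_left]
    refine tsum_congr fun o => ?_
    rw [← zpow_add₀ hqc, sub_eq_add_neg]
  have h4 : Ft s (fun t => (q : ℂ) ^ (c t + ((t : ℕ) + 1)))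
      = (∏ t : Fin k, (q : ℂ) ^ (-((c t + ((t : ℕ) + 1)) * ((t : ℕ) + 1)))) *
      ∏ t : Fin k, (th s ((q : ℂ) ^ (2 * (c t + ((t : ℕ) + 1)))) *
        ∏ u ∈ Iio t, (th s ((q : ℂ) ^ ((c t + ((t : ℕ) + 1)) - (c u + ((u : ℕ) + 1)))) *
          th s ((q : ℂ) ^ ((c t + ((t : ℕ) + 1)) + (c u + ((u : ℕ) + 1)))))) := by
    unfold Ft S1 S2
    rw [← prod_mul_distrib, ← prod_mul_distrib]
    refine prod_congr rfl fun t _ => ?_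
    rw [prod_mul_distrib, prod_const, Fin.card_Iio]
    have e1 : ((q : ℂ) ^ (c t + ((t : ℕ) + 1 : ℤ)))⁻¹ * (((q : ℂ) ^ (c t + ((t : ℕ) + 1 : ℤ)))⁻¹) ^ (t : ℕ)
        = (q : ℂ) ^ (-((c t + ((t : ℕ) + 1)) * ((t : ℕ) + 1))) := by
      rw [← zpow_neg, ← zpow_natCast, ← zpow_mul, ← zpow_add₀ hqc]
      congr 1
      ring
    rw [← e1, ← zpow_add₀ hqc, show c t + ((t : ℕ) + 1 : ℤ) + (c t + ((t : ℕ) + 1)) = 2 * (c t + ((t : ℕ) + 1)) by ring]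
    have e2 : ∏ u ∈ Iio t, (th s ((q : ℂ) ^ (c t + ((t : ℕ) + 1 : ℤ)) * ((q : ℂ) ^ (c u + ((u : ℕ) + 1 : ℤ)))⁻¹) *
        th s ((q : ℂ) ^ (c t + ((t : ℕ) + 1 : ℤ)) * (q : ℂ) ^ (c u + ((u : ℕ) + 1 : ℤ))))
        = ∏ u ∈ Iio t, (th s ((q : ℂ) ^ ((c t + ((t : ℕ) + 1)) - (c u + ((u : ℕ) + 1)))) *
          th s ((q : ℂ) ^ ((c t + ((t : ℕ) + 1)) + (c u + ((u : ℕ) + 1))))) := by
      refine prod_congr rfl fun u _ => ?_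
      rw [← zpow_neg, ← zpow_add₀ hqc, ← zpow_add₀ hqc, ← sub_eq_add_neg]
    rw [e2]
    ring
  set W := ∏ t : Fin k, (th s ((q : ℂ) ^ (2 * (c t + ((t : ℕ) + 1)))) *
        ∏ u ∈ Iio t, (th s ((q : ℂ) ^ ((c t + ((t : ℕ) + 1)) - (c u + ((u : ℕ) + 1)))) *
          th s ((q : ℂ) ^ ((c t + ((t : ℕ) + 1)) + (c u + ((u : ℕ) + 1)))))) with hW
  have h5 : (∏ t : Fin k, (q : ℂ) ^ (((t : ℕ) + 1 : ℤ) * (((t : ℕ) + 1) + 2 * c t + 1) / 2)) *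
      (∏ t : Fin k, (q : ℂ) ^ (-((c t + ((t : ℕ) + 1)) * ((t : ℕ) + 1)))) = (q : ℂ) ^ (-S) := by
    rw [← prod_mul_distrib, hS, ← sum_neg_distrib, ← prod_zpow_sum hqc]
    refine prod_congr rfl fun t _ => ?_
    rw [← zpow_add₀ hqc]
    congr 1
    set x : ℤ := ((t : ℕ) : ℤ) with hx
    have e1 := tri x
    have e2 : (x + 1) * ((x + 1) + 2 * c t + 1) / 2 = (x + 1) * c t + (x + 1) * ((x + 1) + 1) / 2 := by
      have : (x + 1) * ((x + 1) + 2 * c t + 1) = (x + 1) * ((x + 1) + 1) + ((x + 1) * c t) * 2 := by ring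
      rw [this, Int.add_mul_ediv_right _ _ (by norm_num)]
      ring
    have e3 := tri (x + 1)
    have e4 : (x + 1) * x / 2 = x * (x + 1) / 2 := by rw [mul_comm]
    rw [e2, e4]
    have : 2 * ((x + 1) * c t + (x + 1) * ((x + 1) + 1) / 2 + -((c t + (x + 1)) * (x + 1)))
        = 2 * (-(x * (x + 1) / 2)) := by
      rw [mul_neg, e1, mul_add, mul_add, e3]
      ring
    linarith
  rw [h4] at h3
  have hq' : (q : ℂ) ^ (-S) ≠ 0 := zpow_ne_zero _ hqc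
  have hE' : (Eul q : ℂ) ^ k ≠ 0 := pow_ne_zero _ hE
  have h6 : g (D0 k) * (ZZ m c q : ℂ) * (Eul q : ℂ) ^ k * (q : ℂ) ^ (-S) = W * (q : ℂ) ^ (-S) := by
    have h7 : g (D0 k) * ((ZZ m c q : ℂ) * (q : ℂ) ^ (-S)) * (Eul q : ℂ) ^ k
        = ((∏ t : Fin k, (q : ℂ) ^ (((t : ℕ) + 1 : ℤ) * (((t : ℕ) + 1) + 2 * c t + 1) / 2)) *
      (∏ t : Fin k, (q : ℂ) ^ (-((c t + ((t : ℕ) + 1)) * ((t : ℕ) + 1))))) * W := by
      rw [h3]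
      field_simp
    rw [h5] at h7
    linear_combination h7
  exact mul_right_cancel₀ hq' h6

end Pool.Agent.CMPP
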