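import Mathlib
import Pool.Agent.Lib_helper28.CMPP.Fo

set_option autoImplicit false

open Finset

namespace Pool.Agent.CMPP

section

variable {kf : ℕ → ℕ} {n : ℕ}

lemma fo_supp {k : ℕ} (c : Fin k → ℤ) (o : Obj k) {d i : ℕ} (h : fo n c o d i ≠ 0) :
    1 ≤ d ∧ d ≤ 2 * n + 1 ∧ 1 ≤ i ∧ Even (d + i) := by
  unfold fo at h
  by_contra hcon
  rw [if_neg hcon] at h
  exact h rfl

/-- (A4) -/
lemma f_ext (f f' : ℕ → ℕ → ℕ)
    (hf : ∀ d i, f d i ≠ 0 → 1 ≤ d ∧ d ≤ 2 * n + 1 ∧ 1 ≤ i ∧ Even (d + i))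
    (hf' : ∀ d i, f' d i ≠ 0 → 1 ≤ d ∧ d ≤ 2 * n + 1 ∧ 1 ≤ i ∧ Even (d + i))
    (h : ∀ d : ℕ, d ≤ 2 * n + 1 → ∀ x : ℤ, GG kf f d x = GG kf f' d x) : f = f' := by
  funext d i
  by_cases hc : 1 ≤ d ∧ d ≤ 2 * n + 1 ∧ 1 ≤ i ∧ Even (d + i)
  · obtain ⟨h1, h2, h3, h4⟩ := hc
    obtain ⟨e, rfl⟩ : ∃ e, d = e + 1 := ⟨d - 1, by omega⟩
    obtain ⟨x, hx⟩ := h4
    have a1 := h (e + 1) h2 (x : ℤ)
    have a2 := h e (by omega) (x : ℤ)
    have a3 := h e (by omega) ((x : ℤ) - 1)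
    rw [GG_succ, GG_succ, a2, a3] at a1
    have a4 : fh kf f x (e + 1) = fh kf f' x (e + 1) := by omega
    unfold fh at a4
    have hp : 1 ≤ 2 * (x : ℤ) - ((e + 1 : ℕ) : ℤ) := by omega
    rw [if_pos hp, if_pos hp] at a4
    have e1 : (2 * (x : ℤ) - ((e + 1 : ℕ) : ℤ)).toNat = i := by omega
    rwa [e1] at a4
  · have b1 : f d i = 0 := by
      by_contra hne; exact hc (hf d i hne)
    have b2 : f' d i = 0 := by
      by_contra hne; exact hc (hf' d i hne)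
    rw [b1, b2]

/-- the frozen set -/
def SN (n : ℕ) (k : ℕ → ℕ) (N : ℕ) : Set (ℕ → ℕ → ℕ) :=
  {f : ℕ → ℕ → ℕ |
            (∀ c i, f c i ≠ 0 → 1 ≤ c ∧ c ≤ 2 * n + 1 ∧ 1 ≤ i ∧ i ≤ N ∧ Even (c + i)) ∧
            (∑ c ∈ Finset.Icc 1 (2 * n + 1), ∑ i ∈ Finset.Icc 1 N, i * f c i) = N ∧
            ∀ p : ℕ → ℤ,
              (∀ c ∈ Finset.Icc 1 (2 * n + 1), -1 ≤ p c ∧ Even (p c + (c : ℤ))) →
              (∀ c ∈ Finset.Icc 1 (2 * n), |p c - p (c + 1)| = 1) →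
              (∑ c ∈ Finset.Icc 1 (2 * n + 1),
                  (if p c = -1 then (if Odd c then k ((c - 1) / 2) else 0)
                   else f c (p c).toNat))
                ≤ ∑ t ∈ Finset.range (n + 1), k t}

lemma LHSf_eq (n : ℕ) (k : ℕ → ℕ) (q : ℝ) (N : ℕ) : LHSf n k q N = ((SN n k N).ncard : ℝ) * q ^ N :=
  rfl

lemma sum_indep {f : ℕ → ℕ → ℕ} {m N N' : ℕ} (h : ∀ d i, f d i ≠ 0 → i ≤ N) (hNN : N ≤ N') :
    ∑ c ∈ Icc 1 m, ∑ i ∈ Icc 1 N', i * f c i = ∑ c ∈ Icc 1 m, ∑ i ∈ Icc 1 N, i * f c i := by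
  refine sum_congr rfl fun c _ => ?_
  symm
  refine sum_subset (Icc_subset_Icc le_rfl hNN) ?_
  intro i h1 h2
  rw [mem_Icc] at h1 h2
  have : f c i = 0 := by
    by_contra hne
    have := h c i hne
    omega
  rw [this, mul_zero]

variable (hA1 : A1Stmt n kf) (hA2 : A2Stmt n kf)

include hA1 in
lemma GG_fo_iff (o : Obj (KK kf n)) (ho : Valid (cc n kf) o) (hg : Good (2 * n + 1) (cc n kf) o)
    (d : ℕ) (hd : d ≤ 2 * n + 1) (x : ℤ) (i : Fin (KK kf n)) :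
    (1 ≤ DD (2 * n + 1) (cc n kf) o (i.val + 1) x (x - d - 1) ↔
      i.val + 1 ≤ GG kf (fo n (cc n kf) o) d x) := by
  rw [hA1 o ho hg d hd x]
  exact card_iff o ho hg d hd x i

include hA1 in
lemma GG_fo_le (o : Obj (KK kf n)) (ho : Valid (cc n kf) o) (hg : Good (2 * n + 1) (cc n kf) o)
    (x : ℤ) : GG kf (fo n (cc n kf) o) (2 * n + 1) x ≤ KK kf n := by
  rw [hA1 o ho hg _ le_rfl x]
  refine le_trans (card_le_univ _) ?_
  simp

include hA1 in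
lemma fo_inj (o o' : Obj (KK kf n)) (ho : Valid (cc n kf) o) (hg : Good (2 * n + 1) (cc n kf) o)
    (ho' : Valid (cc n kf) o') (hg' : Good (2 * n + 1) (cc n kf) o')
    (h : fo n (cc n kf) o = fo n (cc n kf) o') : o = o' := by
  refine obj_ext o o' ho hg ho' hg' fun i d hd x => ?_
  rw [GG_fo_iff hA1 o ho hg d hd x i, GG_fo_iff hA1 o' ho' hg' d hd x i, h]

include hA1 hA2 in
lemma fo_mem (o : Obj (KK kf n)) (ho : Valid (cc n kf) o) (hg : Good (2 * n + 1) (cc n kf) o)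
    (N : ℕ) (hN : wt o = N) : fo n (cc n kf) o ∈ SN n kf N := by
  obtain ⟨N', h1, h2, h3⟩ := hA2 o ho hg
  have : N' = N := by rw [hN] at h1; exact_mod_cast h1.symm
  subst this
  refine ⟨?_, h3, ?_⟩
  · intro d i hne
    obtain ⟨a1, a2, a3, a4⟩ := fo_supp (cc n kf) o hne
    exact ⟨a1, a2, a3, h2 d i hne, a4⟩
  · refine (paths_iff (kf := kf) (f := fo n (cc n kf) o) ?_ n (KK kf n)).mpr (GG_fo_le hA1 o ho hg)
    intro c _
    by_contra hne
    have := (fo_supp (cc n kf) o hne).2.2.1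
    omega

include hA1 hA2 in
lemma fo_surj (N : ℕ) (f : ℕ → ℕ → ℕ) (hf : f ∈ SN n kf N) :
    ∃ o : Obj (KK kf n), (Valid (cc n kf) o ∧ Good (2 * n + 1) (cc n kf) o) ∧ wt o = N ∧
      fo n (cc n kf) o = f := by
  obtain ⟨h1, h2, h3⟩ := hf
  have hG : ∀ x : ℤ, GG kf f (2 * n + 1) x ≤ KK kf n := by
    refine (paths_iff (kf := kf) (f := f) ?_ n (KK kf n)).mp h3
    intro c _
    by_contra hne
    have := (h1 c 0 hne).2.2.1
    omega
  obtain ⟨o, ho, hg, hiff⟩ := exists_obj (kf := kf) (f := f) (n := n) (N := N)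
    (fun c i h => (h1 c i h).2.2.2.1) hG
  have hEq : fo n (cc n kf) o = f := by
    refine f_ext (kf := kf) (n := n) _ _ (fun d i hne => fo_supp (cc n kf) o hne)
      (fun d i hne => ?_) ?_
    · obtain ⟨a1, a2, a3, a4, a5⟩ := h1 d i hne
      exact ⟨a1, a2, a3, a5⟩
    · intro d hd x
      have b1 : ∀ i : Fin (KK kf n), i.val + 1 ≤ GG kf (fo n (cc n kf) o) d x ↔
          i.val + 1 ≤ GG kf f d x := by
        intro i
        rw [← GG_fo_iff hA1 o ho hg d hd x i]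
        exact hiff i d hd x
      have b2 : GG kf (fo n (cc n kf) o) d x ≤ KK kf n :=
        le_trans (GG_mono x hd) (GG_fo_le hA1 o ho hg x)
      have b3 : GG kf f d x ≤ KK kf n := le_trans (GG_mono x hd) (hG x)
      apply le_antisymm
      · by_contra hcon
        push Not at hcon
        have := (b1 ⟨GG kf f d x, by omega⟩).mp (by simp only; omega)
        simp only at this
        omega
      · by_contra hcon
        push Not at hcon
        have := (b1 ⟨GG kf (fo n (cc n kf) o) d x, by omega⟩).mpr (by simp only; omega)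
        simp only at this
        omega
  refine ⟨o, ⟨ho, hg⟩, ?_, hEq⟩
  obtain ⟨N', g1, g2, g3⟩ := hA2 o ho hg
  rw [hEq] at g2 g3
  rw [g1]
  have g4 : ∀ d i, f d i ≠ 0 → i ≤ N := fun d i h => (h1 d i h).2.2.2.1
  rcases le_total N N' with hNN | hNN
  · rw [sum_indep g4 hNN, h2] at g3
    exact_mod_cast g3.symm
  · rw [sum_indep g2 hNN, g3] at h2
    exact_mod_cast h2

include hA1 hA2 in
theorem fixed_points_of {q : ℝ}
    (hsum : Summable (fun o : {o : Obj (KK kf n) // Valid (cc n kf) o ∧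
      Good (2 * n + 1) (cc n kf) o} => q ^ (wt o.1))) :
    HasSum (LHSf n kf q) (ZZ (2 * n + 1) (cc n kf) q) := by
  classical
  set GO := {o : Obj (KK kf n) // Valid (cc n kf) o ∧ Good (2 * n + 1) (cc n kf) o} with hGO
  set W : GO → ℕ := fun o => (wt o.1).toNat with hW
  have hW1 : ∀ o : GO, wt o.1 = W o := by
    intro o
    obtain ⟨N', g1, _, _⟩ := hA2 o.1 o.2.1 o.2.2
    simp only [hW]
    rw [g1]
    simp
  have h1 := hsum.hasSum.tsum_fiberwise W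
  have h2 : (∑' o : GO, q ^ (wt o.1)) = ZZ (2 * n + 1) (cc n kf) q := rfl
  rw [h2] at h1
  refine h1.congr_fun ?_
  intro N
  rw [LHSf_eq]
  have h3 : (fun o : (W ⁻¹' {N} : Set GO) => q ^ (wt o.1.1)) = fun _ => q ^ N := by
    funext o
    have : W o.1 = N := o.2
    rw [hW1, this, zpow_natCast]
  rw [h3, tsum_const, nsmul_eq_mul]
  congr 2
  rw [← Nat.card_coe_set_eq]
  refine (Nat.card_congr (Equiv.ofBijective
    (fun o : (W ⁻¹' {N} : Set GO) => (⟨fo n (cc n kf) o.1.1, fo_mem hA1 hA2 o.1.1 o.1.2.1 o.1.2.2 N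
      (by rw [hW1]; exact_mod_cast o.2)⟩ : SN n kf N)) ⟨?_, ?_⟩)).symm
  · rintro ⟨⟨o, ho, hg⟩, h⟩ ⟨⟨o', ho', hg'⟩, h'⟩ he
    simp only [Subtype.mk.injEq] at he ⊢
    exact Subtype.ext (fo_inj hA1 o o' ho hg ho' hg' he)
  · rintro ⟨f, hf⟩
    obtain ⟨o, ho, hw, hfo⟩ := fo_surj hA1 hA2 N f hf
    refine ⟨⟨⟨o, ho⟩, ?_⟩, ?_⟩
    · have := hW1 ⟨o, ho⟩
      simp only at this
      rw [hw] at this
      exact_mod_cast this.symm
    · exact Subtype.ext hfo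

end

end Pool.Agent.CMPP
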