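import Mathlib
import Pool.Agent.Lib_helper89.CMPP.TS
import Pool.Agent.Lib_helper28.CMPP.E1
import Pool.Agent.Lib_helper28.CMPP.FixA
import Pool.Agent.Lib_helper28.CMPP.A2

set_option autoImplicit false

open Finset

namespace Pool.Agent.CMPP

open CMPP_M

theorem const_D0 {k : ℕ} {s : ℝ} (hs0 : 0 < s) (hs1 : s < 1) {g : (Fin k → ℤ) → ℂ}
    (h : IsL (fun z : Fin k → ℂ => Ft s z) g) : g (D0 k) * (Qi s : ℂ) ^ k = 1 := by
  set q0 : ℝ := s ^ ((2 : ℝ) / (2 * k + 1)) with hq0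
  have hk : (0 : ℝ) < 2 * k + 1 := by positivity
  have h0 : 0 < q0 := Real.rpow_pos_of_pos hs0 _
  have h1 : q0 < 1 := Real.rpow_lt_one hs0.le hs1 (by positivity)
  have h2 : s ^ 2 = q0 ^ (2 * k + 1) := by
    rw [hq0, ← Real.rpow_natCast (s ^ ((2 : ℝ) / (2 * k + 1))), ← Real.rpow_mul hs0.le]
    push_cast
    rw [div_mul_cancel₀ _ hk.ne']
    exact (Real.rpow_natCast s 2).symm
  have e := E1_of (k := k) 0 (fun _ => 0) (fun _ _ _ => le_rfl) (Or.inr ⟨rfl, fun _ => rfl⟩) h0 h1 hs0 hs1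
    (by simpa using h2) h (sum_all (fun _ => 0) h0 h1 hs0 hs1 h)
  rw [ZZ_zero _ (fun _ => rfl), P1 k h0 h1 hs0 hs1 h2] at e
  have hE : ((Eul q0 : ℝ) : ℂ) ≠ 0 := by exact_mod_cast (Eul_pos h0 h1).ne'
  have hQ : ((Qi s : ℝ) : ℂ) ≠ 0 := by exact_mod_cast (Qi_pos hs0 hs1).ne'
  push_cast at e
  rw [div_pow, mul_one] at e
  field_simp at e
  exact e

theorem main (n : ℕ) (hn : 1 ≤ n) (kf : ℕ → ℕ) {q : ℝ} (hq0 : 0 < q) (hq1 : q < 1) :
    HasSum (LHSf n kf q) (RHS n kf q) := by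
  set K := KK kf n with hK
  set s : ℝ := q ^ (KK kf n + n + 1) with hs
  have hs0 : 0 < s := pow_pos hq0 _
  have hs1 : s < 1 := pow_lt_one₀ hq0.le hq1 (by omega)
  obtain ⟨g, h⟩ := IsL_Ft (k := K) hs0 hs1
  have hD := const_D0 hs0 hs1 h
  have hg : g (D0 K) ≠ 0 := fun h0 => by rw [h0] at hD; simp at hD
  set c : Fin K → ℤ := fun t => (cf n kf t : ℤ) with hc
  have hmono : Monotone c := by
    intro a b hab
    simp only [hc]
    norm_cast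
    refine card_le_card (monotone_filter_right _ ?_)
    intro j _ hj
    exact le_trans hj hab
  have hcb : ∀ t, 0 ≤ c t ∧ 2 * c t + 1 ≤ ((2 * n + 1 : ℕ) : ℤ) := by
    intro t
    simp only [hc]
    refine ⟨by positivity, ?_⟩
    have : cf n kf t ≤ n := by
      refine le_trans (card_filter_le _ _) ?_
      simp
    push_cast
    have : (cf n kf t : ℤ) ≤ n := by exact_mod_cast this
    linarith
  have hsq : s ^ 2 = q ^ (2 * K + 1 + (2 * n + 1)) := by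
    rw [hs, ← pow_mul]; congr 1; ring
  have hall := sum_all c hq0 hq1 hs0 hs1 h
  have hS := sum_good (2 * n + 1) c hmono (Or.inl hcb) hq0 hs0 hs1 hsq h _ hall
  have hsum : Summable (fun o : {o : Obj K // Valid c o ∧ Good (2 * n + 1) c o} => q ^ (wt o.1)) := by
    have h1 := hS.summable.mul_left ((g (D0 K))⁻¹ *
      (q : ℂ) ^ (∑ t : Fin K, (((t : ℕ) : ℤ) + 1) * ((t : ℕ) : ℤ) / 2))
    have hqc : (q : ℂ) ≠ 0 := by exact_mod_cast hq0.ne'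
    have h2 := h1.norm
    refine h2.congr fun o => ?_
    rw [zpow_sub₀ hqc]
    have hne := zpow_ne_zero (∑ t : Fin K, (((t : ℕ) : ℤ) + 1) * ((t : ℕ) : ℤ) / 2) hqc
    have : (g (D0 K))⁻¹ * (q : ℂ) ^ (∑ t : Fin K, (((t : ℕ) : ℤ) + 1) * ((t : ℕ) : ℤ) / 2) *
        (g (D0 K) * ((q : ℂ) ^ wt o.1 / (q : ℂ) ^ (∑ t : Fin K, (((t : ℕ) : ℤ) + 1) * ((t : ℕ) : ℤ) / 2)))
        = (q : ℂ) ^ wt o.1 := by
      field_simp
    rw [this, norm_zpow, Complex.norm_real, Real.norm_of_nonneg hq0.le]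
  have fp := fixed_points_of (A1 n kf) (A2 n kf) hsum
  have e1 := E1_of (2 * n + 1) c hmono (Or.inl hcb) hq0 hq1 hs0 hs1 hsq h hall
  have e2 := P2 n hn kf hq0 hq1 hs
  have hE : ((Eul q : ℝ) : ℂ) ≠ 0 := by exact_mod_cast (Eul_pos hq0 hq1).ne'
  have e3 : (ZZ (2 * n + 1) c q : ℂ) * (Eul q : ℂ) ^ K = (RHS n kf q : ℂ) * (Eul q : ℂ) ^ K := by
    have : (∏ t : Fin K, (th s ((q : ℂ) ^ (2 * (c t + ((t : ℕ) + 1)))) *
        ∏ u ∈ Iio t, (th s ((q : ℂ) ^ ((c t + ((t : ℕ) + 1)) - (c u + ((u : ℕ) + 1)))) *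
          th s ((q : ℂ) ^ ((c t + ((t : ℕ) + 1)) + (c u + ((u : ℕ) + 1))))))) * (Qi s : ℂ) ^ K
        = ((RHS n kf q * (Eul q) ^ K : ℝ) : ℂ) := e2
    rw [← e1] at this
    push_cast at this
    calc _ = (g (D0 K) * (Qi s : ℂ) ^ K) * ((ZZ (2 * n + 1) c q : ℂ) * (Eul q : ℂ) ^ K) := by
          rw [hD, one_mul]
      _ = _ := by rw [← this]; ring
  have e4 : (ZZ (2 * n + 1) c q : ℂ) = (RHS n kf q : ℂ) :=
    mul_right_cancel₀ (pow_ne_zero _ hE) e3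
  have e5 : ZZ (2 * n + 1) c q = RHS n kf q := by exact_mod_cast e4
  rw [← e5]
  exact fp

end Pool.Agent.CMPP
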